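import Pool.Agent.L5helper80.GR.Good

set_option autoImplicit false

/-!
Asymptotic estimates.
-/

namespace Pool.Agent.L5helper80.GR

open Complex Set MeasureTheory Filter Topology Pool.Agent.W780.PG Pool.Agent.W780.BB
  Pool.Agent.TH225.BL Pool.Agent.K3h17.BK Pool.Agent.K3h17.BT

open scoped Real ComplexConjugate

variable {n : ℕ}

theorem const_dom {b : ℝ} (h : 0 < b) (C : ℝ) : ∀ᶠ j : ℕ in atTop, C ≤ (j : ℝ) ^ b := by
  filter_upwards [pow_dom h C] with j hj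
  simpa using hj

theorem log_dom {a : ℝ} (ha : 0 < a) (C : ℝ) :
    ∀ᶠ j : ℕ in atTop, C * Real.log ((j : ℝ) + 1) ≤ (j : ℝ) ^ a := by
  filter_upwards [pow_dom (show a / 2 < a by linarith) (|C| * (2 ^ (a / 2) / (a / 2))),
    eventually_ge_atTop 1] with j h1 h2
  have hj : (1 : ℝ) ≤ j := by exact_mod_cast h2
  have h3 : Real.log ((j : ℝ) + 1) ≤ ((j : ℝ) + 1) ^ (a / 2) / (a / 2) :=
    Real.log_le_rpow_div (by linarith) (by linarith)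
  have h4 : ((j : ℝ) + 1) ^ (a / 2) ≤ 2 ^ (a / 2) * (j : ℝ) ^ (a / 2) := by
    rw [← Real.mul_rpow (by norm_num) (by linarith)]
    exact Real.rpow_le_rpow (by linarith) (by linarith) (by linarith)
  have h5 : 0 ≤ Real.log ((j : ℝ) + 1) := Real.log_nonneg (by linarith)
  calc C * Real.log ((j : ℝ) + 1) ≤ |C| * Real.log ((j : ℝ) + 1) :=
        mul_le_mul_of_nonneg_right (le_abs_self C) h5
    _ ≤ |C| * (((j : ℝ) + 1) ^ (a / 2) / (a / 2)) := by gcongr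
    _ ≤ |C| * (2 ^ (a / 2) * (j : ℝ) ^ (a / 2) / (a / 2)) := by gcongr
    _ = |C| * (2 ^ (a / 2) / (a / 2)) * (j : ℝ) ^ (a / 2) := by ring
    _ ≤ _ := h1

theorem poly_exp {a : ℝ} (ha : 0 < a) (C : ℝ) (k : ℕ) :
    ∀ᶠ j : ℕ in atTop, C * ((j : ℝ) + 1) ^ k ≤ Real.exp ((j : ℝ) ^ a) := by
  have ha2 : 0 < a / 2 := by linarith
  filter_upwards [log_dom ha2 k, const_dom ha2 C, pow_dom (show a / 2 < a by linarith) 2,
    eventually_ge_atTop 1] with j h1 h2 h3 h4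
  have hj : (1 : ℝ) ≤ j := by exact_mod_cast h4
  have e1 : ((j : ℝ) + 1) ^ k = Real.exp (k * Real.log ((j : ℝ) + 1)) := by
    rw [Real.exp_nat_mul, Real.exp_log (by linarith)]
  have e2 : C ≤ Real.exp ((j : ℝ) ^ (a / 2)) := by
    have := Real.add_one_le_exp ((j : ℝ) ^ (a / 2))
    linarith
  rw [e1]
  calc C * Real.exp (k * Real.log ((j : ℝ) + 1)) ≤
      Real.exp ((j : ℝ) ^ (a / 2)) * Real.exp ((j : ℝ) ^ (a / 2)) := by
        have := Real.exp_le_exp.2 h1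
        calc C * Real.exp (k * Real.log ((j : ℝ) + 1)) ≤
            Real.exp ((j : ℝ) ^ (a / 2)) * Real.exp (k * Real.log ((j : ℝ) + 1)) := by gcongr
          _ ≤ _ := by gcongr
    _ = Real.exp (2 * (j : ℝ) ^ (a / 2)) := by
        rw [← Real.exp_add]
        congr 1
        ring
    _ ≤ _ := Real.exp_le_exp.2 h3

theorem exp_dom {a b : ℝ} (ha : 0 < a) (hab : a < b) (C c : ℝ) (k : ℕ) :
    ∀ᶠ j : ℕ in atTop, C * ((j : ℝ) + 1) ^ k * Real.exp (-(j : ℝ) ^ b) ≤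
      Real.exp (-(c * (j : ℝ) ^ a)) := by
  filter_upwards [poly_exp ha C k, pow_dom hab (1 + c)] with j h1 h2
  calc C * ((j : ℝ) + 1) ^ k * Real.exp (-(j : ℝ) ^ b) ≤
      Real.exp ((j : ℝ) ^ a) * Real.exp (-(j : ℝ) ^ b) := by gcongr
    _ = Real.exp ((j : ℝ) ^ a - (j : ℝ) ^ b) := by rw [← Real.exp_add]; congr 1
    _ ≤ _ := by
        apply Real.exp_le_exp.2
        linarith

/-- The class of polygons with uniform constants. -/
def Cls (n : ℕ) (g : ℝ) (c : ℕ) : Set (Fin (n + 3) → ℂ) :=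
  {p | IsConvexPolygon p ∧ Rb p + 1 ≤ c ∧ (∀ i, 2 * (1 / (c : ℝ)) ≤ ‖p (i + 1) - p i‖) ∧
    ∀ m ≥ c, Good p m (Real.exp (-(m : ℝ) ^ g))}

/-- The number of words realised near a polygon of the class. -/
theorem cls_count {g g₁ g₂ : ℝ} (hg : 0 < g) (h1 : g < g₁) (h2 : g₁ < g₂) {c : ℕ} (hc : 1 ≤ c) :
    ∀ᶠ m : ℕ in atTop, ∀ p ∈ Cls n g c, ∀ K : ℕ,
      ((wl (Bq p (Real.exp (-(m : ℝ) ^ g₂))) K).ncard : ℝ) ≤ ((K : ℝ) + 1) *
        (100 * c * Real.exp (2 * (m : ℝ) ^ g₁) *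
        (2 * ((n : ℝ) + 4) * (4 * c + 11) ^ 2 * ((m : ℝ) + 1) ^ 5) ^ (K / m) *
        ((n : ℝ) + 3) ^ m) := by
  have hcR : (1 : ℝ) ≤ c := by exact_mod_cast hc
  have hc0 : (0 : ℝ) < c := by linarith
  have hn : (0 : ℝ) ≤ n := n.cast_nonneg
  have hg1 : 0 < g₁ := by linarith
  have hg2 : 0 < g₂ := by linarith
  have hs0 : (0 : ℝ) < 1 / c := by positivity
  -- the conditions
  have a1 := exp_dom hg1 h2 (n + 3) 0 0
  have a2 := exp_dom hg1 h2 (2 * c) 0 0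
  have a3 := exp_dom hg (h1.trans h2) 1 1 0
  have a4 := exp_dom hg1 h2 (2 * (3 + 16 * (c : ℝ) / (1 / c))) 1 2
  have a5 := exp_dom hg h1 (8000 * (c : ℝ) ^ 4 * 16) 2 4
  have a6 := exp_dom hg1 h2 (8 * (2 : ℝ) / (1 / c)) 1 0
  have a7 := exp_dom hg1 h2 2 1 0
  filter_upwards [a1, a2, a3, a4, a5, a6, a7, eventually_ge_atTop c] with m b1 b2 b3 b4 b5 b6 b7 b8
    p hp K
  obtain ⟨p1, p2, p3, p4⟩ := hp
  simp only [pow_zero, mul_one, one_mul, zero_mul, neg_zero, Real.exp_zero] at b1 b2 b3 b4 b6 b7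
  have hm1 : 1 ≤ m := hc.trans b8
  obtain ⟨r, hr⟩ : ∃ r, r = Real.exp (-(m : ℝ) ^ g₂) := ⟨_, rfl⟩
  obtain ⟨δ, hδ⟩ : ∃ δ, δ = Real.exp (-(m : ℝ) ^ g₁) := ⟨_, rfl⟩
  obtain ⟨η, hη⟩ : ∃ η, η = Real.exp (-(m : ℝ) ^ g) := ⟨_, rfl⟩
  have hr0 : 0 < r := by rw [hr]; exact Real.exp_pos _
  have hδ0 : 0 < δ := by rw [hδ]; exact Real.exp_pos _
  have hη0 : 0 < η := by rw [hη]; exact Real.exp_pos _
  have hη1 : η ≤ 1 := by
    rw [hη]
    apply Real.exp_le_one_iff.2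
    have : (0 : ℝ) ≤ (m : ℝ) ^ g := by positivity
    linarith
  have hδ1 : δ ≤ 1 := by
    rw [hδ]
    apply Real.exp_le_one_iff.2
    have : (0 : ℝ) ≤ (m : ℝ) ^ g₁ := by positivity
    linarith
  rw [← hr] at b1 b2 b3 b4 b6 b7 ⊢
  rw [← hδ] at b4 b5 b6 b7
  rw [← hη] at b3
  have hmR : (0 : ℝ) ≤ m := m.cast_nonneg
  have hG := p4 m b8
  rw [← hη] at hG
  obtain ⟨hF, hbox⟩ := level (s := 1 / (c : ℝ)) (r := r) (δ := δ) p1 hG hη0 hη1 p2 hs0 p3 hr0 b1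
    (by
      rw [le_div_iff₀ hc0]
      linarith) b3 hδ0 (by
      calc (3 + 16 * (c : ℝ) / (1 / c)) * (2 * r) * ((m : ℝ) + 1) ^ 2
          = 2 * (3 + 16 * (c : ℝ) / (1 / c)) * ((m : ℝ) + 1) ^ 2 * r := by ring
        _ ≤ δ := b4) (by
      have e1 : η ^ 2 = Real.exp (-(2 * (m : ℝ) ^ g)) := by
        rw [hη, ← Real.exp_nat_mul]
        congr 1
        push_cast
        ring
      rw [e1]
      refine le_trans ?_ b5
      have e2 : (2 * (m : ℝ) + 1) ≤ 2 * ((m : ℝ) + 1) := by linarith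
      calc 8000 * ((c : ℝ) * (2 * m + 1)) ^ 4 * δ ≤ 8000 * ((c : ℝ) * (2 * ((m : ℝ) + 1))) ^ 4 * δ := by
            gcongr
        _ = 8000 * (c : ℝ) ^ 4 * 16 * ((m : ℝ) + 1) ^ 4 * δ := by ring)
  have h3 := wl_bound hF hs0 hδ0 hδ1 hcR (by
    calc 8 * (2 * r) / (1 / (c : ℝ)) = 8 * 2 / (1 / (c : ℝ)) * r := by ring
      _ ≤ δ := b6) b7 hm1 hbox K
  refine h3.trans (le_of_eq ?_)
  have e3 : 100 * (c : ℝ) / δ ^ 2 = 100 * c * Real.exp (2 * (m : ℝ) ^ g₁) := by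
    rw [hδ, ← Real.exp_nat_mul, div_eq_mul_inv, ← Real.exp_neg]
    congr 2
    push_cast
    ring
  rw [e3]

/-- the length of the blocks -/
noncomputable def ij (β : ℝ) (j : ℕ) : ℕ := ⌈(j : ℝ) ^ β⌉₊

theorem ij_ge (β : ℝ) (j : ℕ) : (j : ℝ) ^ β ≤ ij β j := Nat.le_ceil _

theorem ij_le {β : ℝ} (hβ : 0 ≤ β) {j : ℕ} (hj : 1 ≤ j) : (ij β j : ℝ) ≤ 2 * (j : ℝ) ^ β := by
  have hjR : (1 : ℝ) ≤ j := by exact_mod_cast hj
  have h1 : (1 : ℝ) ≤ (j : ℝ) ^ β := Real.one_le_rpow hjR hβ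
  have h2 : (ij β j : ℝ) < (j : ℝ) ^ β + 1 := Nat.ceil_lt_add_one (by linarith)
  linarith

theorem ij_pow {β a : ℝ} (hβ : 0 ≤ β) (ha : 0 ≤ a) {j : ℕ} (hj : 1 ≤ j) :
    (ij β j : ℝ) ^ a ≤ 2 ^ a * (j : ℝ) ^ (β * a) := by
  have hjR : (0 : ℝ) ≤ j := j.cast_nonneg
  have h1 := ij_le hβ hj
  rw [Real.rpow_mul hjR, ← Real.mul_rpow (by norm_num) (by positivity)]
  exact Real.rpow_le_rpow (Nat.cast_nonneg _) h1 ha

theorem ij_tendsto {β : ℝ} (hβ : 0 < β) : Tendsto (ij β) atTop atTop := by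
  have h1 : Tendsto (fun j : ℕ => (j : ℝ) ^ β) atTop atTop :=
    (tendsto_rpow_atTop hβ).comp tendsto_natCast_atTop_atTop
  exact tendsto_nat_ceil_atTop.comp h1

/-- The number of words of length at most `j` realised near a polygon of the class. -/
theorem count_j {g γ g₁ g₂ : ℝ} (hg : 1 ≤ g) (hγ : g / (1 + g) < γ) (h1 : g < g₁) (h2 : g₁ < g₂)
    (h3 : 1 / (1 + g) * g₁ < γ) {c : ℕ} (hc : 1 ≤ c) :
    ∀ᶠ j : ℕ in atTop, ∀ p ∈ Cls n g c,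
      ((wl (Bq p (Real.exp (-(ij (1 / (1 + g)) j : ℝ) ^ g₂))) j).ncard : ℝ) ≤
        Real.exp ((j : ℝ) ^ γ) := by
  obtain ⟨β, hβ⟩ : ∃ β, β = 1 / (1 + g) := ⟨_, rfl⟩
  rw [← hβ] at h3 ⊢
  have hg0 : 0 < 1 + g := by linarith
  have hβ0 : 0 < β := by rw [hβ]; positivity
  have hβ1 : 1 - β = g / (1 + g) := by
    rw [hβ]
    field_simp
    ring
  have hβ2 : β ≤ 1 - β := by
    rw [hβ1, hβ]
    gcongr
  have hβ3 : 1 - β < γ := by rw [hβ1]; exact hγ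
  have hγ0 : 0 < γ := by linarith
  have hcR : (1 : ℝ) ≤ c := by exact_mod_cast hc
  have hn : (0 : ℝ) ≤ n := n.cast_nonneg
  have hg1 : 0 ≤ g₁ := by linarith
  obtain ⟨ε, hε⟩ : ∃ ε, ε = (γ - (1 - β)) / 2 := ⟨_, rfl⟩
  have hε0 : 0 < ε := by rw [hε]; linarith
  have hL3 : 0 ≤ Real.log ((n : ℝ) + 3) := Real.log_nonneg (by linarith)
  obtain ⟨C₁, hC₁⟩ : ∃ C₁ : ℝ, C₁ = 2 * ((n : ℝ) + 4) * (4 * c + 11) ^ 2 := ⟨_, rfl⟩
  have hC₁1 : 1 ≤ C₁ := by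
    rw [hC₁]
    have h2 : (1 : ℝ) ≤ (4 * c + 11) ^ 2 := one_le_pow₀ (by linarith)
    nlinarith
  have hLC : 0 ≤ Real.log C₁ := Real.log_nonneg hC₁1
  have hL100 : 0 ≤ Real.log (100 * c) := Real.log_nonneg (by linarith)
  filter_upwards [(ij_tendsto hβ0).eventually (cls_count (n := n) (by linarith : 0 < g) h1 h2 hc),
    log_dom hγ0 5, const_dom hγ0 (10 * Real.log (100 * c)),
    pow_dom h3 (20 * 2 ^ g₁), const_dom hε0 (Real.log C₁ + 5), log_dom hε0 5,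
    pow_dom (show 1 - β + ε < γ by rw [hε]; linarith) 10,
    pow_dom (show β < γ by linarith) (10 * Real.log ((n : ℝ) + 3)),
    eventually_ge_atTop 1] with j a1 a2 a3 a4 a5 a6 a7 a8 a9 p hp
  have hjR : (1 : ℝ) ≤ j := by exact_mod_cast a9
  have hj0 : (0 : ℝ) < j := by linarith
  have hcount := a1 p hp j
  obtain ⟨m, hm⟩ : ∃ m, m = ij β j := ⟨_, rfl⟩
  rw [← hm] at hcount ⊢
  rw [← hC₁] at hcount
  have hmge : (j : ℝ) ^ β ≤ m := by rw [hm]; exact ij_ge β j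
  have hmle : (m : ℝ) ≤ 2 * (j : ℝ) ^ β := by rw [hm]; exact ij_le hβ0.le a9
  have hjβ1 : (1 : ℝ) ≤ (j : ℝ) ^ β := Real.one_le_rpow hjR hβ0.le
  have hm1 : (1 : ℝ) ≤ m := hjβ1.trans hmge
  have hmpow : (m : ℝ) ^ g₁ ≤ 2 ^ g₁ * (j : ℝ) ^ (β * g₁) := by rw [hm]; exact ij_pow hβ0.le hg1 a9
  refine hcount.trans ?_
  -- the factors
  have t1 : (j : ℝ) + 1 ≤ Real.exp ((j : ℝ) ^ γ / 5) := by
    rw [← Real.log_le_iff_le_exp (by linarith)]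
    linarith
  have t2 : 100 * (c : ℝ) * Real.exp (2 * (m : ℝ) ^ g₁) ≤ Real.exp ((j : ℝ) ^ γ / 5) := by
    have e : 100 * (c : ℝ) = Real.exp (Real.log (100 * c)) := (Real.exp_log (by linarith)).symm
    rw [e, ← Real.exp_add]
    apply Real.exp_le_exp.2
    have e2 : 2 * (m : ℝ) ^ g₁ ≤ (j : ℝ) ^ γ / 10 := by
      have : 20 * (m : ℝ) ^ g₁ ≤ (j : ℝ) ^ γ := by
        calc 20 * (m : ℝ) ^ g₁ ≤ 20 * (2 ^ g₁ * (j : ℝ) ^ (β * g₁)) := by gcongr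
          _ = 20 * 2 ^ g₁ * (j : ℝ) ^ (β * g₁) := by ring
          _ ≤ _ := a4
      linarith
    linarith
  have t3 : (C₁ * ((m : ℝ) + 1) ^ 5) ^ (j / m) ≤ Real.exp ((j : ℝ) ^ γ / 5) := by
    have e1 : C₁ * ((m : ℝ) + 1) ^ 5 ≤ Real.exp (2 * (j : ℝ) ^ ε) := by
      have e2 : C₁ * ((m : ℝ) + 1) ^ 5 =
          Real.exp (Real.log C₁ + (5 : ℕ) * Real.log ((m : ℝ) + 1)) := by
        rw [Real.exp_add, Real.exp_nat_mul, Real.exp_log (by linarith), Real.exp_log (by linarith)]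
      rw [e2]
      apply Real.exp_le_exp.2
      have e3 : Real.log ((m : ℝ) + 1) ≤ 1 + Real.log ((j : ℝ) + 1) := by
        have g1 : (m : ℝ) + 1 ≤ 2 * ((j : ℝ) + 1) := by
          have g2 : (j : ℝ) ^ β ≤ (j : ℝ) ^ (1 : ℝ) :=
            Real.rpow_le_rpow_of_exponent_le hjR (by linarith)
          rw [Real.rpow_one] at g2
          linarith
        have g3 : Real.log ((m : ℝ) + 1) ≤ Real.log (2 * ((j : ℝ) + 1)) :=
          Real.log_le_log (by linarith) g1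
        rw [Real.log_mul (by norm_num) (by linarith)] at g3
        have := Real.log_two_lt_d9
        linarith
      push_cast
      linarith
    calc (C₁ * ((m : ℝ) + 1) ^ 5) ^ (j / m) ≤ (Real.exp (2 * (j : ℝ) ^ ε)) ^ (j / m) := by
          gcongr
      _ = Real.exp (((j / m : ℕ) : ℝ) * (2 * (j : ℝ) ^ ε)) := by rw [← Real.exp_nat_mul]
      _ ≤ Real.exp ((j : ℝ) ^ γ / 5) := by
        apply Real.exp_le_exp.2
        have g1 : ((j / m : ℕ) : ℝ) ≤ (j : ℝ) ^ (1 - β) := by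
          have g2 : ((j / m : ℕ) : ℝ) ≤ (j : ℝ) / m := Nat.cast_div_le
          refine g2.trans ?_
          rw [div_le_iff₀ (by linarith)]
          calc (j : ℝ) = (j : ℝ) ^ (1 - β) * (j : ℝ) ^ β := by
                rw [← Real.rpow_add hj0]
                simp
            _ ≤ (j : ℝ) ^ (1 - β) * m := by gcongr
        have g3 : ((j / m : ℕ) : ℝ) * (2 * (j : ℝ) ^ ε) ≤ 2 * (j : ℝ) ^ (1 - β + ε) := by
          rw [Real.rpow_add hj0]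
          calc ((j / m : ℕ) : ℝ) * (2 * (j : ℝ) ^ ε) ≤ (j : ℝ) ^ (1 - β) * (2 * (j : ℝ) ^ ε) := by
                gcongr
            _ = _ := by ring
        linarith
  have t4 : ((n : ℝ) + 3) ^ m ≤ Real.exp ((j : ℝ) ^ γ / 5) := by
    have e1 : ((n : ℝ) + 3) ^ m = Real.exp (m * Real.log ((n : ℝ) + 3)) := by
      rw [Real.exp_nat_mul, Real.exp_log (by linarith)]
    rw [e1]
    apply Real.exp_le_exp.2
    have e2 : (m : ℝ) * Real.log ((n : ℝ) + 3) ≤ 2 * (j : ℝ) ^ β * Real.log ((n : ℝ) + 3) := by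
      gcongr
    linarith
  have hpos : 0 ≤ (j : ℝ) ^ γ := by positivity
  calc ((j : ℝ) + 1) * (100 * c * Real.exp (2 * (m : ℝ) ^ g₁) *
      (C₁ * ((m : ℝ) + 1) ^ 5) ^ (j / m) * ((n : ℝ) + 3) ^ m)
      ≤ Real.exp ((j : ℝ) ^ γ / 5) * (Real.exp ((j : ℝ) ^ γ / 5) * Real.exp ((j : ℝ) ^ γ / 5) *
        Real.exp ((j : ℝ) ^ γ / 5)) := by gcongr
    _ = Real.exp (4 * ((j : ℝ) ^ γ / 5)) := by
        rw [← Real.exp_add, ← Real.exp_add, ← Real.exp_add]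
        congr 1
        ring
    _ ≤ _ := by
        apply Real.exp_le_exp.2
        linarith

end Pool.Agent.L5helper80.GR
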