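import Pool.Agent.L5helper80.GR.Asy

set_option autoImplicit false

/-!
The bootstrapping step.
-/

namespace Pool.Agent.L5helper80.GR

open Complex Set MeasureTheory Filter Topology Pool.Agent.W780.PG Pool.Agent.W780.BB
  Pool.Agent.TH225.BL Pool.Agent.K3h17.BK Pool.Agent.K3h17.BT

open scoped Real ComplexConjugate

variable {n : ℕ}

/-- The cell of a polygon. -/
noncomputable def key (r : ℝ) (p : Fin (n + 3) → ℂ) : Fin (n + 3) → ℤ × ℤ :=
  fun k => (⌊(p k).re / r⌋, ⌊(p k).im / r⌋)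

theorem key_near {r : ℝ} (hr : 0 < r) {p p' : Fin (n + 3) → ℂ} (h : key r p = key r p')
    (k : Fin (n + 3)) : ‖p k - p' k‖ ≤ 2 * r := by
  have h1 := congrFun h k
  unfold key at h1
  simp only [Prod.mk.injEq] at h1
  obtain ⟨h2, h3⟩ := h1
  have aux : ∀ x y : ℝ, ⌊x / r⌋ = ⌊y / r⌋ → |x - y| ≤ r := by
    intro x y hxy
    have := Int.abs_sub_lt_one_of_floor_eq_floor hxy
    rw [← sub_div, abs_div, abs_of_pos hr, div_lt_one hr] at this
    exact this.le
  refine (Complex.norm_le_abs_re_add_abs_im _).trans ?_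
  rw [Complex.sub_re, Complex.sub_im]
  linarith [aux _ _ h2, aux _ _ h3]

/-- The cells which are used. -/
noncomputable def cells (n M : ℕ) : Finset (Fin (n + 3) → ℤ × ℤ) :=
  Fintype.piFinset fun _ => Finset.Icc (-(M : ℤ)) M ×ˢ Finset.Icc (-(M : ℤ)) M

theorem card_cells (n M : ℕ) : (cells n M).card = ((2 * M + 1) * (2 * M + 1)) ^ (n + 3) := by
  unfold cells
  rw [Fintype.card_piFinset]
  simp only [Finset.card_product, Int.card_Icc, Finset.prod_const, Finset.card_univ,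
    Fintype.card_fin]
  have : ((M : ℤ) + 1 - -(M : ℤ)).toNat = 2 * M + 1 := by omega
  rw [this]

theorem key_mem {r R : ℝ} (hr : 0 < r) {M : ℕ} (hM : R / r + 1 ≤ M) {p : Fin (n + 3) → ℂ}
    (hp : ∀ k, ‖p k‖ ≤ R) : key r p ∈ cells n M := by
  have aux : ∀ x : ℝ, |x| ≤ R → ⌊x / r⌋ ∈ Finset.Icc (-(M : ℤ)) M := by
    intro x hx
    rw [abs_le] at hx
    have h1 : x / r ≤ R / r := by gcongr; exact hx.2
    have h2 : -(R / r) ≤ x / r := by
      rw [← neg_div]
      gcongr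
      exact hx.1
    rw [Finset.mem_Icc]
    constructor
    · rw [Int.le_floor]
      push_cast
      linarith
    · have h3 : (⌊x / r⌋ : ℝ) ≤ x / r := Int.floor_le _
      have h4 : (⌊x / r⌋ : ℝ) ≤ ((M : ℤ) : ℝ) := by
        push_cast
        linarith
      exact_mod_cast h4
  unfold cells
  rw [Fintype.mem_piFinset]
  intro k
  rw [Finset.mem_product]
  exact ⟨aux _ ((Complex.abs_re_le_norm _).trans (hp k)),
    aux _ ((Complex.abs_im_le_norm _).trans (hp k))⟩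

open Classical in
/-- A representative of the cell in the class. -/
noncomputable def rep (C : Set (Fin (n + 3) → ℂ)) (r : ℝ) (z : Fin (n + 3) → ℤ × ℤ) :
    Fin (n + 3) → ℂ :=
  if h : ∃ p ∈ C, key r p = z then h.choose else fun _ => 0

theorem rep_spec {C : Set (Fin (n + 3) → ℂ)} {r : ℝ} {z : Fin (n + 3) → ℤ × ℤ}
    (h : ∃ p ∈ C, key r p = z) : rep C r z ∈ C ∧ key r (rep C r z) = z := by
  unfold rep
  rw [dif_pos h]
  exact h.choose_spec

/-- The words of the cell. -/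
noncomputable def Wz (C : Set (Fin (n + 3) → ℂ)) (r : ℝ) (j : ℕ) (z : Fin (n + 3) → ℤ × ℤ) :
    Finset (List (Fin (n + 3))) := (wl_finite (Bq (rep C (r / 4) z) r) j).toFinset

open Classical in
/-- The indices which are used. -/
noncomputable def TT (C : Set (Fin (n + 3) → ℂ)) (r : ℝ) (M j : ℕ) : Finset (Idx n) :=
  ((cells n M).filter fun z => ∃ p ∈ C, key (r / 4) p = z).biUnion fun z =>
    (Wz C r j z ×ˢ Wz C r j z ×ˢ Wz C r j z) ×ˢ
      (Finset.univ : Finset (Fin (n + 3) × Fin (n + 3) × Fin (n + 3))) ×ˢ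
      (Finset.univ : Finset Bool)

theorem TT_sub (C : Set (Fin (n + 3) → ℂ)) (r : ℝ) (M j : ℕ) : TT C r M j ⊆ Im n j := by
  classical
  intro t ht
  unfold TT at ht
  rw [Finset.mem_biUnion] at ht
  obtain ⟨z, -, ht⟩ := ht
  unfold Im
  rw [Finset.mem_product, Finset.mem_product, Finset.mem_product] at ht ⊢
  have h : ∀ u ∈ Wz C r j z, u ∈ Wm n j := by
    intro u hu
    unfold Wz at hu
    rw [Set.Finite.mem_toFinset] at hu
    exact mem_Wm.2 hu.1
  exact ⟨⟨h _ ht.1.1, h _ ht.1.2.1, h _ ht.1.2.2⟩ , ht.2⟩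

theorem TT_card {C : Set (Fin (n + 3) → ℂ)} {r A : ℝ} {M j : ℕ} (hA0 : 0 ≤ A)
    (hA : ∀ p ∈ C, ((wl (Bq p r) j).ncard : ℝ) ≤ A) :
    ((TT C r M j).card : ℝ) ≤ (cells n M).card * (A ^ 3 * (2 * ((n : ℝ) + 3) ^ 3)) := by
  classical
  unfold TT
  have h1 : ∀ z ∈ ((cells n M).filter fun z => ∃ p ∈ C, key (r / 4) p = z),
      (((Wz C r j z ×ˢ Wz C r j z ×ˢ Wz C r j z) ×ˢ
      (Finset.univ : Finset (Fin (n + 3) × Fin (n + 3) × Fin (n + 3))) ×ˢ
      (Finset.univ : Finset Bool)).card : ℝ) ≤ A ^ 3 * (2 * ((n : ℝ) + 3) ^ 3) := by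
    intro z hz
    rw [Finset.mem_filter] at hz
    have h2 : ((Wz C r j z).card : ℝ) ≤ A := by
      unfold Wz
      rw [← Set.ncard_eq_toFinset_card _ (wl_finite _ _)]
      exact hA _ (rep_spec hz.2).1
    have h0 : (0 : ℝ) ≤ (Wz C r j z).card := Nat.cast_nonneg _
    rw [Finset.card_product, Finset.card_product, Finset.card_product, Finset.card_product,
      Finset.card_univ, Finset.card_univ, Fintype.card_bool, Fintype.card_prod, Fintype.card_prod,
      Fintype.card_fin]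
    push_cast
    calc ((Wz C r j z).card : ℝ) * ((Wz C r j z).card * (Wz C r j z).card) *
        (((n : ℝ) + 3) * (((n : ℝ) + 3) * (n + 3)) * 2)
        = ((Wz C r j z).card : ℝ) ^ 3 * (2 * ((n : ℝ) + 3) ^ 3) := by ring
      _ ≤ A ^ 3 * (2 * ((n : ℝ) + 3) ^ 3) := by gcongr
  calc ((((cells n M).filter fun z => ∃ p ∈ C, key (r / 4) p = z).biUnion fun z =>
      (Wz C r j z ×ˢ Wz C r j z ×ˢ Wz C r j z) ×ˢ
      (Finset.univ : Finset (Fin (n + 3) × Fin (n + 3) × Fin (n + 3))) ×ˢ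
      (Finset.univ : Finset Bool)).card : ℝ)
      ≤ ∑ z ∈ ((cells n M).filter fun z => ∃ p ∈ C, key (r / 4) p = z),
        (((Wz C r j z ×ˢ Wz C r j z ×ˢ Wz C r j z) ×ˢ
      (Finset.univ : Finset (Fin (n + 3) × Fin (n + 3) × Fin (n + 3))) ×ˢ
      (Finset.univ : Finset Bool)).card : ℝ) := by
        exact_mod_cast Finset.card_biUnion_le
    _ ≤ ((cells n M).filter fun z => ∃ p ∈ C, key (r / 4) p = z).card •
        (A ^ 3 * (2 * ((n : ℝ) + 3) ^ 3)) := Finset.sum_le_card_nsmul _ _ _ h1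
    _ ≤ (cells n M).card * (A ^ 3 * (2 * ((n : ℝ) + 3) ^ 3)) := by
        rw [nsmul_eq_mul]
        apply mul_le_mul_of_nonneg_right _ (by positivity)
        exact_mod_cast Finset.card_filter_le _ _

theorem TT_mem {C : Set (Fin (n + 3) → ℂ)} {r R η : ℝ} {M j : ℕ} (hr : 0 < r)
    (hM : R / (r / 4) + 1 ≤ M) {p : Fin (n + 3) → ℂ} (hp : p ∈ C) (hR : ∀ k, ‖p k‖ ≤ R)
    (hη : η ≤ r / 2) {u v w : List (Fin (n + 3))} (hu : u ∈ wl (Bq p η) j)
    (hv : v ∈ wl (Bq p η) j) (hw : w ∈ wl (Bq p η) j) (a b c : Fin (n + 3)) (e : Bool) :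
    (((u, v, w), (a, b, c), e) : Idx n) ∈ TT C r M j := by
  classical
  have hr4 : 0 < r / 4 := by positivity
  have hz : ∃ p' ∈ C, key (r / 4) p' = key (r / 4) p := ⟨p, hp, rfl⟩
  obtain ⟨-, h1⟩ := rep_spec hz
  have h2 : Bq p η ⊆ Bq (rep C (r / 4) (key (r / 4) p)) r := by
    rintro q ⟨h3, h4⟩
    refine ⟨h3, fun k => ?_⟩
    have h5 := key_near hr4 h1 k
    have e1 : q k - rep C (r / 4) (key (r / 4) p) k =
        (q k - p k) - (rep C (r / 4) (key (r / 4) p) k - p k) := by ring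
    rw [e1]
    exact (norm_sub_le _ _).trans (by linarith [h4 k])
  have h3 : ∀ u ∈ wl (Bq p η) j, u ∈ Wz C r j (key (r / 4) p) := by
    intro u hu
    unfold Wz
    rw [Set.Finite.mem_toFinset]
    exact wl_mono h2 j hu
  unfold TT
  rw [Finset.mem_biUnion]
  refine ⟨key (r / 4) p, ?_, ?_⟩
  · rw [Finset.mem_filter]
    exact ⟨key_mem hr4 hM hR, hz⟩
  · rw [Finset.mem_product, Finset.mem_product, Finset.mem_product]
    exact ⟨⟨h3 u hu, h3 v hv, h3 w hw⟩,
      Finset.mem_product.2 ⟨Finset.mem_univ _, Finset.mem_univ _⟩⟩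

end Pool.Agent.L5helper80.GR
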