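import Pool.Agent.L5helper80.GR.Mul
import Pool.Agent.K3h17.BT.Geo

set_option autoImplicit false

/-!
Small squares of lines have adapted lines for small families of polygons.
-/

namespace Pool.Agent.L5helper80.GR

open Complex Set MeasureTheory Filter Topology Pool.Agent.W780.PG Pool.Agent.W780.BB
  Pool.Agent.TH225.BL Pool.Agent.K3h17.BK Pool.Agent.K3h17.BT

open scoped Real ComplexConjugate

variable {n : ℕ}

theorem ph_lip (x : ℝ × ℝ) (a b : ℂ) : |ph x a - ph x b| ≤ ‖a - b‖ := by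
  have e : ph x a - ph x b = (conj (dir x.1) * (a - b)).im := by
    unfold ph
    rw [mul_sub, Complex.sub_im]
    ring
  rw [e]
  exact abs_im_le x.1 _

theorem tt_lip (x x' : ℝ × ℝ) (z z' : ℂ) :
    |tt x z - tt x' z'| ≤ |x.1 - x'.1| * ‖z‖ + ‖z - z'‖ := by
  have e : tt x z - tt x' z' = ((conj (dir x.1 - dir x'.1)) * z).re +
      (conj (dir x'.1) * (z - z')).re := by
    unfold tt
    rw [map_sub, sub_mul, mul_sub, Complex.sub_re, Complex.sub_re]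
    ring
  rw [e]
  refine (abs_add_le _ _).trans (add_le_add ?_ ?_)
  · refine (Complex.abs_re_le_norm _).trans ?_
    rw [norm_mul, RCLike.norm_conj]
    exact mul_le_mul_of_nonneg_right (dir_diff _ _) (norm_nonneg _)
  · refine (Complex.abs_re_le_norm _).trans ?_
    rw [norm_mul, RCLike.norm_conj, Pool.Agent.W74.BB.norm_dir, one_mul]

theorem pos_of_near {A A' : ℝ} (h : |A - A'| < |A|) : 0 < A * A' := by
  have h0 : 0 < |A| := lt_of_le_of_lt (abs_nonneg _) h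
  have h1 : A * (A - A') ≤ |A| * |A - A'| := by
    rw [← abs_mul]
    exact le_abs_self _
  have h2 : |A| * |A - A'| < |A| * |A| := by gcongr
  have h3 : |A| * |A| = A * A := abs_mul_abs_self A
  nlinarith

/-- The order along the lines does not depend on the polygon. -/
theorem order_const {Q : Set (Fin (n + 3) → ℂ)} {m : ℕ} {η ρ δ δ' : ℝ} (hη : 0 < η)
    (hnorm : ∀ σ ∈ SV Q m, ∀ p ∈ Q, ‖vt p σ‖ ≤ ρ)
    (hcl : ∀ σ ∈ SV Q m, ∀ p ∈ Q, ∀ p' ∈ Q, ‖vt p σ - vt p' σ‖ ≤ δ)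
    (hpair : ∀ σ ∈ SV Q m, ∀ τ ∈ SV Q m, (∀ p ∈ Q, vt p σ = vt p τ) ∨
      (∀ p ∈ Q, η ≤ ‖vt p σ - vt p τ‖))
    (x₁ : ℝ × ℝ) (x₀ : (Fin (n + 3) → ℂ) → ℝ × ℝ) (hx₀ : ∀ p ∈ Q, |(x₀ p).1 - x₁.1| ≤ δ')
    (hsm : 4 * δ' * ρ + 2 * δ < 2 * η) :
    ∀ σ ∈ SV Q m, ∀ τ ∈ SV Q m, (∀ p ∈ Q, ph (x₀ p) (vt p σ) = 0) →
    (∀ p ∈ Q, ph (x₀ p) (vt p τ) = 0) → ∀ p ∈ Q, ∀ p' ∈ Q,
      tt (x₀ p) (vt p σ) < tt (x₀ p) (vt p τ) → tt (x₀ p') (vt p' σ) < tt (x₀ p') (vt p' τ) := by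
  intro σ hσ τ hτ h1 h2 p hp p' hp' hlt
  rcases hpair σ hσ τ hτ with h | h
  · rw [h p hp] at hlt
    exact absurd hlt (lt_irrefl _)
  have hd : ∀ q ∈ Q, |tt (x₀ q) (vt q τ) - tt (x₀ q) (vt q σ)| = ‖vt q σ - vt q τ‖ := by
    intro q hq
    have h3 := on_line (h1 q hq) (h2 q hq)
    have h4 : vt q τ - vt q σ = (tt (x₀ q) (vt q τ) - tt (x₀ q) (vt q σ)) • dir (x₀ q).1 :=
      sub_eq_iff_eq_add'.2 h3
    rw [norm_sub_rev, h4, norm_smul, Pool.Agent.W74.BB.norm_dir, mul_one, Real.norm_eq_abs]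
  have hδ' : 0 ≤ δ' := (abs_nonneg _).trans (hx₀ p hp)
  have hdiff : ∀ ν ∈ SV Q m, |tt (x₀ p) (vt p ν) - tt (x₀ p') (vt p' ν)| ≤ 2 * δ' * ρ + δ := by
    intro ν hν
    refine (tt_lip _ _ _ _).trans (add_le_add ?_ (hcl ν hν p hp p' hp'))
    have e1 : |(x₀ p).1 - (x₀ p').1| ≤ 2 * δ' := by
      have g1 := hx₀ p hp
      have g2 := hx₀ p' hp'
      rw [abs_le] at g1 g2 ⊢
      constructor <;> linarith [g1.1, g1.2, g2.1, g2.2]
    exact mul_le_mul e1 (hnorm ν hν p hp) (norm_nonneg _) (by positivity)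
  have a1 := hdiff σ hσ
  have a2 := hdiff τ hτ
  by_contra hcon
  push Not at hcon
  have b1 := hd p hp
  have b2 := hd p' hp'
  have b3 := h p hp
  have b4 := h p' hp'
  rw [abs_of_pos (by linarith)] at b1
  rw [abs_of_nonpos (by linarith)] at b2
  rw [abs_le] at a1 a2
  linarith [a1.1, a1.2, a2.1, a2.2]

/-- The geometric lemma for families. -/
theorem fbox {Q : Set (Fin (n + 3) → ℂ)} {m : ℕ} {η ρ δ : ℝ} (hη : 0 < η) (hη1 : η ≤ 1)
    (hρ : 1 ≤ ρ) (hδ : 0 < δ) (hsm : 1000 * ρ ^ 4 * δ ≤ η ^ 2)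
    (hnorm : ∀ σ ∈ SV Q m, ∀ p ∈ Q, ‖vt p σ‖ ≤ ρ)
    (hcl : ∀ σ ∈ SV Q m, ∀ p ∈ Q, ∀ p' ∈ Q, ‖vt p σ - vt p' σ‖ ≤ δ)
    (hpair : ∀ σ ∈ SV Q m, ∀ τ ∈ SV Q m, (∀ p ∈ Q, vt p σ = vt p τ) ∨
      (∀ p ∈ Q, η ≤ ‖vt p σ - vt p τ‖))
    (htri : ∀ σ ∈ SV Q m, ∀ τ ∈ SV Q m, ∀ ν ∈ SV Q m,
      (∀ p ∈ Q, lft (vt p σ) (vt p τ) (vt p ν) = 0) ∨
      (∀ p ∈ Q, η ≤ |lft (vt p σ) (vt p τ) (vt p ν)|))
    (x₁ : ℝ × ℝ) : ∃ x₀, Adapted Q m (sq x₁ δ) x₀ := by
  -- the variation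
  have hρδ : δ ≤ ρ * δ := by nlinarith
  have hρ0 : 0 < ρ := by linarith
  have hρδ0 : 0 < ρ * δ := by positivity
  have hvar : ∀ σ ∈ SV Q m, ∀ p ∈ Q, ∀ p' ∈ Q, ∀ x ∈ sq x₁ δ,
      |ph x₁ (vt p σ) - ph x (vt p' σ)| ≤ 3 * (ρ * δ) := by
    intro σ hσ p hp p' hp' x hx
    have h1 := ph_sq hx (hnorm σ hσ p' hp')
    have h2 := ph_lip x₁ (vt p σ) (vt p' σ)
    have h3 := hcl σ hσ p hp p' hp'
    have e : ph x₁ (vt p σ) - ph x (vt p' σ) = (ph x₁ (vt p σ) - ph x₁ (vt p' σ)) -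
        (ph x (vt p' σ) - ph x₁ (vt p' σ)) := by ring
    rw [e]
    refine (abs_sub _ _).trans ?_
    have h4 : δ * (ρ + 1) = ρ * δ + δ := by ring
    linarith
  have hx₁ : x₁ ∈ sq x₁ δ := ⟨⟨by linarith, by linarith⟩, by linarith, by linarith⟩
  have hρ4 : ρ ≤ ρ ^ 4 := by
    have : (1 : ℝ) ≤ ρ ^ 3 := one_le_pow₀ hρ
    nlinarith
  have hη2 : η ^ 2 ≤ η := by nlinarith
  have hsm1 : 1000 * (ρ * δ) ≤ η := by
    have : 1000 * (ρ * δ) ≤ 1000 * ρ ^ 4 * δ := by nlinarith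
    linarith
  by_cases hA : ∃ σ ∈ SV Q m, ∃ τ ∈ SV Q m, ¬ (∀ p ∈ Q, vt p σ = vt p τ) ∧
      (∃ p ∈ Q, |ph x₁ (vt p σ)| ≤ 18 * (ρ * δ)) ∧ ∃ p ∈ Q, |ph x₁ (vt p τ)| ≤ 18 * (ρ * δ)
  · -- two different vertices
    have hnear : ∀ σ ∈ SV Q m, (∃ p ∈ Q, |ph x₁ (vt p σ)| ≤ 18 * (ρ * δ)) →
        ∀ p ∈ Q, |ph x₁ (vt p σ)| ≤ 21 * (ρ * δ) := by
      rintro σ hσ ⟨p, hp, h⟩ p' hp'
      have h1 := hvar σ hσ p' hp' p hp x₁ hx₁
      have h2 := abs_sub_abs_le_abs_sub (ph x₁ (vt p' σ)) (ph x₁ (vt p σ))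
      linarith
    -- choose the order
    have hexab : ∃ σ ∈ SV Q m, ∃ τ ∈ SV Q m, (∀ p ∈ Q, η ≤ ‖vt p σ - vt p τ‖) ∧
        (∀ p ∈ Q, |ph x₁ (vt p σ)| ≤ 21 * (ρ * δ)) ∧ (∀ p ∈ Q, |ph x₁ (vt p τ)| ≤ 21 * (ρ * δ)) ∧
        ∀ p ∈ Q, 0 < (conj (dir x₁.1) * (vt p τ - vt p σ)).re := by
      obtain ⟨σ, hσ, τ, hτ, hne, h1, h2⟩ := hA
      have h3 := (hpair σ hσ τ hτ).resolve_left hne
      have h4 := hnear σ hσ h1
      have h5 := hnear τ hτ h2
      obtain ⟨r, hr⟩ : ∃ r : (Fin (n + 3) → ℂ) → ℝ,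
        r = fun p => (conj (dir x₁.1) * (vt p τ - vt p σ)).re := ⟨_, rfl⟩
      have hbig : ∀ p ∈ Q, η - 42 * (ρ * δ) ≤ |r p| := by
        intro p hp
        have g1 : ‖conj (dir x₁.1) * (vt p τ - vt p σ)‖ = ‖vt p σ - vt p τ‖ := by
          rw [norm_mul, RCLike.norm_conj, Pool.Agent.W74.BB.norm_dir, one_mul, norm_sub_rev]
        have g2 : ‖conj (dir x₁.1) * (vt p τ - vt p σ)‖ ≤
            |(conj (dir x₁.1) * (vt p τ - vt p σ)).re| +
            |(conj (dir x₁.1) * (vt p τ - vt p σ)).im| := Complex.norm_le_abs_re_add_abs_im _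
        have g3 : (conj (dir x₁.1) * (vt p τ - vt p σ)).im =
            ph x₁ (vt p τ) - ph x₁ (vt p σ) := by
          rw [mul_sub, Complex.sub_im]
          unfold ph
          ring
        have g4 := h3 p hp
        rw [g1, g3] at g2
        have g5 := abs_sub (ph x₁ (vt p τ)) (ph x₁ (vt p σ))
        have g6 := h4 p hp
        have g7 := h5 p hp
        rw [hr]
        simp only []
        linarith
      have hrvar : ∀ p ∈ Q, ∀ p' ∈ Q, |r p - r p'| ≤ 2 * δ := by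
        intro p hp p' hp'
        have e : r p - r p' = (conj (dir x₁.1) * ((vt p τ - vt p' τ) - (vt p σ - vt p' σ))).re := by
          rw [hr]
          simp only []
          rw [← Complex.sub_re]
          congr 1
          ring
        rw [e]
        refine (Complex.abs_re_le_norm _).trans ?_
        rw [norm_mul, RCLike.norm_conj, Pool.Agent.W74.BB.norm_dir, one_mul]
        refine (norm_sub_le _ _).trans ?_
        have g1 := hcl τ hτ p hp p' hp'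
        have g2 := hcl σ hσ p hp p' hp'
        linarith
      by_cases hQe : ∃ p ∈ Q, 0 < r p
      · obtain ⟨p₁, hp₁, h6⟩ := hQe
        refine ⟨σ, hσ, τ, hτ, h3, h4, h5, fun p hp => ?_⟩
        have g1 := hbig p hp
        have g2 := hbig p₁ hp₁
        have g3 := hrvar p hp p₁ hp₁
        rw [abs_of_pos h6] at g2
        have g4 : 0 < r p := by
          rw [abs_le] at g3
          linarith [g3.1]
        rw [hr] at g4
        exact g4
      · push Not at hQe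
        refine ⟨τ, hτ, σ, hσ, fun p hp => ?_, h5, h4, fun p hp => ?_⟩
        · rw [norm_sub_rev]
          exact h3 p hp
        · have g1 := hbig p hp
          have g2 := hQe p hp
          rw [abs_of_nonpos g2] at g1
          have e : (conj (dir x₁.1) * (vt p σ - vt p τ)).re = - r p := by
            rw [hr]
            simp only []
            rw [← Complex.neg_re]
            congr 1
            ring
          rw [e]
          linarith
    obtain ⟨σ, hσ, τ, hτ, h1, h2, h3, h4⟩ := hexab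
    have hline : ∀ p ∈ Q, ∃ x : ℝ × ℝ, x ∈ sq x₁ (4 * (21 * (ρ * δ)) * ρ / η + 21 * (ρ * δ)) ∧
        ph x (vt p σ) = 0 ∧
        ∀ c, lft (vt p σ) (vt p τ) c = ‖vt p τ - vt p σ‖ * ph x c := fun p hp =>
      line_through hη hρ (h2 p hp) (h3 p hp) (hnorm σ hσ p hp) (h1 p hp) (h4 p hp)
    choose! x₀ hx1 hx2 hx3 using hline
    obtain ⟨δ', hδ'⟩ : ∃ δ', δ' = 4 * (21 * (ρ * δ)) * ρ / η + 21 * (ρ * δ) := ⟨_, rfl⟩
    rw [← hδ'] at hx1
    have hδ'1 : δ' ≤ 105 * (ρ ^ 2 * δ) / η := by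
      rw [hδ', le_div_iff₀ hη, add_mul, div_mul_cancel₀ _ hη.ne']
      have : 21 * (ρ * δ) * η ≤ 21 * (ρ * δ) * ρ := by
        apply mul_le_mul_of_nonneg_left _ (by positivity)
        linarith
      nlinarith
    have hδ'η : δ' * η ≤ 105 * (ρ ^ 2 * δ) := by
      rw [le_div_iff₀ hη] at hδ'1
      exact hδ'1
    have hδ'0 : 0 ≤ δ' := by rw [hδ']; positivity
    refine ⟨x₀, ⟨fun ν hν => ?_, ?_⟩⟩
    · rcases htri σ hσ τ hτ ν hν with h | h
      · left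
        intro p hp
        have h5 := h p hp
        rw [hx3 p hp] at h5
        have h6 : 0 < ‖vt p τ - vt p σ‖ := by
          rw [norm_sub_rev]
          exact lt_of_lt_of_le hη (h1 p hp)
        exact (mul_eq_zero.1 h5).resolve_left h6.ne'
      · right
        intro p hp p' hp' x hx
        apply pos_of_near
        have h5 := h p hp
        rw [hx3 p hp, abs_mul, abs_of_nonneg (norm_nonneg _)] at h5
        have h6 : ‖vt p τ - vt p σ‖ ≤ 2 * ρ := by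
          refine (norm_sub_le _ _).trans ?_
          linarith [hnorm σ hσ p hp, hnorm τ hτ p hp]
        have h7 : η ≤ 2 * ρ * |ph (x₀ p) (vt p ν)| := h5.trans
          (mul_le_mul_of_nonneg_right h6 (abs_nonneg _))
        have h8 : |ph (x₀ p) (vt p ν) - ph x (vt p' ν)| ≤ δ' * (ρ + 1) + 3 * (ρ * δ) := by
          have g1 := ph_sq (hx1 p hp) (hnorm ν hν p hp)
          have g2 := hvar ν hν p hp p' hp' x hx
          have e : ph (x₀ p) (vt p ν) - ph x (vt p' ν) =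
              (ph (x₀ p) (vt p ν) - ph x₁ (vt p ν)) + (ph x₁ (vt p ν) - ph x (vt p' ν)) := by ring
          rw [e]
          exact (abs_add_le _ _).trans (add_le_add g1 g2)
        have h9 : (δ' * (ρ + 1) + 3 * (ρ * δ)) * (2 * ρ * η) < η * η := by
          have e1 : (δ' * (ρ + 1)) * (2 * ρ * η) ≤ 105 * (ρ ^ 2 * δ) * ((2 * ρ) * (2 * ρ)) := by
            calc (δ' * (ρ + 1)) * (2 * ρ * η) = (δ' * η) * ((ρ + 1) * (2 * ρ)) := by ring
              _ ≤ 105 * (ρ ^ 2 * δ) * ((2 * ρ) * (2 * ρ)) := by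
                apply mul_le_mul hδ'η _ (by positivity) (by positivity)
                apply mul_le_mul_of_nonneg_right _ (by positivity)
                linarith
          have e2 : 3 * (ρ * δ) * (2 * ρ * η) ≤ 6 * (ρ ^ 4 * δ) := by
            have g1 : ρ ^ 2 ≤ ρ ^ 4 := pow_le_pow_right₀ hρ (by norm_num)
            calc 3 * (ρ * δ) * (2 * ρ * η) = 6 * (ρ ^ 2 * δ) * η := by ring
              _ ≤ 6 * (ρ ^ 4 * δ) * 1 := by gcongr
              _ = 6 * (ρ ^ 4 * δ) := by ring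
          have e3 : 0 < ρ ^ 4 * δ := by positivity
          nlinarith
        have h10 : (δ' * (ρ + 1) + 3 * (ρ * δ)) * (2 * ρ) < η := by
          have : ((δ' * (ρ + 1) + 3 * (ρ * δ)) * (2 * ρ)) * η < η * η := by
            calc _ = (δ' * (ρ + 1) + 3 * (ρ * δ)) * (2 * ρ * η) := by ring
              _ < _ := h9
          exact lt_of_mul_lt_mul_right this hη.le
        have h11 : (δ' * (ρ + 1) + 3 * (ρ * δ)) * (2 * ρ) < |ph (x₀ p) (vt p ν)| * (2 * ρ) := by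
          linarith
        exact lt_of_le_of_lt h8 (lt_of_mul_lt_mul_right h11 (by positivity))
    · refine order_const (η := η) (δ := δ) (δ' := δ') hη hnorm hcl hpair x₁ x₀ (fun p hp => ?_) ?_
      · obtain ⟨⟨g1, g2⟩, -⟩ := hx1 p hp
        rw [abs_le]
        constructor <;> linarith
      · have e1 : (4 * δ' * ρ + 2 * δ) * η < 2 * η * η := by
          have e2 : 4 * δ' * ρ * η ≤ 420 * (ρ ^ 4 * δ) := by
            calc 4 * δ' * ρ * η = 4 * ρ * (δ' * η) := by ring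
              _ ≤ 4 * ρ * (105 * (ρ ^ 2 * δ)) := by gcongr
              _ = 420 * (ρ ^ 3 * δ) := by ring
              _ ≤ 420 * (ρ ^ 4 * δ) := by
                have : ρ ^ 3 ≤ ρ ^ 4 := pow_le_pow_right₀ hρ (by norm_num)
                gcongr
          have e3 : 2 * δ * η ≤ 2 * (ρ ^ 4 * δ) := by
            have g1 : (1 : ℝ) ≤ ρ ^ 4 := one_le_pow₀ hρ
            calc 2 * δ * η ≤ 2 * δ * 1 := by gcongr
              _ = 2 * (1 * δ) := by ring
              _ ≤ 2 * (ρ ^ 4 * δ) := by gcongr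
          have e4 : 0 < ρ ^ 4 * δ := by positivity
          nlinarith
        exact lt_of_mul_lt_mul_right e1 hη.le
  · push Not at hA
    by_cases hB : ∃ σ ∈ SV Q m, ∃ p ∈ Q, |ph x₁ (vt p σ)| ≤ 3 * (ρ * δ)
    · obtain ⟨σ, hσ, p₁, hp₁, h1⟩ := hB
      obtain ⟨x₀, hx₀⟩ : ∃ x₀ : (Fin (n + 3) → ℂ) → ℝ × ℝ,
        x₀ = fun p => (x₁.1, (conj (dir x₁.1) * vt p σ).im) := ⟨_, rfl⟩
      have hph : ∀ p z, ph (x₀ p) z = ph x₁ z - ph x₁ (vt p σ) := by
        intro p z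
        rw [hx₀]
        unfold ph
        ring
      have hs : ∀ p ∈ Q, |ph x₁ (vt p σ)| ≤ 6 * (ρ * δ) := by
        intro p hp
        have g1 := hvar σ hσ p hp p₁ hp₁ x₁ hx₁
        have g2 := abs_sub_abs_le_abs_sub (ph x₁ (vt p σ)) (ph x₁ (vt p₁ σ))
        linarith
      refine ⟨x₀, ⟨fun ν hν => ?_, ?_⟩⟩
      · by_cases hid : ∀ p ∈ Q, vt p σ = vt p ν
        · left
          intro p hp
          rw [hph, ← hid p hp, sub_self]
        · right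
          intro p hp p' hp' x hx
          push Not at hid
          have h2 := hA σ hσ ν hν hid ⟨p₁, hp₁, by linarith⟩ p hp
          apply pos_of_near
          rw [hph]
          have g1 := hvar ν hν p hp p' hp' x hx
          have g2 := hs p hp
          have e : ph x₁ (vt p ν) - ph x₁ (vt p σ) - ph x (vt p' ν) =
              (ph x₁ (vt p ν) - ph x (vt p' ν)) - ph x₁ (vt p σ) := by ring
          rw [e]
          have g3 := abs_sub (ph x₁ (vt p ν) - ph x (vt p' ν)) (ph x₁ (vt p σ))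
          have g4 := abs_sub_abs_le_abs_sub (ph x₁ (vt p ν)) (ph x₁ (vt p σ))
          linarith
      · refine order_const (η := η) (δ := δ) (δ' := 0) hη hnorm hcl hpair x₁ x₀ (fun p hp => ?_) ?_
        · rw [hx₀]
          simp
        · linarith
    · push Not at hB
      refine ⟨fun _ => x₁, ⟨fun ν hν => ?_, ?_⟩⟩
      · right
        intro p hp p' hp' x hx
        exact pos_of_near (lt_of_le_of_lt (hvar ν hν p hp p' hp' x hx) (hB ν hν p hp))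
      · refine order_const (η := η) (δ := δ) (δ' := 0) hη hnorm hcl hpair x₁ _ (fun p hp => ?_) ?_
        · simp
        · linarith

/-- In a small family of polygons few words are realised in a small box. -/
theorem fcount_box {Q : Set (Fin (n + 3) → ℂ)} (hQ : ∀ p ∈ Q, IsConvexPolygon p) {m : ℕ}
    {η ρ δ : ℝ} (hη : 0 < η) (hη1 : η ≤ 1)
    (hρ : 1 ≤ ρ) (hδ : 0 < δ) (hsm : 2000 * ρ ^ 4 * δ ≤ η ^ 2)
    (hnorm : ∀ σ ∈ SV Q m, ∀ p ∈ Q, ‖vt p σ‖ ≤ ρ)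
    (hcl : ∀ σ ∈ SV Q m, ∀ p ∈ Q, ∀ p' ∈ Q, ‖vt p σ - vt p' σ‖ ≤ δ)
    (hpair : ∀ σ ∈ SV Q m, ∀ τ ∈ SV Q m, (∀ p ∈ Q, vt p σ = vt p τ) ∨
      (∀ p ∈ Q, η ≤ ‖vt p σ - vt p τ‖))
    (htri : ∀ σ ∈ SV Q m, ∀ τ ∈ SV Q m, ∀ ν ∈ SV Q m,
      (∀ p ∈ Q, lft (vt p σ) (vt p τ) (vt p ν) = 0) ∨
      (∀ p ∈ Q, η ≤ |lft (vt p σ) (vt p τ) (vt p ν)|))
    (a b : ℝ) : (wq Q m (bx a b δ)).ncard ≤ mb n m := by
  obtain ⟨x₀, hx₀⟩ := fbox (Q := Q) (m := m) (η := η) (ρ := ρ) (δ := 2 * δ) hη hη1 hρ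
    (by positivity) (by linarith) hnorm
    (fun σ hσ p hp p' hp' => (hcl σ hσ p hp p' hp').trans (by linarith)) hpair htri (a, b)
  have hU : IsOpen (Ioo (a - 2 * δ) (a + 2 * δ) ×ˢ Ioo (b - 2 * δ) (b + 2 * δ)) :=
    isOpen_Ioo.prod isOpen_Ioo
  have h1 := fcount hQ hx₀ hU (by
    rintro x ⟨⟨h1, h2⟩, h3, h4⟩
    exact ⟨⟨h1.le, h2.le⟩, h3.le, h4.le⟩)
  refine (Set.ncard_le_ncard (wq_mono (subset_refl Q) ?_) (wq_finite _ _ _)).trans h1
  rintro x ⟨⟨h1, h2⟩, h3, h4⟩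
  exact ⟨⟨by linarith, by linarith⟩, by linarith, by linarith⟩

end Pool.Agent.L5helper80.GR
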