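import Pool.Agent.L5helper80.GR.Lip

set_option autoImplicit false

/-!
The number of words realised in a small family of polygons.
-/

namespace Pool.Agent.L5helper80.GR

open Complex Set MeasureTheory Filter Topology Pool.Agent.W780.PG Pool.Agent.W780.BB
  Pool.Agent.TH225.BL Pool.Agent.K3h17.BK Pool.Agent.K3h17.BT

open scoped Real ComplexConjugate

variable {n : ℕ}

theorem cover_one {c y K δ : ℝ} (hδ : 0 < δ) (h : |y - c| ≤ K * δ) :
    ∃ l : ℕ, l < ⌊2 * K⌋₊ + 1 ∧ y ∈ Icc (c - K * δ + l * δ) (c - K * δ + l * δ + δ) := by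
  rw [abs_le] at h
  obtain ⟨s, hs⟩ : ∃ s, s = (y - (c - K * δ)) / δ := ⟨_, rfl⟩
  have hs0 : 0 ≤ s := by rw [hs]; exact div_nonneg (by linarith [h.1]) hδ.le
  have hs1 : s ≤ 2 * K := by
    rw [hs, div_le_iff₀ hδ]
    linarith [h.2]
  have hsd : s * δ = y - (c - K * δ) := by rw [hs]; field_simp
  refine ⟨⌊s⌋₊, Nat.lt_succ_of_le (Nat.floor_le_floor hs1), ?_, ?_⟩
  · have h5 : (⌊s⌋₊ : ℝ) * δ ≤ s * δ := by gcongr; exact Nat.floor_le hs0
    linarith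
  · have h5 : s * δ < (⌊s⌋₊ + 1) * δ := by gcongr; exact Nat.lt_floor_add_one s
    linarith

/-- The number of boxes in one direction. -/
noncomputable def dn (R : ℝ) (m : ℕ) : ℕ := ⌊2 * ((2 * R + 5) * ((m : ℝ) + 1) ^ 2)⌋₊ + 1

theorem fbox_image {Q : Set (Fin (n + 3) → ℂ)} {R s r δ : ℝ} (hF : Fam Q R s r) (hs : 0 < s)
    (hδ : 0 < δ) (hR0 : 0 ≤ R) (hr1 : 8 * r / s ≤ δ) (hr2 : r ≤ δ)
    (w : List (Fin (n + 3))) (a b : ℝ) :
    ∃ a' b' : ℝ, ∀ p ∈ Q, ∀ x ∈ bx a b δ, ∃ k : ℤ, ∃ l < dn R w.length, ∃ l' < dn R w.length,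
      ((fw p w x).1 + 2 * π * k, (fw p w x).2) ∈ bx (a' + (l : ℕ) * δ) (b' + (l' : ℕ) * δ) δ := by
  by_cases hQ : ∃ p₁, p₁ ∈ Q
  swap
  · push Not at hQ
    exact ⟨0, 0, fun p hp => absurd hp (hQ p)⟩
  obtain ⟨p₁, hp₁⟩ := hQ
  obtain ⟨y₁, hy₁⟩ : ∃ y₁, y₁ = fw p₁ w (a, b) := ⟨_, rfl⟩
  obtain ⟨m, hm⟩ : ∃ m : ℕ, m = w.length := ⟨_, rfl⟩
  have hm0 : (0 : ℝ) ≤ m := m.cast_nonneg
  obtain ⟨K, hK⟩ : ∃ K : ℝ, K = (2 * R + 5) * ((m : ℝ) + 1) ^ 2 := ⟨_, rfl⟩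
  refine ⟨y₁.1 - K * δ, y₁.2 - K * δ, fun p hp x hx => ?_⟩
  obtain ⟨⟨hx1, hx2⟩, hx3, hx4⟩ := hx
  have ht : ∀ i, ‖dir (2 * tau p i) - dir (2 * tau p₁ i)‖ ≤ δ := fun i =>
    (dir_two_diff hs i (hF.sd p hp i) (hF.near p hp p₁ hp₁)).trans hr1
  have hd : ‖dir x.1 - dir a‖ ≤ δ := by
    refine (dir_diff _ _).trans ?_
    rw [abs_le]
    constructor <;> linarith
  have h1 := fw_close (Δ := ((m : ℝ) + 1) * δ) (hF.rb p hp) ht (hF.near p hp p₁ hp₁) w x (a, b) (by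
    simp only []
    rw [← hm]
    linarith)
  rw [← hm, ← hy₁] at h1
  obtain ⟨h2, h3⟩ := h1
  simp only [] at h2 h3
  obtain ⟨k, hk⟩ := angle_close _ _ _ h2
  have h4 : |(fw p w x).1 + 2 * π * k - y₁.1| ≤ K * δ := by
    refine hk.trans ?_
    have e1 : 2 * (‖dir x.1 - dir a‖ + (m : ℝ) * δ) ≤ (2 * ((m : ℝ) + 1)) * δ := by linarith
    refine e1.trans ?_
    apply mul_le_mul_of_nonneg_right _ hδ.le
    rw [hK]
    nlinarith
  have h5 : |(fw p w x).2 - y₁.2| ≤ K * δ := by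
    refine h3.trans ?_
    have e1 : |x.2 - b| ≤ δ := by
      rw [abs_le]
      constructor <;> linarith
    have e2 : (m : ℝ) * (2 * R * (((m : ℝ) + 1) * δ) + 2 * r) ≤
        (m : ℝ) * (2 * R * (((m : ℝ) + 1) * δ) + 2 * δ) := by gcongr
    have e3 : δ + (m : ℝ) * (2 * R * (((m : ℝ) + 1) * δ) + 2 * δ) ≤ K * δ := by
      have e4 : δ + (m : ℝ) * (2 * R * (((m : ℝ) + 1) * δ) + 2 * δ) =
          (1 + (2 * R * ((m : ℝ) * (m + 1)) + 2 * m)) * δ := by ring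
      rw [e4]
      apply mul_le_mul_of_nonneg_right _ hδ.le
      rw [hK]
      have e5 : (m : ℝ) * (m + 1) ≤ ((m : ℝ) + 1) ^ 2 := by nlinarith
      have e6 : 2 * R * ((m : ℝ) * (m + 1)) ≤ 2 * R * ((m : ℝ) + 1) ^ 2 := by gcongr
      have e7 : 1 + 2 * (m : ℝ) ≤ 5 * ((m : ℝ) + 1) ^ 2 := by nlinarith
      linarith
    linarith
  obtain ⟨l, hl1, hl2⟩ := cover_one hδ h4
  obtain ⟨l', hl'1, hl'2⟩ := cover_one hδ h5
  refine ⟨k, l, ?_, l', ?_, hl2, hl'2⟩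
  · unfold dn
    rw [← hm, ← hK]
    exact hl1
  · unfold dn
    rw [← hm, ← hK]
    exact hl'1

open Classical in
theorem fwords_step {Q : Set (Fin (n + 3) → ℂ)} {R s r δ : ℝ} (hF : Fam Q R s r) (hs : 0 < s)
    (hδ : 0 < δ) (hR0 : 0 ≤ R) (hr1 : 8 * r / s ≤ δ) (hr2 : r ≤ δ) {m k A M : ℕ}
    (hm : ∀ a b : ℝ, (wq Q m (bx a b δ)).ncard ≤ M)
    (hk : ∀ a b : ℝ, (wq Q k (bx a b δ)).ncard ≤ A) (a b : ℝ) :
    (wq Q (m + k) (bx a b δ)).ncard ≤ M * ((dn R m * dn R m) * A) := by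
  choose a' b' hab using fun w : List (Fin (n + 3)) =>
    fbox_image hF hs hδ hR0 hr1 hr2 w a b
  set F := (wq_finite Q m (bx a b δ)).toFinset with hFd
  have hFm : ∀ w, w ∈ F ↔ w ∈ wq Q m (bx a b δ) := fun w => by rw [hFd]; simp
  set G : List (Fin (n + 3)) → ℕ × ℕ → Finset (List (Fin (n + 3))) := fun w l =>
    ((wq_finite Q k (bx (a' w + l.1 * δ) (b' w + l.2 * δ) δ)).toFinset).image (w ++ ·) with hG
  have hsub : wq Q (m + k) (bx a b δ) ⊆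
      ((F.biUnion fun w => (Finset.range (dn R m) ×ˢ Finset.range (dn R m)).biUnion fun l =>
        G w l : Finset _) : Set (List (Fin (n + 3)))) := by
    rintro w ⟨hw, p, hp, x, hx, hRW⟩
    have e : w = w.take m ++ w.drop m := (List.take_append_drop m w).symm
    rw [e, RW_append] at hRW
    have hl1 : (w.take m).length = m := by rw [List.length_take]; omega
    have hl2 : (w.drop m).length = k := by rw [List.length_drop]; omega
    obtain ⟨c, l, hl, l', hl', hxl⟩ := hab (w.take m) p hp x hx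
    rw [hl1] at hl hl'
    rw [Finset.mem_coe, Finset.mem_biUnion]
    refine ⟨w.take m, (hFm _).2 ⟨hl1, p, hp, x, hx, hRW.1⟩, ?_⟩
    rw [Finset.mem_biUnion]
    refine ⟨(l, l'), Finset.mem_product.2 ⟨Finset.mem_range.2 hl, Finset.mem_range.2 hl'⟩, ?_⟩
    rw [hG, Finset.mem_image]
    refine ⟨w.drop m, ?_, e.symm⟩
    rw [Set.Finite.mem_toFinset]
    exact ⟨hl2, p, hp, _, hxl, (RW_period _ _ _).2 hRW.2⟩
  refine (Set.ncard_le_ncard hsub (Finset.finite_toSet _)).trans ?_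
  rw [Set.ncard_coe_finset]
  have hG2 : ∀ w l, (G w l).card ≤ A := by
    intro w l
    refine Finset.card_image_le.trans ?_
    rw [← Set.ncard_eq_toFinset_card _ (wq_finite _ _ _)]
    exact hk _ _
  have hF2 : F.card ≤ M := by
    rw [hFd, ← Set.ncard_eq_toFinset_card _ (wq_finite _ _ _)]
    exact hm a b
  calc _ ≤ F.card * ((dn R m * dn R m) * A) := by
        refine Finset.card_biUnion_le_card_mul _ _ _ fun w _ => ?_
        refine (Finset.card_biUnion_le_card_mul _ _ A fun l _ => hG2 w l).trans ?_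
        rw [Finset.card_product, Finset.card_range]
    _ ≤ M * ((dn R m * dn R m) * A) := Nat.mul_le_mul_right _ hF2

theorem fwords_triv (Q : Set (Fin (n + 3) → ℂ)) (r : ℕ) (U : Set (ℝ × ℝ)) :
    (wq Q r U).ncard ≤ (n + 3) ^ r := by
  have h1 : wq Q r U ⊆ {l : List (Fin (n + 3)) | l.length = r} := fun _ h => h.1
  refine (Set.ncard_le_ncard h1 (List.finite_length_eq _ r)).trans ?_
  have h2 : ({l : List (Fin (n + 3)) | l.length = r}).ncard =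
      Nat.card (List.Vector (Fin (n + 3)) r) := rfl
  rw [h2, Nat.card_eq_fintype_card, card_vector, Fintype.card_fin]

theorem fwords_pow {Q : Set (Fin (n + 3) → ℂ)} {R s r δ : ℝ} (hF : Fam Q R s r) (hs : 0 < s)
    (hδ : 0 < δ) (hR0 : 0 ≤ R) (hr1 : 8 * r / s ≤ δ) (hr2 : r ≤ δ) {m M : ℕ}
    (hm : ∀ a b : ℝ, (wq Q m (bx a b δ)).ncard ≤ M) (q : ℕ) : ∀ (j : ℕ) (a b : ℝ),
    (wq Q (m * j + q) (bx a b δ)).ncard ≤ (M * (dn R m * dn R m)) ^ j * (n + 3) ^ q := by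
  intro j
  induction j with
  | zero =>
    intro a b
    rw [mul_zero, zero_add, pow_zero, one_mul]
    exact fwords_triv Q q _
  | succ j ih =>
    intro a b
    have e : m * (j + 1) + q = m + (m * j + q) := by ring
    rw [e]
    refine (fwords_step hF hs hδ hR0 hr1 hr2 hm ih a b).trans (le_of_eq ?_)
    ring

open Classical in
/-- The number of all words of a given positive length. -/
theorem fwords_all {Q : Set (Fin (n + 3) → ℂ)} {R : ℝ} (hR : ∀ p ∈ Q, Rb p ≤ R) {k A : ℕ}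
    {δ : ℝ} (hδ : 0 < δ) (hk0 : 0 < k)
    (hk : ∀ a b : ℝ, (wq Q k (bx a b δ)).ncard ≤ A) :
    (wq Q k univ).ncard ≤ (⌊2 * π / δ⌋₊ + 1) * ((⌊2 * R / δ⌋₊ + 1) * A) := by
  have hpi := Real.pi_pos
  set G : ℕ → ℕ → Finset (List (Fin (n + 3))) := fun i l =>
    (wq_finite Q k (bx (i * δ) (-R + l * δ) δ)).toFinset with hG
  have hsub : wq Q k univ ⊆
      (((Finset.range (⌊2 * π / δ⌋₊ + 1)).biUnion fun i =>
        (Finset.range (⌊2 * R / δ⌋₊ + 1)).biUnion fun l => G i l : Finset _) :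
        Set (List (Fin (n + 3)))) := by
    rintro w ⟨hw, p, hp, x, -, hRW⟩
    have hx2 : |x.2| ≤ R := by
      cases w with
      | nil => simp at hw; omega
      | cons i w => exact (RW_bounded hRW).trans (hR p hp)
    rw [abs_le] at hx2
    obtain ⟨c, hc1, hc2⟩ : ∃ c : ℤ, 0 ≤ x.1 + 2 * π * c ∧ x.1 + 2 * π * c ≤ 2 * π := by
      refine ⟨-⌊x.1 / (2 * π)⌋, ?_⟩
      have h1 := Int.floor_le (x.1 / (2 * π))
      have h2 := Int.lt_floor_add_one (x.1 / (2 * π))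
      rw [le_div_iff₀ (by positivity)] at h1
      rw [div_lt_iff₀ (by positivity)] at h2
      push_cast
      constructor <;> nlinarith
    set θ := x.1 + 2 * π * c with hθ
    set s := θ / δ with hs
    have hs0 : 0 ≤ s := div_nonneg hc1 hδ.le
    have hsd : s * δ = θ := by rw [hs]; field_simp
    set r := (x.2 + R) / δ with hr
    have hr0 : 0 ≤ r := div_nonneg (by linarith [hx2.1]) hδ.le
    have hrd : r * δ = x.2 + R := by rw [hr]; field_simp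
    rw [Finset.mem_coe, Finset.mem_biUnion]
    refine ⟨⌊s⌋₊, Finset.mem_range.2 (Nat.lt_succ_of_le (Nat.floor_le_floor ?_)), ?_⟩
    · rw [hs]; gcongr
    rw [Finset.mem_biUnion]
    refine ⟨⌊r⌋₊, Finset.mem_range.2 (Nat.lt_succ_of_le (Nat.floor_le_floor ?_)), ?_⟩
    · rw [hr]
      gcongr
      linarith [hx2.2]
    rw [hG, Set.Finite.mem_toFinset]
    refine ⟨hw, p, hp, (θ, x.2), ⟨⟨?_, ?_⟩, ?_, ?_⟩, (RW_period w x c).2 hRW⟩
    · have : (⌊s⌋₊ : ℝ) * δ ≤ s * δ := by gcongr; exact Nat.floor_le hs0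
      simp only []
      linarith
    · have : s * δ < (⌊s⌋₊ + 1) * δ := by gcongr; exact Nat.lt_floor_add_one s
      simp only []
      linarith
    · have : (⌊r⌋₊ : ℝ) * δ ≤ r * δ := by gcongr; exact Nat.floor_le hr0
      simp only []
      linarith
    · have : r * δ < (⌊r⌋₊ + 1) * δ := by gcongr; exact Nat.lt_floor_add_one r
      simp only []
      linarith
  refine (Set.ncard_le_ncard hsub (Finset.finite_toSet _)).trans ?_
  rw [Set.ncard_coe_finset]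
  have hG2 : ∀ i l, (G i l).card ≤ A := by
    intro i l
    rw [hG, ← Set.ncard_eq_toFinset_card _ (wq_finite _ _ _)]
    exact hk _ _
  have h3 := Finset.card_biUnion_le_card_mul (Finset.range (⌊2 * π / δ⌋₊ + 1))
    (fun i => (Finset.range (⌊2 * R / δ⌋₊ + 1)).biUnion fun l => G i l)
    ((⌊2 * R / δ⌋₊ + 1) * A) (fun i _ => by
      have := Finset.card_biUnion_le_card_mul (Finset.range (⌊2 * R / δ⌋₊ + 1))
        (fun l => G i l) A (fun l _ => hG2 i l)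
      rwa [Finset.card_range] at this)
  rwa [Finset.card_range] at h3

/-- The bound for the number of all words, with real numbers. -/
theorem fwords_bound {Q : Set (Fin (n + 3) → ℂ)} {R s r δ : ℝ} (hF : Fam Q R s r) (hs : 0 < s)
    (hδ : 0 < δ) (hδ1 : δ ≤ 1) (hR1 : 1 ≤ R) (hr1 : 8 * r / s ≤ δ) (hr2 : r ≤ δ) {m : ℕ}
    (hm1 : 1 ≤ m) (hm : ∀ a b : ℝ, (wq Q m (bx a b δ)).ncard ≤ mb n m) {k K : ℕ} (hk : k ≤ K) :
    ((wq Q k univ).ncard : ℝ) ≤ 100 * R / δ ^ 2 *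
      (2 * ((n : ℝ) + 4) * (4 * R + 11) ^ 2 * ((m : ℝ) + 1) ^ 5) ^ (K / m) *
        ((n : ℝ) + 3) ^ m := by
  have hn : (0 : ℝ) ≤ n := n.cast_nonneg
  have hmR : (1 : ℝ) ≤ m := by exact_mod_cast hm1
  have hpi := Real.pi_pos
  have hpi4 := Real.pi_lt_four
  obtain ⟨c, hc⟩ : ∃ c : ℝ, c = 2 * ((n : ℝ) + 4) * (4 * R + 11) ^ 2 * ((m : ℝ) + 1) ^ 5 :=
    ⟨_, rfl⟩
  have hc1 : 1 ≤ c := by
    rw [hc]
    have h1 : (1 : ℝ) ≤ 2 * ((n : ℝ) + 4) := by linarith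
    have h2 : (1 : ℝ) ≤ (4 * R + 11) ^ 2 := one_le_pow₀ (by linarith)
    have h3 : (1 : ℝ) ≤ ((m : ℝ) + 1) ^ 5 := one_le_pow₀ (by linarith)
    exact one_le_mul_of_one_le_of_one_le (one_le_mul_of_one_le_of_one_le h1 h2) h3
  rw [← hc]
  have hq1 : (1 : ℝ) ≤ 100 * R / δ ^ 2 := by
    rw [le_div_iff₀ (by positivity)]
    have : δ ^ 2 ≤ 1 := pow_le_one₀ hδ.le hδ1
    linarith
  have hpow1 : (1 : ℝ) ≤ c ^ (K / m) := one_le_pow₀ hc1
  have hpow2 : (1 : ℝ) ≤ ((n : ℝ) + 3) ^ m := one_le_pow₀ (by linarith)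
  rcases Nat.eq_zero_or_pos k with rfl | hk0
  · have h1 := fwords_triv Q 0 univ
    rw [pow_zero] at h1
    have h2 : ((wq Q 0 univ).ncard : ℝ) ≤ 1 := by exact_mod_cast h1
    refine h2.trans ?_
    exact one_le_mul_of_one_le_of_one_le (one_le_mul_of_one_le_of_one_le hq1 hpow1) hpow2
  have h1 := fwords_pow hF hs hδ (by linarith) hr1 hr2 hm (k % m) (k / m)
  rw [Nat.div_add_mod] at h1
  have h2 := fwords_all hF.rb hδ hk0 h1
  have h3 : ((wq Q k univ).ncard : ℝ) ≤ ((⌊2 * π / δ⌋₊ : ℝ) + 1) * (((⌊2 * R / δ⌋₊ : ℝ) + 1) *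
      (((mb n m : ℝ) * ((dn R m : ℝ) * (dn R m : ℝ))) ^ (k / m) * ((n : ℝ) + 3) ^ (k % m))) := by
    exact_mod_cast h2
  refine h3.trans ?_
  have e1 : (⌊2 * π / δ⌋₊ : ℝ) + 1 ≤ 9 / δ := by
    have : (⌊2 * π / δ⌋₊ : ℝ) ≤ 2 * π / δ := Nat.floor_le (by positivity)
    have h5 : 1 ≤ 1 / δ := by rw [le_div_iff₀ hδ]; linarith
    have h6 : 2 * π / δ ≤ 8 / δ := by gcongr; linarith
    have h7 : 9 / δ = 8 / δ + 1 / δ := by rw [← add_div]; norm_num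
    linarith
  have e2 : (⌊2 * R / δ⌋₊ : ℝ) + 1 ≤ 3 * R / δ := by
    have : (⌊2 * R / δ⌋₊ : ℝ) ≤ 2 * R / δ := Nat.floor_le (by positivity)
    have h5 : 1 ≤ R / δ := by rw [le_div_iff₀ hδ]; linarith
    have h7 : 3 * R / δ = 2 * R / δ + R / δ := by rw [← add_div]; congr 1; ring
    linarith
  have e3 : (mb n m : ℝ) * ((dn R m : ℝ) * (dn R m : ℝ)) ≤ c := by
    have g1 : (mb n m : ℝ) ≤ 2 * ((n : ℝ) + 4) * ((m : ℝ) + 1) := by
      unfold mb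
      push_cast
      nlinarith
    have g2 : (dn R m : ℝ) ≤ (4 * R + 11) * ((m : ℝ) + 1) ^ 2 := by
      unfold dn
      push_cast
      have h5 : ((⌊2 * ((2 * R + 5) * ((m : ℝ) + 1) ^ 2)⌋₊ : ℕ) : ℝ) ≤
        2 * ((2 * R + 5) * ((m : ℝ) + 1) ^ 2) := Nat.floor_le (by positivity)
      have h6 : (1 : ℝ) ≤ ((m : ℝ) + 1) ^ 2 := one_le_pow₀ (by linarith)
      linarith
    rw [hc]
    calc (mb n m : ℝ) * ((dn R m : ℝ) * (dn R m : ℝ))
        ≤ (2 * ((n : ℝ) + 4) * ((m : ℝ) + 1)) * (((4 * R + 11) * ((m : ℝ) + 1) ^ 2) *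
          ((4 * R + 11) * ((m : ℝ) + 1) ^ 2)) := by gcongr
      _ = _ := by ring
  have e4 : ((mb n m : ℝ) * ((dn R m : ℝ) * (dn R m : ℝ))) ^ (k / m) ≤ c ^ (K / m) := by
    calc ((mb n m : ℝ) * ((dn R m : ℝ) * (dn R m : ℝ))) ^ (k / m) ≤ c ^ (k / m) := by gcongr
      _ ≤ c ^ (K / m) := pow_le_pow_right₀ hc1 (Nat.div_le_div_right hk)
  have e5 : ((n : ℝ) + 3) ^ (k % m) ≤ ((n : ℝ) + 3) ^ m :=
    pow_le_pow_right₀ (by linarith) (Nat.mod_lt _ (by omega)).le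
  calc ((⌊2 * π / δ⌋₊ : ℝ) + 1) * (((⌊2 * R / δ⌋₊ : ℝ) + 1) *
      (((mb n m : ℝ) * ((dn R m : ℝ) * (dn R m : ℝ))) ^ (k / m) * ((n : ℝ) + 3) ^ (k % m)))
      ≤ (9 / δ) * ((3 * R / δ) * (c ^ (K / m) * ((n : ℝ) + 3) ^ m)) := by gcongr
    _ = 27 * R / δ ^ 2 * c ^ (K / m) * ((n : ℝ) + 3) ^ m := by
        field_simp
        ring
    _ ≤ 100 * R / δ ^ 2 * c ^ (K / m) * ((n : ℝ) + 3) ^ m := by
        have : 27 * R / δ ^ 2 ≤ 100 * R / δ ^ 2 := by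
          apply div_le_div_of_nonneg_right _ (by positivity)
          linarith
        gcongr

end Pool.Agent.L5helper80.GR
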