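import Pool.Agent.L5helper80.GR.Step
import Pool.Agent.K3h17.BK.Thr
import Pool.Agent.TH103.BL.Gen

set_option autoImplicit false

/-!
The number of itineraries and of generalized diagonals, and the threshold for the directional
modulus of invariant sets and eigenfunctions, in almost every convex polygon.
-/

namespace Pool.Agent.L5helper80.GR

open Complex Set MeasureTheory Filter Topology Pool.Agent.W780.PG Pool.Agent.W780.BB
  Pool.Agent.TH225.BL Pool.Agent.K3h17.BK Pool.Agent.K3h17.BT Pool.Agent.TH578.BE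

open scoped Real ComplexConjugate

variable {n : ℕ}

/-- The straight segment from `B` to `A` crosses, after folding, the open sides in the list, in this
order, and ends, after folding, at a vertex. -/
def Gd (p : Fin (n + 3) → ℂ) : List (Fin (n + 3)) → ℂ → ℂ → Prop
  | [], _, A => ∃ j, A = p j
  | i :: w, B, A => 0 < sf p i B ∧ sf p i A < 0 ∧ (∀ j, j ≠ i → 0 < sf p j (cr p i B A)) ∧
      Gd p w (cr p i B A) (rf p i A)

/-- The generalized diagonals with at most `k` reflections: the first vertex, the list of the sides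
which are met, and the last vertex in the unfolded position. -/
def diag (p : Fin (n + 3) → ℂ) (k : ℕ) : Set (Fin (n + 3) × List (Fin (n + 3)) × ℂ) :=
  {t | t.2.1.length ≤ k ∧ Gd p t.2.1 (p t.1) t.2.2}

theorem RW_of_Gd {p : Fin (n + 3) → ℂ} (hp : IsConvexPolygon p) (w : List (Fin (n + 3))) :
    ∀ (B A : ℂ) (x : ℝ × ℝ) (r : ℝ), 0 < r → ph x B = 0 → A = B + r • dir x.1 → Gd p w B A →
      RW p w x := by
  obtain ⟨-, -, -, hr4, hr5, -⟩ := Pool.Agent.W347.BB.ref n p hp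
  induction w with
  | nil => intro B A x r _ _ _ _; trivial
  | cons i w ih =>
    intro B A x r hr hB hA hch
    obtain ⟨h1, h2, h3, h4⟩ := hch
    set s := sf p i B / (sf p i B - sf p i A) with hs
    have hd : 0 < sf p i B - sf p i A := by linarith
    have hs0 : 0 < s := div_pos h1 hd
    have hs1 : s < 1 := by rw [hs, div_lt_one hd]; linarith
    have hy : cr p i B A = B + (s * r) • dir x.1 := by
      unfold cr
      rw [← hs, hA, add_sub_cancel_left, smul_smul]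
    have hphd : ∀ c : ℝ, ph x (B + c • dir x.1) = 0 := by
      intro c
      have e : conj (dir x.1) * (B + c • dir x.1) = conj (dir x.1) * B + (c : ℂ) := by
        have h2 : conj (dir x.1) * dir x.1 = 1 := by
          rw [dir_conj, dir_mul, neg_add_cancel]
          unfold dir
          simp
        rw [mul_add, real_smul]
        calc _ = conj (dir x.1) * B + (c : ℂ) * (conj (dir x.1) * dir x.1) := by ring
          _ = _ := by rw [h2, mul_one]
      unfold ph at hB ⊢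
      rw [e, Complex.add_im, Complex.ofReal_im, add_zero]
      exact hB
    have hy0 : sf p i (cr p i B A) = 0 := (Pool.Agent.W12.BB.Fan.cr_facts h1 h2).2
    have hyph : ph x (cr p i B A) = 0 := by rw [hy]; exact hphd _
    obtain ⟨a, b, ha, hb, hab, hab'⟩ := side_of_cr hp hy0 h3
    have hsl : ph x (p i) < ph x (p (i + 1)) := by
      have := sf_dir (p := p) i x B r
      rw [← hA] at this
      by_contra hcon
      push Not at hcon
      have : 0 ≤ - (r * (ph x (p (i + 1)) - ph x (p i))) := by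
        rw [← mul_neg]
        exact mul_nonneg hr.le (by linarith)
      linarith
    have hcomb : a * ph x (p i) + b * ph x (p (i + 1)) = 0 := by
      have h5 := ph_comb x (p i) (p (i + 1)) b
      rw [show 1 - b = a by linarith, hab', hyph] at h5
      linarith
    have h6 : rf p i (cr p i B A) = cr p i B A := hr4 _ _ hy0
    refine ⟨?_, ?_, ih (cr p i B A) (rf p i A) (fl p i x) ((1 - s) * r)
      (mul_pos (by linarith) hr) ?_ ?_ h4⟩
    · by_contra hcon
      push Not at hcon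
      have : 0 < b * ph x (p (i + 1)) := mul_pos hb (by linarith)
      have := mul_nonneg ha.le hcon
      linarith
    · by_contra hcon
      push Not at hcon
      have : a * ph x (p i) < 0 := mul_neg_of_pos_of_neg ha (by linarith)
      have := mul_nonpos_of_nonneg_of_nonpos hb.le hcon
      linarith
    · have := ph_fl (p := p) i x (cr p i B A)
      rw [h6, hyph, neg_zero] at this
      exact this
    · have hA2 : A = cr p i B A + ((1 - s) * r) • dir x.1 := by
        rw [hy, hA, add_assoc, ← add_smul]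
        congr 2
        ring
      conv_lhs => rw [hA2, hr5, h6]
      rfl

theorem Gd_RW {p : Fin (n + 3) → ℂ} (hp : IsConvexPolygon p) {w : List (Fin (n + 3))} {z A : ℂ}
    (h : Gd p w z A) : ∃ x, RW p w x := by
  cases w with
  | nil => exact ⟨(0, 0), trivial⟩
  | cons i w =>
    have hne : A - z ≠ 0 := by
      intro h0
      have h1 : A = z := sub_eq_zero.1 h0
      obtain ⟨h2, h3, -⟩ := h
      rw [h1] at h3
      linarith
    refine ⟨(arg (A - z), (conj (dir (arg (A - z))) * z).im),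
      RW_of_Gd hp _ z A _ ‖A - z‖ (norm_pos_iff.2 hne) (by unfold ph; simp) ?_ h⟩
    unfold dir
    rw [Complex.real_smul, Complex.norm_mul_exp_arg_mul_I]
    ring

theorem Gd_end {p : Fin (n + 3) → ℂ} (hp : IsConvexPolygon p) {w : List (Fin (n + 3))} :
    ∀ {B A : ℂ}, Gd p w B A → ∃ j, A = uf p w (p j) := by
  obtain ⟨hr1, -⟩ := Pool.Agent.W347.BB.ref n p hp
  induction w with
  | nil =>
    intro B A h
    obtain ⟨j, hj⟩ := h
    exact ⟨j, hj⟩
  | cons i w ih =>
    intro B A h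
    obtain ⟨-, -, -, h4⟩ := h
    obtain ⟨j, hj⟩ := ih h4
    refine ⟨j, ?_⟩
    rw [uf, ← hj, hr1]

/-- The generalized diagonals are bounded by the words. -/
theorem diag_le {p : Fin (n + 3) → ℂ} (hp : IsConvexPolygon p) (k : ℕ) :
    (diag p k).Finite ∧ (diag p k).ncard ≤ (n + 3) * ((n + 3) * (wl {p} k).ncard) := by
  classical
  set F := (wl_finite ({p} : Set (Fin (n + 3) → ℂ)) k).toFinset with hF
  set G : Finset (Fin (n + 3) × List (Fin (n + 3)) × ℂ) :=
    ((Finset.univ : Finset (Fin (n + 3))) ×ˢ (Finset.univ : Finset (Fin (n + 3))) ×ˢ F).image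
      fun t => (t.1, t.2.2, uf p t.2.2 (p t.2.1)) with hG
  have hsub : diag p k ⊆ (G : Set (Fin (n + 3) × List (Fin (n + 3)) × ℂ)) := by
    rintro ⟨i, w, A⟩ ⟨h1, h2⟩
    simp only [] at h1 h2
    obtain ⟨x, hx⟩ := Gd_RW hp h2
    obtain ⟨j, hj⟩ := Gd_end hp h2
    rw [hG, Finset.mem_coe, Finset.mem_image]
    refine ⟨(i, j, w), ?_, by rw [hj]⟩
    rw [Finset.mem_product, Finset.mem_product]
    refine ⟨Finset.mem_univ _, Finset.mem_univ _, ?_⟩
    rw [hF, Set.Finite.mem_toFinset]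
    exact ⟨h1, p, rfl, x, hx⟩
  refine ⟨(Finset.finite_toSet G).subset hsub, ?_⟩
  refine (Set.ncard_le_ncard hsub (Finset.finite_toSet _)).trans ?_
  rw [Set.ncard_coe_finset]
  refine Finset.card_image_le.trans ?_
  rw [Finset.card_product, Finset.card_product, Finset.card_univ, Fintype.card_fin, hF,
    ← Set.ncard_eq_toFinset_card _ (wl_finite _ _)]

theorem itin_sub {p : Fin (n + 3) → ℂ} (hp : IsConvexPolygon p) (k : ℕ) :
    itin p k ⊆ wl {p} k := by
  rintro w ⟨hw, z, hz, A, hch⟩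
  obtain ⟨x, hx⟩ := itin_RW hp hch
  exact ⟨hw, p, rfl, x, hx⟩

/-- The exponent `1 / φ = (√5 - 1) / 2`. -/
theorem inv_gold : (Real.goldenRatio)⁻¹ = Real.goldenRatio - 1 := by
  have h1 := Real.goldenRatio_sq
  apply inv_eq_of_mul_eq_one_right
  have e : Real.goldenRatio * (Real.goldenRatio - 1) =
      Real.goldenRatio ^ 2 - Real.goldenRatio := by ring
  rw [e, h1]
  ring

/-- The number of words in almost every convex polygon. -/
theorem ae_words (n : ℕ) : ∀ᵐ p : Fin (n + 3) → ℂ, IsConvexPolygon p → ∀ γ : ℝ,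
    (Real.goldenRatio)⁻¹ < γ → ∀ᶠ k : ℕ in atTop,
      ((wl {p} k).ncard : ℝ) ≤ Real.exp ((k : ℝ) ^ γ) := by
  have h0 : ∀ᵐ p : Fin (n + 3) → ℂ, ∀ N : ℕ, IsConvexPolygon p → ∀ᶠ m : ℕ in atTop,
      Good p m (Real.exp (-(m : ℝ) ^ (Real.goldenRatio + 1 / ((N : ℝ) + 1)))) := by
    rw [ae_all_iff]
    intro N
    exact Sg_golden n (by
      have : (0 : ℝ) < 1 / ((N : ℝ) + 1) := by positivity
      linarith)
  filter_upwards [h0] with p hp hconv γ hγ
  obtain ⟨φ, hφ⟩ : ∃ φ, φ = Real.goldenRatio := ⟨_, rfl⟩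
  have hφ1 : 1 < φ := by rw [hφ]; exact Real.one_lt_goldenRatio
  have hφs : φ ^ 2 = φ + 1 := by rw [hφ]; exact Real.goldenRatio_sq
  rw [inv_gold, ← hφ] at hγ
  rw [← hφ] at hp
  obtain ⟨N, hN⟩ := exists_nat_gt (1 / (γ - (φ - 1)))
  have hd : 0 < γ - (φ - 1) := by linarith
  have hNd : 1 / ((N : ℝ) + 1) < γ - (φ - 1) := by
    rw [div_lt_iff₀ (by positivity)]
    rw [div_lt_iff₀ hd] at hN
    nlinarith
  obtain ⟨g, hg⟩ : ∃ g, g = φ + 1 / ((N : ℝ) + 1) := ⟨_, rfl⟩
  have hgφ : φ < g := by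
    rw [hg]
    have : (0 : ℝ) < 1 / ((N : ℝ) + 1) := by positivity
    linarith
  have hG := hp N hconv
  rw [← hg] at hG
  have hg1 : 1 ≤ g := by linarith
  have hgγ : g / (1 + g) < γ := by
    have h1 : g / (1 + g) < (φ - 1) + (g - φ) := by
      rw [div_lt_iff₀ (by linarith)]
      nlinarith
    have h2 : g - φ < γ - (φ - 1) := by
      rw [hg]
      linarith
    linarith
  obtain ⟨c, hc, hpc⟩ := exists_cls hconv hG
  obtain ⟨D, hD⟩ : ∃ D, D = γ * (1 + g) := ⟨_, rfl⟩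
  have hDg : g < D := by
    rw [hD]
    rwa [div_lt_iff₀ (by linarith)] at hgγ
  have hk := count_j (n := n) (g₁ := (g + D) / 2) (g₂ := (g + D) / 2 + 1) hg1 hgγ (by linarith)
    (by linarith) (by
      rw [one_div, inv_mul_lt_iff₀ (by linarith)]
      linarith) hc
  filter_upwards [hk] with k hk
  refine le_trans ?_ (hk p hpc)
  have hsub : wl {p} k ⊆
      wl (Bq p (Real.exp (-(ij (1 / (1 + g)) k : ℝ) ^ ((g + D) / 2 + 1)))) k := by
    apply wl_mono
    rintro q rfl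
    exact Bq_self hconv (Real.exp_pos _).le
  exact_mod_cast Set.ncard_le_ncard hsub (wl_finite _ _)

/-- The complexity of almost every convex polygon. -/
theorem ae_complexity (n : ℕ) : ∀ᵐ p : Fin (n + 3) → ℂ, IsConvexPolygon p → ∀ γ : ℝ,
    (Real.goldenRatio)⁻¹ < γ → ∀ᶠ k : ℕ in atTop,
      ((itin p k).ncard : ℝ) ≤ Real.exp ((k : ℝ) ^ γ) ∧
      (diag p k).Finite ∧ ((diag p k).ncard : ℝ) ≤ Real.exp ((k : ℝ) ^ γ) := by
  filter_upwards [ae_words n] with p hp hconv γ hγ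
  obtain ⟨γ', hγ'⟩ : ∃ γ', γ' = ((Real.goldenRatio)⁻¹ + γ) / 2 := ⟨_, rfl⟩
  have h1 : (Real.goldenRatio)⁻¹ < γ' := by rw [hγ']; linarith
  have h2 : γ' < γ := by rw [hγ']; linarith
  have h3 : 0 < (Real.goldenRatio)⁻¹ := inv_pos.2 Real.goldenRatio_pos
  have hγ0 : 0 < γ' := by linarith
  filter_upwards [hp hconv γ hγ, hp hconv γ' h1, const_dom hγ0 (((n : ℝ) + 3) * ((n : ℝ) + 3)),
    pow_dom h2 2] with k a1 a2 a3 a4
  refine ⟨le_trans ?_ a1, (diag_le hconv k).1, ?_⟩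
  · exact_mod_cast Set.ncard_le_ncard (itin_sub hconv k) (wl_finite _ _)
  · have h4 : ((diag p k).ncard : ℝ) ≤ ((n : ℝ) + 3) * (((n : ℝ) + 3) * (wl {p} k).ncard) := by
      exact_mod_cast (diag_le hconv k).2
    have h5 : ((n : ℝ) + 3) * ((n : ℝ) + 3) ≤ Real.exp ((k : ℝ) ^ γ') := by
      have := Real.add_one_le_exp ((k : ℝ) ^ γ')
      linarith
    calc ((diag p k).ncard : ℝ) ≤ ((n : ℝ) + 3) * (((n : ℝ) + 3) * (wl {p} k).ncard) := h4
      _ = (((n : ℝ) + 3) * ((n : ℝ) + 3)) * (wl {p} k).ncard := by ring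
      _ ≤ Real.exp ((k : ℝ) ^ γ') * Real.exp ((k : ℝ) ^ γ') := by gcongr
      _ = Real.exp (2 * (k : ℝ) ^ γ') := by
          rw [← Real.exp_add]
          congr 1
          ring
      _ ≤ _ := Real.exp_le_exp.2 a4

/-- The modulus is at most `h (log (1 / h)) ^ a` along a sequence `h → 0`, with some `a` less than
the golden ratio. -/
def BelowGolden (m : ℝ → ENNReal) : Prop :=
  ∃ a : ℝ, a < Real.goldenRatio ∧ ∃ᶠ h in 𝓝[>] (0 : ℝ),
    m h ≤ ENNReal.ofReal (h * Real.log (1 / h) ^ a)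

theorem pow_dom_real {a b : ℝ} (h : a < b) (C : ℝ) :
    ∀ᶠ L : ℝ in atTop, C * L ^ a ≤ L ^ b := by
  have h1 : Tendsto (fun L : ℝ => L ^ (b - a)) atTop atTop :=
    tendsto_rpow_atTop (by linarith : 0 < b - a)
  filter_upwards [h1.eventually (eventually_ge_atTop C), eventually_gt_atTop 0] with L h2 hL
  have e : L ^ b = L ^ (b - a) * L ^ a := by
    rw [← Real.rpow_add hL]
    congr 1
    ring
  rw [e]
  gcongr

theorem small_of_golden {p : Fin (n + 3) → ℂ}
    (hp : ∀ γ : ℝ, (Real.goldenRatio)⁻¹ < γ → ∀ᶠ k : ℕ in atTop,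
      ((itin p k).ncard : ℝ) ≤ Real.exp ((k : ℝ) ^ γ))
    {m : ℝ → ENNReal} (hm : BelowGolden m) : SmallMod p m := by
  obtain ⟨a, ha, hfr⟩ := hm
  have hφ0 := Real.goldenRatio_pos
  -- the exponents
  obtain ⟨b, hb⟩ : ∃ b, b = (max a 0 + Real.goldenRatio) / 2 := ⟨_, rfl⟩
  have hmax : max a 0 < Real.goldenRatio := max_lt ha hφ0
  have hb1 : max a 0 < b := by rw [hb]; linarith
  have hab : a < b := lt_of_le_of_lt (le_max_left _ _) hb1
  have hb0 : 0 < b := lt_of_le_of_lt (le_max_right _ _) hb1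
  have hbφ : b < Real.goldenRatio := by rw [hb]; linarith
  have hγ : (Real.goldenRatio)⁻¹ < 1 / b := by
    rw [one_div]
    exact (inv_lt_inv₀ hφ0 hb0).2 hbφ
  obtain ⟨K, hK⟩ := eventually_atTop.1 (hp (1 / b) hγ)
  intro ε hε
  have hev : ∀ᶠ L : ℝ in atTop, 0 < L ∧ (K : ℝ) + 1 ≤ (L / 8) ^ b ∧
      (2 / ε * 8 ^ b) * L ^ a ≤ L ^ b ∧ 2 ≤ (L / 8) ^ b ∧
      (L ^ (3 * b)) ≤ Real.exp (L / 4) ∧ Real.exp (-(L / 2)) ≤ ε := by
    have t1 : Tendsto (fun L : ℝ => (L / 8) ^ b) atTop atTop :=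
      (tendsto_rpow_atTop hb0).comp (tendsto_id.atTop_div_const (by norm_num : (0 : ℝ) < 8))
    have t2 : ∀ᶠ L : ℝ in atTop, L ^ (3 * b) ≤ Real.exp (L / 4) := by
      have h1 := (isLittleO_rpow_exp_pos_mul_atTop (3 * b) (show (0 : ℝ) < 1 / 4 by norm_num)).bound
        (show (0 : ℝ) < 1 by norm_num)
      filter_upwards [h1, eventually_gt_atTop 0] with L h2 h3
      rw [Real.norm_eq_abs, Real.norm_eq_abs, one_mul, abs_of_nonneg (by positivity),
        abs_of_pos (Real.exp_pos _)] at h2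
      calc L ^ (3 * b) ≤ Real.exp (1 / 4 * L) := h2
        _ = _ := by congr 1; ring
    have t3 : ∀ᶠ L : ℝ in atTop, Real.exp (-(L / 2)) ≤ ε := by
      have h3 : Tendsto (fun L : ℝ => Real.exp (-(L / 2))) atTop (𝓝 0) :=
        Real.tendsto_exp_atBot.comp
          (tendsto_neg_atTop_atBot.comp (tendsto_id.atTop_div_const (by norm_num : (0 : ℝ) < 2)))
      filter_upwards [h3.eventually (gt_mem_nhds hε)] with L hL using hL.le
    filter_upwards [eventually_gt_atTop (0 : ℝ), t1.eventually (eventually_ge_atTop ((K : ℝ) + 1)),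
      pow_dom_real hab (2 / ε * 8 ^ b), t1.eventually (eventually_ge_atTop (2 : ℝ)), t2, t3] with L
      a1 a2 a3 a4 a5 a6 using ⟨a1, a2, a3, a4, a5, a6⟩
  have h1 := tendsto_L.eventually hev
  have h2 : ∀ᶠ h in 𝓝[>] (0 : ℝ), 0 < h ∧ h < 1 := by
    filter_upwards [Ioo_mem_nhdsGT (zero_lt_one : (0 : ℝ) < 1)] with h hh using hh
  refine (hfr.and_eventually (h1.and h2)).mono fun h hh => ?_
  obtain ⟨a1, ⟨a2, a3, a4, a5, a6, a7⟩, a8, a9⟩ := hh
  obtain ⟨L, hL⟩ : ∃ L : ℝ, L = Real.log (1 / h) := ⟨_, rfl⟩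
  rw [← hL] at a1 a2 a3 a4 a5 a6 a7
  have hexp : h = Real.exp (-L) := by
    rw [hL, one_div, Real.log_inv, neg_neg, Real.exp_log a8]
  obtain ⟨k, hk⟩ : ∃ k : ℕ, k = ⌊(L / 8) ^ b⌋₊ := ⟨_, rfl⟩
  have hk1 : (k : ℝ) ≤ (L / 8) ^ b := by rw [hk]; exact Nat.floor_le (by positivity)
  have hk2 : (L / 8) ^ b < k + 1 := by rw [hk]; exact Nat.lt_floor_add_one _
  have hkK : K ≤ k := by
    have : (K : ℝ) < k + 1 := by linarith
    have : K < k + 1 := by exact_mod_cast this
    omega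
  have hk0 : (0 : ℝ) ≤ k := k.cast_nonneg
  have hkL : (k : ℝ) ^ (1 / b) ≤ L / 8 := by
    calc (k : ℝ) ^ (1 / b) ≤ ((L / 8) ^ b) ^ (1 / b) :=
          Real.rpow_le_rpow hk0 hk1 (by positivity)
      _ = L / 8 := by
          rw [← Real.rpow_mul (by positivity), mul_one_div, div_self hb0.ne', Real.rpow_one]
  have hit : ((itin p k).ncard : ℝ) ≤ Real.exp (L / 8) :=
    (hK k hkK).trans (Real.exp_le_exp.2 hkL)
  have hk3 : (k : ℝ) ^ 3 ≤ Real.exp (L / 4) := by
    refine le_trans ?_ a6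
    have h8 : (L / 8) ^ b ≤ L ^ b := Real.rpow_le_rpow (by positivity) (by linarith) hb0.le
    calc (k : ℝ) ^ 3 ≤ (L ^ b) ^ 3 := by
          gcongr
          linarith
      _ = L ^ (3 * b) := by
          rw [← Real.rpow_natCast, ← Real.rpow_mul a2.le]
          congr 1
          push_cast
          ring
  refine ⟨k, ?_, a1.trans (ENNReal.ofReal_le_ofReal ?_)⟩
  · calc ((itin p k).ncard : ℝ) ^ 2 * (k : ℝ) ^ 3 * h
        ≤ Real.exp (L / 8) ^ 2 * Real.exp (L / 4) * h := by gcongr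
      _ = Real.exp (-(L / 2)) := by
          rw [hexp, ← Real.exp_nat_mul, ← Real.exp_add, ← Real.exp_add]
          congr 1
          push_cast
          ring
      _ ≤ ε := a7
  · have hkb : (L / 8) ^ b ≤ 2 * k := by
      have : 1 ≤ (k : ℝ) := by linarith
      linarith
    have h8b : (0 : ℝ) < 8 ^ b := by positivity
    have e1 : L ^ b = 8 ^ b * (L / 8) ^ b := by
      rw [← Real.mul_rpow (by norm_num) (by positivity)]
      congr 1
      ring
    have e2 : L ^ a ≤ ε * k := by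
      have e3 : 2 / ε * 8 ^ b * L ^ a ≤ 8 ^ b * (2 * k) := by
        calc 2 / ε * 8 ^ b * L ^ a ≤ L ^ b := a4
          _ = 8 ^ b * (L / 8) ^ b := e1
          _ ≤ 8 ^ b * (2 * k) := by gcongr
      have e4 : 2 / ε * L ^ a ≤ 2 * k := by
        have : 8 ^ b * (2 / ε * L ^ a) ≤ 8 ^ b * (2 * k) := by linarith
        exact le_of_mul_le_mul_left this h8b
      have e5 : 2 / ε * L ^ a = 2 * (L ^ a / ε) := by ring
      rw [e5] at e4
      have e6 : L ^ a / ε ≤ k := by linarith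
      rw [div_le_iff₀ hε] at e6
      linarith
    calc h * L ^ a ≤ h * (ε * k) := by gcongr
      _ = ε * (k * h) := by ring

/-- The main theorem. -/
theorem main (n : ℕ) : ∀ᵐ p : Fin (n + 3) → ℂ, IsConvexPolygon p →
    (∀ γ : ℝ, (Real.goldenRatio)⁻¹ < γ → ∀ᶠ k : ℕ in atTop,
      ((itin p k).ncard : ℝ) ≤ Real.exp ((k : ℝ) ^ γ) ∧
      (diag p k).Finite ∧ ((diag p k).ncard : ℝ) ≤ Real.exp ((k : ℝ) ^ γ)) ∧
    (∀ A : Set (ℂ × ℝ), MeasurableSet A → IsInvariant p A → BelowGolden (om p A) →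
      IsTrivial p A) ∧
    (∀ (ω : ℝ) (χ : Fin (n + 3) → ℂ), (∀ i, ‖χ i‖ = 1) → ∀ f : ℂ × ℝ → ℂ, Measurable f →
      IsEigenfunction p ω χ f → BelowGolden (modulus p f) →
      (ω ≠ 0 → ∀ᵐ x : ℂ × ℝ, x ∈ phase p → f x = 0) ∧
      (ω = 0 → ∃ g : ℝ → ℂ, Measurable g ∧ ∀ᵐ x : ℂ × ℝ, x ∈ phase p → f x = g x.2) ∧
      ((∀ i, χ i = 1 ∨ χ i = -1) →
        ∃ c : ℂ, (∀ᵐ x : ℂ × ℝ, x ∈ phase p → f x = c) ∧ (c ≠ 0 → ω = 0 ∧ ∀ i, χ i = 1))) := by
  filter_upwards [ae_complexity n, Pool.Agent.TH103.BL.ae_irrational n] with p h1 h2 hp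
  have hc := h1 hp
  have hit : ∀ γ : ℝ, (Real.goldenRatio)⁻¹ < γ → ∀ᶠ k : ℕ in atTop,
      ((itin p k).ncard : ℝ) ≤ Real.exp ((k : ℝ) ^ γ) := fun γ hγ =>
    (hc γ hγ).mono fun k hk => hk.1
  have hirr : ∃ i, Irrational (ang p i / π) := ⟨0, h2 hp 0⟩
  refine ⟨hc, fun A hA hI hB => final_s hp hirr A hA hI (small_of_golden hit hB),
    fun ω χ hχ f hf hE hB => ?_⟩
  obtain ⟨g1, g2, g3⟩ := final_f hp ω χ hχ f hf hE (small_of_golden hit hB)
  exact ⟨g1, g2, g3 hirr⟩

end Pool.Agent.L5helper80.GR
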