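import Pool.Agent.L5helper80.GR.Un

set_option autoImplicit false

/-!
Good polygons: the unfolded vertices along the words which are realised in the neighbourhood of the
polygon are not too close to each other and not too close to being collinear, unless they coincide
or are collinear for all polygons.
-/

namespace Pool.Agent.L5helper80.GR

open Complex Set MeasureTheory Filter Topology Pool.Agent.W780.PG Pool.Agent.W780.BB
  Pool.Agent.TH225.BL Pool.Agent.K3h17.BK Pool.Agent.K3h17.BT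

open scoped Real ComplexConjugate

variable {n : ℕ}

/-- The convex polygons near `p`. -/
def Bq (p : Fin (n + 3) → ℂ) (r : ℝ) : Set (Fin (n + 3) → ℂ) :=
  {p' | IsConvexPolygon p' ∧ ∀ k, ‖p' k - p k‖ ≤ r}

/-- The words of length at most `m` realised in the family. -/
def wl (Q : Set (Fin (n + 3) → ℂ)) (m : ℕ) : Set (List (Fin (n + 3))) :=
  {u | u.length ≤ m ∧ ∃ p ∈ Q, ∃ x, RW p u x}

/-- The separation property at the level `m`. -/
def Good (p : Fin (n + 3) → ℂ) (m : ℕ) (η : ℝ) : Prop :=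
  ∀ u ∈ wl (Bq p η) m, ∀ v ∈ wl (Bq p η) m, ∀ w ∈ wl (Bq p η) m, ∀ j k l,
    ((∀ z, Sp u v j k z = 0) ∨ η ≤ ‖uf p u (p j) - uf p v (p k)‖) ∧
    ((∀ z, St u v w j k l z = 0) ∨ η ≤ |lft (uf p u (p j)) (uf p v (p k)) (uf p w (p l))|)

theorem Bq_mono {p : Fin (n + 3) → ℂ} {r r' : ℝ} (h : r ≤ r') : Bq p r ⊆ Bq p r' :=
  fun _ h1 => ⟨h1.1, fun k => (h1.2 k).trans h⟩

theorem Bq_self {p : Fin (n + 3) → ℂ} (hp : IsConvexPolygon p) {r : ℝ} (hr : 0 ≤ r) :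
    p ∈ Bq p r := ⟨hp, fun k => by rw [sub_self, norm_zero]; exact hr⟩

theorem wl_mono {Q Q' : Set (Fin (n + 3) → ℂ)} (h : Q ⊆ Q') (m : ℕ) : wl Q m ⊆ wl Q' m := by
  rintro u ⟨h1, p, hp, x, hx⟩
  exact ⟨h1, p, h hp, x, hx⟩

theorem wl_finite (Q : Set (Fin (n + 3) → ℂ)) (m : ℕ) : (wl Q m).Finite :=
  (List.finite_length_le (Fin (n + 3)) m).subset fun _ h => h.1

theorem lft_lip {a b c a' b' c' : ℂ} {ρ δ : ℝ} (hc : ‖c‖ ≤ ρ) (ha : ‖a‖ ≤ ρ)
    (ha' : ‖a'‖ ≤ ρ) (hb' : ‖b'‖ ≤ ρ) (h1 : ‖a - a'‖ ≤ δ)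
    (h2 : ‖b - b'‖ ≤ δ) (h3 : ‖c - c'‖ ≤ δ) : |lft a b c - lft a' b' c'| ≤ 8 * (ρ * δ) := by
  have e : lft a b c - lft a' b' c' = (conj ((b - b') - (a - a')) * (c - a)).im +
      (conj (b' - a') * ((c - c') - (a - a'))).im := by
    unfold lft
    rw [← Complex.sub_im, ← Complex.add_im]
    congr 1
    simp only [map_sub]
    ring
  rw [e]
  have g1 : ‖(b - b') - (a - a')‖ ≤ 2 * δ := (norm_sub_le _ _).trans (by linarith)
  have g2 : ‖(c - c') - (a - a')‖ ≤ 2 * δ := (norm_sub_le _ _).trans (by linarith)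
  have g3 : ‖c - a‖ ≤ 2 * ρ := (norm_sub_le _ _).trans (by linarith)
  have g4 : ‖b' - a'‖ ≤ 2 * ρ := (norm_sub_le _ _).trans (by linarith)
  have hδ : 0 ≤ δ := (norm_nonneg _).trans h1
  have hρ : 0 ≤ ρ := (norm_nonneg _).trans ha
  refine (abs_add_le _ _).trans ?_
  have k1 : |(conj ((b - b') - (a - a')) * (c - a)).im| ≤ (2 * δ) * (2 * ρ) := by
    refine (Complex.abs_im_le_norm _).trans ?_
    rw [norm_mul, RCLike.norm_conj]
    exact mul_le_mul g1 g3 (norm_nonneg _) (by positivity)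
  have k2 : |(conj (b' - a') * ((c - c') - (a - a'))).im| ≤ (2 * ρ) * (2 * δ) := by
    refine (Complex.abs_im_le_norm _).trans ?_
    rw [norm_mul, RCLike.norm_conj]
    exact mul_le_mul g4 g2 (norm_nonneg _) (by positivity)
  linarith

theorem vt_norm {p : Fin (n + 3) → ℂ} {R : ℝ} (hR : Rb p ≤ R) {m : ℕ} {σ : Sy n}
    (hσ : σ.1.length ≤ m) : ‖vt p σ‖ ≤ R * (2 * m + 1) := by
  have h1 := VF_norm (p := p) m _ (VF_uf p σ.2 σ.1 m hσ)
  refine h1.trans ?_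
  gcongr

/-- The box count near a good polygon. -/
theorem level {p : Fin (n + 3) → ℂ} {m : ℕ} {η R s r δ : ℝ} (hp : IsConvexPolygon p)
    (hG : Good p m η) (hη : 0 < η) (hη1 : η ≤ 1) (hRp : Rb p + 1 ≤ R) (hs : 0 < s)
    (hsd : ∀ i, 2 * s ≤ ‖p (i + 1) - p i‖) (hr : 0 < r) (hr1 : ((n : ℝ) + 3) * r ≤ 1)
    (hr2 : 2 * r ≤ s) (hrη : r ≤ η) (hδ : 0 < δ)
    (hδr : (3 + 16 * R / s) * (2 * r) * ((m : ℝ) + 1) ^ 2 ≤ δ)
    (hδη : 8000 * (R * (2 * m + 1)) ^ 4 * δ ≤ η ^ 2) :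
    Fam (Bq p r) R s (2 * r) ∧ ∀ a b : ℝ, (wq (Bq p r) m (bx a b δ)).ncard ≤ mb n m := by
  have hRp0 := Rb_nonneg (p := p)
  have hR1 : 1 ≤ R := by linarith
  have hm : (0 : ℝ) ≤ m := m.cast_nonneg
  have hF : Fam (Bq p r) R s (2 * r) := by
    refine ⟨fun q hq => hq.1, fun q hq => ?_, fun q hq i => ?_, fun q hq q' hq' k => ?_⟩
    · refine le_trans ?_ hRp
      have h1 : Rb q ≤ ∑ i : Fin (n + 3), (‖p i‖ + r) := by
        unfold Rb
        refine Finset.sum_le_sum fun i _ => ?_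
        have h2 : q i = p i + (q i - p i) := by ring
        calc ‖q i‖ = ‖p i + (q i - p i)‖ := by rw [← h2]
          _ ≤ ‖p i‖ + r := (norm_add_le _ _).trans (by linarith [hq.2 i])
      rw [Finset.sum_add_distrib, Finset.sum_const, Finset.card_univ, Fintype.card_fin,
        nsmul_eq_mul] at h1
      push_cast at h1
      have h3 : ∑ i : Fin (n + 3), ‖p i‖ = Rb p := rfl
      linarith
    · have h1 := hsd i
      have h2 : p (i + 1) - p i = (q (i + 1) - q i) - ((q (i + 1) - p (i + 1)) - (q i - p i)) := by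
        ring
      have h3 : ‖p (i + 1) - p i‖ ≤ ‖q (i + 1) - q i‖ + (r + r) := by
        rw [h2]
        refine (norm_sub_le _ _).trans ?_
        have := norm_sub_le (q (i + 1) - p (i + 1)) (q i - p i)
        linarith [hq.2 i, hq.2 (i + 1)]
      linarith
    · have h2 : q k - q' k = (q k - p k) - (q' k - p k) := by ring
      rw [h2]
      exact (norm_sub_le _ _).trans (by linarith [hq.2 k, hq'.2 k])
  have hpQ : p ∈ Bq p r := Bq_self hp hr.le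
  obtain ⟨ρ, hρ⟩ : ∃ ρ, ρ = R * (2 * (m : ℝ) + 1) := ⟨_, rfl⟩
  have hρ1 : 1 ≤ ρ := by rw [hρ]; nlinarith
  rw [← hρ] at hδη
  have hnorm : ∀ σ ∈ SV (Bq p r) m, ∀ q ∈ Bq p r, ‖vt q σ‖ ≤ ρ := by
    intro σ hσ q hq
    rw [hρ]
    exact vt_norm (hF.rb q hq) hσ.1
  have hcl : ∀ σ ∈ SV (Bq p r) m, ∀ q ∈ Bq p r, ∀ q' ∈ Bq p r, ‖vt q σ - vt q' σ‖ ≤ δ := by
    intro σ hσ q hq q' hq'
    exact (vt_close hF hs (by positivity) hσ.1 hq hq').trans hδr
  have hρ4 : ρ ≤ ρ ^ 4 := by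
    have : (1 : ℝ) ≤ ρ ^ 3 := one_le_pow₀ hρ1
    nlinarith
  have hη2 : η ^ 2 ≤ η := by nlinarith
  have hsm : 8000 * (ρ * δ) ≤ η := by
    have : 8000 * (ρ * δ) ≤ 8000 * ρ ^ 4 * δ := by nlinarith
    linarith
  have hδρ : δ ≤ ρ * δ := by nlinarith
  have hsub : wl (Bq p r) m ⊆ wl (Bq p η) m := wl_mono (Bq_mono hrη) m
  refine ⟨hF, fun a b => fcount_box hF.conv (η := η / 2) (ρ := ρ) (δ := δ) (by positivity)
    (by linarith) hρ1 hδ (by nlinarith) hnorm hcl ?_ ?_ a b⟩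
  · intro σ hσ τ hτ
    have h1 := (hG σ.1 (hsub hσ) τ.1 (hsub hτ) σ.1 (hsub hσ) σ.2 τ.2 σ.2).1
    rcases h1 with h | h
    · left
      intro q hq
      have h2 := h q
      rw [Sp_eq] at h2
      have h3 := Gw_pos hq.1 σ.1
      have h4 := Gw_pos hq.1 τ.1
      have h5 : ‖uf q σ.1 (q σ.2) - uf q τ.1 (q τ.2)‖ ^ 2 = 0 :=
        (mul_eq_zero.1 h2).resolve_left (by positivity)
      have h6 := pow_eq_zero_iff (two_ne_zero) |>.1 h5
      exact sub_eq_zero.1 (norm_eq_zero.1 h6)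
    · right
      intro q hq
      have h2 := hcl σ hσ p hpQ q hq
      have h3 := hcl τ hτ p hpQ q hq
      have e : vt p σ - vt p τ = (vt q σ - vt q τ) + ((vt p σ - vt q σ) - (vt p τ - vt q τ)) := by
        ring
      have h4 : ‖vt p σ - vt p τ‖ ≤ ‖vt q σ - vt q τ‖ + (δ + δ) := by
        rw [e]
        refine (norm_add_le _ _).trans ?_
        have := norm_sub_le (vt p σ - vt q σ) (vt p τ - vt q τ)
        linarith
      have h5 : η ≤ ‖vt p σ - vt p τ‖ := h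
      linarith
  · intro σ hσ τ hτ ν hν
    have h1 := (hG σ.1 (hsub hσ) τ.1 (hsub hτ) ν.1 (hsub hν) σ.2 τ.2 ν.2).2
    rcases h1 with h | h
    · left
      intro q hq
      have h2 := h q
      rw [St_eq] at h2
      have h3 := Gw_pos hq.1 σ.1
      have h4 := Gw_pos hq.1 τ.1
      have h5 := Gw_pos hq.1 ν.1
      exact (mul_eq_zero.1 h2).resolve_left (by positivity)
    · right
      intro q hq
      have h2 := lft_lip (hnorm ν hν p hpQ) (hnorm σ hσ p hpQ) (hnorm σ hσ q hq)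
        (hnorm τ hτ q hq) (hcl σ hσ p hpQ q hq) (hcl τ hτ p hpQ q hq) (hcl ν hν p hpQ q hq)
      have h3 : η ≤ |lft (vt p σ) (vt p τ) (vt p ν)| := h
      have h4 := abs_sub_abs_le_abs_sub (lft (vt p σ) (vt p τ) (vt p ν))
        (lft (vt q σ) (vt q τ) (vt q ν))
      linarith

open Classical in
/-- The number of words of length at most `K` realised near a good polygon. -/
theorem wl_bound {Q : Set (Fin (n + 3) → ℂ)} {R s r δ : ℝ} (hF : Fam Q R s r) (hs : 0 < s)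
    (hδ : 0 < δ) (hδ1 : δ ≤ 1) (hR1 : 1 ≤ R) (hr1 : 8 * r / s ≤ δ) (hr2 : r ≤ δ) {m : ℕ}
    (hm1 : 1 ≤ m) (hm : ∀ a b : ℝ, (wq Q m (bx a b δ)).ncard ≤ mb n m) (K : ℕ) :
    ((wl Q K).ncard : ℝ) ≤ ((K : ℝ) + 1) * (100 * R / δ ^ 2 *
      (2 * ((n : ℝ) + 4) * (4 * R + 11) ^ 2 * ((m : ℝ) + 1) ^ 5) ^ (K / m) *
        ((n : ℝ) + 3) ^ m) := by
  have hsub : wl Q K ⊆ (((Finset.range (K + 1)).biUnion fun l =>
      (wq_finite Q l univ).toFinset : Finset _) : Set (List (Fin (n + 3)))) := by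
    rintro w ⟨hw, p, hp, x, hx⟩
    rw [Finset.mem_coe, Finset.mem_biUnion]
    refine ⟨w.length, Finset.mem_range.2 (by omega), ?_⟩
    rw [Set.Finite.mem_toFinset]
    exact ⟨rfl, p, hp, x, mem_univ _, hx⟩
  have h1 := Set.ncard_le_ncard hsub (Finset.finite_toSet _)
  rw [Set.ncard_coe_finset] at h1
  have h3 := h1.trans Finset.card_biUnion_le
  have h4 : ((wl Q K).ncard : ℝ) ≤ ∑ l ∈ Finset.range (K + 1),
      ((wq_finite Q l univ).toFinset.card : ℝ) := by exact_mod_cast h3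
  refine h4.trans ?_
  have h5 : ∀ l ∈ Finset.range (K + 1), ((wq_finite Q l univ).toFinset.card : ℝ) ≤
      100 * R / δ ^ 2 * (2 * ((n : ℝ) + 4) * (4 * R + 11) ^ 2 * ((m : ℝ) + 1) ^ 5) ^ (K / m) *
        ((n : ℝ) + 3) ^ m := by
    intro l hl
    rw [← Set.ncard_eq_toFinset_card _ (wq_finite _ _ _)]
    rw [Finset.mem_range] at hl
    exact fwords_bound hF hs hδ hδ1 hR1 hr1 hr2 hm1 hm (by omega)
  refine (Finset.sum_le_card_nsmul _ _ _ h5).trans (le_of_eq ?_)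
  rw [Finset.card_range, nsmul_eq_mul]
  push_cast
  rfl

end Pool.Agent.L5helper80.GR
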