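import Pool.Agent.L5helper80.GR.Box

set_option autoImplicit false

/-!
The unfolded vertices and the folded lines depend on the polygon in a Lipschitz way.
-/

namespace Pool.Agent.L5helper80.GR

open Complex Set MeasureTheory Filter Topology Pool.Agent.W780.PG Pool.Agent.W780.BB
  Pool.Agent.TH225.BL Pool.Agent.K3h17.BK Pool.Agent.K3h17.BT

open scoped Real ComplexConjugate

variable {n : ℕ}

/-- A family of polygons with bounds. -/
structure Fam (Q : Set (Fin (n + 3) → ℂ)) (R s r : ℝ) : Prop where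
  conv : ∀ p ∈ Q, IsConvexPolygon p
  rb : ∀ p ∈ Q, Rb p ≤ R
  sd : ∀ p ∈ Q, ∀ i, s ≤ ‖p (i + 1) - p i‖
  near : ∀ p ∈ Q, ∀ p' ∈ Q, ∀ k, ‖p k - p' k‖ ≤ r

theorem dir_arg_diff {v v' : ℂ} :
    ‖v‖ * ‖dir (arg v) - dir (arg v')‖ ≤ 2 * ‖v - v'‖ := by
  have h1 : (‖v‖ : ℂ) * dir (arg v) = v := Complex.norm_mul_exp_arg_mul_I v
  have h2 : (‖v'‖ : ℂ) * dir (arg v') = v' := Complex.norm_mul_exp_arg_mul_I v'
  have e : (‖v‖ : ℂ) * (dir (arg v) - dir (arg v')) =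
      (v - v') + ((‖v'‖ - ‖v‖ : ℝ) : ℂ) * dir (arg v') := by
    push_cast
    calc _ = (‖v‖ : ℂ) * dir (arg v) - ‖v‖ * dir (arg v') := by ring
      _ = v - ‖v‖ * dir (arg v') := by rw [h1]
      _ = (v - (‖v'‖ : ℂ) * dir (arg v')) + (‖v'‖ - ‖v‖) * dir (arg v') := by ring
      _ = _ := by rw [h2]
  have h3 : ‖v‖ * ‖dir (arg v) - dir (arg v')‖ = ‖(‖v‖ : ℂ) * (dir (arg v) - dir (arg v'))‖ := by
    rw [norm_mul, Complex.norm_real, norm_norm]
  rw [h3, e]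
  refine (norm_add_le _ _).trans ?_
  rw [norm_mul, Pool.Agent.W74.BB.norm_dir, mul_one, Complex.norm_real, Real.norm_eq_abs]
  have h4 : |‖v'‖ - ‖v‖| ≤ ‖v - v'‖ := by
    rw [norm_sub_rev]
    exact abs_norm_sub_norm_le _ _
  linarith

theorem dir_two_diff {p p' : Fin (n + 3) → ℂ} {s r : ℝ} (hs : 0 < s) (i : Fin (n + 3))
    (hsd : s ≤ ‖p (i + 1) - p i‖) (hr : ∀ k, ‖p k - p' k‖ ≤ r) :
    ‖dir (2 * tau p i) - dir (2 * tau p' i)‖ ≤ 8 * r / s := by
  have h1 := dir_arg_diff (v := p (i + 1) - p i) (v' := p' (i + 1) - p' i)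
  have h2 : ‖(p (i + 1) - p i) - (p' (i + 1) - p' i)‖ ≤ 2 * r := by
    have e : (p (i + 1) - p i) - (p' (i + 1) - p' i) =
        (p (i + 1) - p' (i + 1)) - (p i - p' i) := by ring
    rw [e]
    refine (norm_sub_le _ _).trans ?_
    linarith [hr i, hr (i + 1)]
  have h3 : s * ‖dir (tau p i) - dir (tau p' i)‖ ≤ 4 * r := by
    calc s * ‖dir (tau p i) - dir (tau p' i)‖ ≤
        ‖p (i + 1) - p i‖ * ‖dir (tau p i) - dir (tau p' i)‖ := by gcongr
      _ ≤ 2 * ‖(p (i + 1) - p i) - (p' (i + 1) - p' i)‖ := h1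
      _ ≤ 4 * r := by linarith
  have e : dir (2 * tau p i) - dir (2 * tau p' i) =
      (dir (tau p i) - dir (tau p' i)) * (dir (tau p i) + dir (tau p' i)) := by
    rw [show 2 * tau p i = tau p i + tau p i by ring,
      show 2 * tau p' i = tau p' i + tau p' i by ring, ← dir_mul, ← dir_mul]
    ring
  rw [e, norm_mul, le_div_iff₀ hs]
  have h4 : ‖dir (tau p i) + dir (tau p' i)‖ ≤ 2 := by
    refine (norm_add_le _ _).trans ?_
    rw [Pool.Agent.W74.BB.norm_dir, Pool.Agent.W74.BB.norm_dir]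
    norm_num
  have h5 : 0 ≤ ‖dir (tau p i) - dir (tau p' i)‖ := norm_nonneg _
  calc ‖dir (tau p i) - dir (tau p' i)‖ * ‖dir (tau p i) + dir (tau p' i)‖ * s
      ≤ ‖dir (tau p i) - dir (tau p' i)‖ * 2 * s := by gcongr
    _ = 2 * (s * ‖dir (tau p i) - dir (tau p' i)‖) := by ring
    _ ≤ 8 * r := by linarith

theorem rf_close {p p' : Fin (n + 3) → ℂ} {t r : ℝ} (i : Fin (n + 3))
    (ht : ‖dir (2 * tau p i) - dir (2 * tau p' i)‖ ≤ t) (hr : ∀ k, ‖p k - p' k‖ ≤ r)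
    (z z' : ℂ) : ‖rf p i z - rf p' i z'‖ ≤ ‖z - z'‖ + (2 * r + t * (‖z‖ + Rb p)) := by
  have e : rf p i z - rf p' i z' = (p i - p' i) +
      ((dir (2 * tau p i) - dir (2 * tau p' i)) * conj (z - p i) +
        dir (2 * tau p' i) * conj ((z - z') - (p i - p' i))) := by
    unfold rf
    simp only [map_sub]
    ring
  rw [e]
  refine (norm_add_le _ _).trans ?_
  have h1 := norm_add_le ((dir (2 * tau p i) - dir (2 * tau p' i)) * conj (z - p i))
    (dir (2 * tau p' i) * conj ((z - z') - (p i - p' i)))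
  rw [norm_mul, norm_mul, RCLike.norm_conj, RCLike.norm_conj, Pool.Agent.W74.BB.norm_dir,
    one_mul] at h1
  have h2 := norm_sub_le (z - z') (p i - p' i)
  have h3 : ‖z - p i‖ ≤ ‖z‖ + Rb p := (norm_sub_le _ _).trans (by linarith [le_Rb (p := p) i])
  have h4 : ‖dir (2 * tau p i) - dir (2 * tau p' i)‖ * ‖z - p i‖ ≤ t * (‖z‖ + Rb p) :=
    mul_le_mul ht h3 (norm_nonneg _) ((norm_nonneg _).trans ht)
  have h5 := hr i
  linarith

theorem uf_close {p p' : Fin (n + 3) → ℂ} {t r : ℝ}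
    (ht : ∀ i, ‖dir (2 * tau p i) - dir (2 * tau p' i)‖ ≤ t) (hr : ∀ k, ‖p k - p' k‖ ≤ r)
    (j : Fin (n + 3)) (m : ℕ) : ∀ w : List (Fin (n + 3)), w.length ≤ m →
    ‖uf p w (p j) - uf p' w (p' j)‖ ≤ r + w.length * (2 * r + t * (2 * Rb p * (m + 1))) := by
  have ht0 : 0 ≤ t := (norm_nonneg _).trans (ht j)
  have hR := Rb_nonneg (p := p)
  intro w
  induction w with
  | nil =>
    intro _
    rw [uf, uf]
    simpa using hr j
  | cons i w ih =>
    intro hw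
    rw [List.length_cons] at hw
    have h1 := ih (by omega)
    rw [uf, uf, List.length_cons]
    refine (rf_close i (ht i) hr _ _).trans ?_
    have h2 := VF_norm (p := p) w.length _ (VF_uf p j w _ le_rfl)
    have h3 : (w.length : ℝ) ≤ m := by exact_mod_cast (by omega : w.length ≤ m)
    have h4 : ‖uf p w (p j)‖ + Rb p ≤ 2 * Rb p * (m + 1) := by
      have : Rb p * (2 * (w.length : ℝ) + 1) ≤ Rb p * (2 * m + 1) := by gcongr
      linarith
    have h5 : t * (‖uf p w (p j)‖ + Rb p) ≤ t * (2 * Rb p * (m + 1)) := by gcongr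
    push_cast
    linarith

/-- The closeness of the unfolded vertices in a family. -/
theorem vt_close {Q : Set (Fin (n + 3) → ℂ)} {R s r : ℝ} (hF : Fam Q R s r) (hs : 0 < s)
    (hr0 : 0 ≤ r)
    {m : ℕ} {σ : Sy n} (hσ : σ.1.length ≤ m) {p p' : Fin (n + 3) → ℂ} (hp : p ∈ Q) (hp' : p' ∈ Q) :
    ‖vt p σ - vt p' σ‖ ≤ (3 + 16 * R / s) * r * ((m : ℝ) + 1) ^ 2 := by
  have ht : ∀ i, ‖dir (2 * tau p i) - dir (2 * tau p' i)‖ ≤ 8 * r / s := fun i =>
    dir_two_diff hs i (hF.sd p hp i) (hF.near p hp p' hp')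
  have h1 := uf_close ht (hF.near p hp p' hp') σ.2 m σ.1 hσ
  have h2 : (σ.1.length : ℝ) ≤ m := by exact_mod_cast hσ
  have hm : (0 : ℝ) ≤ m := m.cast_nonneg
  have hRp := hF.rb p hp
  have hRp0 := Rb_nonneg (p := p)
  unfold vt
  refine h1.trans ?_
  have h3 : 2 * r + 8 * r / s * (2 * Rb p * (m + 1)) ≤ (2 + 16 * R / s) * r * (m + 1) := by
    have e1 : 8 * r / s * (2 * Rb p * (m + 1)) ≤ 8 * r / s * (2 * R * (m + 1)) := by gcongr
    have e2 : 8 * r / s * (2 * R * (m + 1)) = 16 * R / s * r * (m + 1) := by ring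
    have e3 : 2 * r ≤ 2 * r * (m + 1) := by nlinarith
    nlinarith
  have h4 : 0 ≤ 2 * r + 8 * r / s * (2 * Rb p * (m + 1)) := by positivity
  calc r + (σ.1.length : ℝ) * (2 * r + 8 * r / s * (2 * Rb p * (m + 1)))
      ≤ r * ((m : ℝ) + 1) ^ 2 + (m + 1) * ((2 + 16 * R / s) * r * (m + 1)) := by
        have g1 : r ≤ r * ((m : ℝ) + 1) ^ 2 := by
          have : (1 : ℝ) ≤ ((m : ℝ) + 1) ^ 2 := by nlinarith
          nlinarith
        have g2 : (σ.1.length : ℝ) * (2 * r + 8 * r / s * (2 * Rb p * (m + 1))) ≤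
            (m + 1) * ((2 + 16 * R / s) * r * (m + 1)) := by
          apply mul_le_mul (by linarith) h3 h4 (by positivity)
        linarith
    _ = (3 + 16 * R / s) * r * ((m : ℝ) + 1) ^ 2 := by ring

/-! ### Folding of lines -/

theorem fl_dir {p p' : Fin (n + 3) → ℂ} {t : ℝ} (i : Fin (n + 3))
    (ht : ‖dir (2 * tau p i) - dir (2 * tau p' i)‖ ≤ t) (x y : ℝ × ℝ) :
    ‖dir (fl p i x).1 - dir (fl p' i y).1‖ ≤ ‖dir x.1 - dir y.1‖ + t := by
  have e : dir (fl p i x).1 - dir (fl p' i y).1 =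
      (dir (2 * tau p i) - dir (2 * tau p' i)) * conj (dir x.1) +
        dir (2 * tau p' i) * conj (dir x.1 - dir y.1) := by
    have g : ∀ a b : ℝ, dir (a - b) = dir a * conj (dir b) := by
      intro a b
      rw [dir_conj, dir_mul, sub_eq_add_neg]
    unfold fl
    simp only []
    rw [g, g, map_sub]
    ring
  rw [e]
  refine (norm_add_le _ _).trans ?_
  rw [norm_mul, norm_mul, RCLike.norm_conj, RCLike.norm_conj, Pool.Agent.W74.BB.norm_dir,
    Pool.Agent.W74.BB.norm_dir, one_mul, mul_one]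
  linarith

theorem im_close (θ φ : ℝ) (z z' : ℂ) :
    |(conj (dir θ) * z).im - (conj (dir φ) * z').im| ≤ ‖dir θ - dir φ‖ * ‖z‖ + ‖z - z'‖ := by
  have e : (conj (dir θ) * z).im - (conj (dir φ) * z').im =
      (conj (dir θ - dir φ) * z).im + (conj (dir φ) * (z - z')).im := by
    rw [map_sub, sub_mul, mul_sub, Complex.sub_im, Complex.sub_im]
    ring
  rw [e]
  refine (abs_add_le _ _).trans (add_le_add ?_ ?_)
  · refine (Complex.abs_im_le_norm _).trans ?_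
    rw [norm_mul, RCLike.norm_conj]
  · exact abs_im_le φ _

theorem fl_snd {p p' : Fin (n + 3) → ℂ} {t r R Δ : ℝ} (i : Fin (n + 3)) (hR : Rb p ≤ R)
    (ht : ‖dir (2 * tau p i) - dir (2 * tau p' i)‖ ≤ t) (hr : ∀ k, ‖p k - p' k‖ ≤ r)
    (x y : ℝ × ℝ) (hΔ : ‖dir x.1 - dir y.1‖ + t ≤ Δ) :
    |(fl p i x).2 - (fl p' i y).2| ≤ |x.2 - y.2| + (2 * R * Δ + 2 * r) := by
  have h1 := im_close x.1 y.1 (p i) (p' i)
  have h2 := im_close (2 * tau p i - x.1) (2 * tau p' i - y.1) (p i) (p' i)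
  have h3 : ‖dir (2 * tau p i - x.1) - dir (2 * tau p' i - y.1)‖ ≤ Δ := (fl_dir i ht x y).trans hΔ
  have h0 : 0 ≤ t := (norm_nonneg _).trans ht
  have h4 : ‖dir x.1 - dir y.1‖ ≤ Δ := by linarith
  have hRi : ‖p i‖ ≤ R := (le_Rb i).trans hR
  have hΔ0 : 0 ≤ Δ := (norm_nonneg _).trans h4
  have h5 : ‖dir x.1 - dir y.1‖ * ‖p i‖ ≤ Δ * R := mul_le_mul h4 hRi (norm_nonneg _) hΔ0
  have h6 : ‖dir (2 * tau p i - x.1) - dir (2 * tau p' i - y.1)‖ * ‖p i‖ ≤ Δ * R :=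
    mul_le_mul h3 hRi (norm_nonneg _) hΔ0
  have h7 := hr i
  have e : (fl p i x).2 - (fl p' i y).2 =
      ((conj (dir x.1) * p i).im - (conj (dir y.1) * p' i).im) +
      ((conj (dir (2 * tau p i - x.1)) * p i).im - (conj (dir (2 * tau p' i - y.1)) * p' i).im) -
      (x.2 - y.2) := by
    unfold fl
    simp only []
    ring
  rw [e]
  refine (abs_sub _ _).trans ?_
  have h8 := abs_add_le ((conj (dir x.1) * p i).im - (conj (dir y.1) * p' i).im)
    ((conj (dir (2 * tau p i - x.1)) * p i).im - (conj (dir (2 * tau p' i - y.1)) * p' i).im)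
  linarith

theorem fw_close {p p' : Fin (n + 3) → ℂ} {t r R Δ : ℝ} (hR : Rb p ≤ R)
    (ht : ∀ i, ‖dir (2 * tau p i) - dir (2 * tau p' i)‖ ≤ t) (hr : ∀ k, ‖p k - p' k‖ ≤ r)
    (w : List (Fin (n + 3))) : ∀ x y : ℝ × ℝ, ‖dir x.1 - dir y.1‖ + w.length * t ≤ Δ →
    ‖dir (fw p w x).1 - dir (fw p' w y).1‖ ≤ ‖dir x.1 - dir y.1‖ + w.length * t ∧
    |(fw p w x).2 - (fw p' w y).2| ≤ |x.2 - y.2| + w.length * (2 * R * Δ + 2 * r) := by
  have ht0 : 0 ≤ t := (norm_nonneg _).trans (ht 0)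
  induction w with
  | nil => intro x y _; simp [fw]
  | cons i w ih =>
    intro x y h
    rw [List.length_cons] at h ⊢
    push_cast at h ⊢
    have hw : (0 : ℝ) ≤ w.length := Nat.cast_nonneg _
    have hwt : 0 ≤ (w.length : ℝ) * t := by positivity
    have h1 := fl_dir i (ht i) x y
    have h2 := fl_snd i hR (ht i) hr x y (Δ := Δ) (by linarith)
    obtain ⟨h3, h4⟩ := ih (fl p i x) (fl p' i y) (by linarith)
    rw [fw, fw]
    exact ⟨by linarith, by linarith⟩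

/-- Directions which are close have close angles up to a period. -/
theorem angle_close (θ θ' d : ℝ) (h : ‖dir θ - dir θ'‖ ≤ d) :
    ∃ k : ℤ, |θ + 2 * π * k - θ'| ≤ 2 * d := by
  have hpi := Real.pi_pos
  obtain ⟨k, hk1, hk2⟩ : ∃ k : ℤ, -π ≤ θ + 2 * π * k - θ' ∧ θ + 2 * π * k - θ' ≤ π := by
    refine ⟨-⌊(θ - θ' + π) / (2 * π)⌋, ?_⟩
    have h1 := Int.floor_le ((θ - θ' + π) / (2 * π))
    have h2 := Int.lt_floor_add_one ((θ - θ' + π) / (2 * π))
    rw [le_div_iff₀ (by positivity)] at h1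
    rw [div_lt_iff₀ (by positivity)] at h2
    push_cast
    constructor <;> nlinarith
  refine ⟨k, ?_⟩
  obtain ⟨φ, hφ⟩ : ∃ φ, φ = θ + 2 * π * k - θ' := ⟨_, rfl⟩
  rw [← hφ] at hk1 hk2 ⊢
  have h1 : dir θ = dir θ' * dir φ := by
    rw [dir_mul, hφ, ← dir_period θ k]
    congr 1
    ring
  have h2 : ‖dir θ - dir θ'‖ = 2 * |Real.sin (φ / 2)| := by
    have e : dir θ - dir θ' = dir θ' * (exp (I * (φ : ℂ)) - 1) := by
      rw [h1]
      unfold dir
      rw [mul_sub, mul_one, mul_comm I (φ : ℂ)]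
    rw [e, norm_mul, Pool.Agent.W74.BB.norm_dir, one_mul,
      Complex.norm_exp_I_mul_ofReal_sub_one, Real.norm_eq_abs, abs_mul, abs_two]
  have h3 : |φ / 2| ≤ π / 2 := by
    rw [abs_le]
    constructor <;> linarith
  have h4 := Real.mul_abs_le_abs_sin h3
  have h5 : (1 / 2 : ℝ) * |φ / 2| ≤ 2 / π * |φ / 2| := by
    apply mul_le_mul_of_nonneg_right _ (abs_nonneg _)
    rw [div_le_div_iff₀ (by norm_num) hpi]
    linarith [Real.pi_lt_four]
  have h6 : |φ / 2| = |φ| / 2 := by rw [abs_div, abs_two]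
  rw [h6] at h4 h5
  linarith

end Pool.Agent.L5helper80.GR
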