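import Pool.Agent.K3h17.BK.Kat

set_option autoImplicit false

/-!
Families of polygons: near a family of lines only linearly many words of a given length are realised
in the polygons of the family.
-/

namespace Pool.Agent.L5helper80.GR

open Complex Set MeasureTheory Filter Topology Pool.Agent.W780.PG Pool.Agent.W780.BB
  Pool.Agent.TH225.BL Pool.Agent.K3h17.BK

open scoped Real ComplexConjugate

variable {n : ℕ}

/-- A word and a vertex. -/
abbrev Sy (n : ℕ) := List (Fin (n + 3)) × Fin (n + 3)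

/-- The unfolded vertex. -/
noncomputable def vt (p : Fin (n + 3) → ℂ) (σ : Sy n) : ℂ := uf p σ.1 (p σ.2)

/-- The symbols with a word of length at most `m` which is realised in a polygon of the family. -/
def SV (Q : Set (Fin (n + 3) → ℂ)) (m : ℕ) : Set (Sy n) :=
  {σ | σ.1.length ≤ m ∧ ∃ p ∈ Q, ∃ x, RW p σ.1 x}

/-- The lines `x₀ p`, `p` in the family, are adapted to the set `B` of lines. -/
structure Adapted (Q : Set (Fin (n + 3) → ℂ)) (m : ℕ) (B : Set (ℝ × ℝ))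
    (x₀ : (Fin (n + 3) → ℂ) → ℝ × ℝ) : Prop where
  dich : ∀ σ ∈ SV Q m, (∀ p ∈ Q, ph (x₀ p) (vt p σ) = 0) ∨
    (∀ p ∈ Q, ∀ p' ∈ Q, ∀ x ∈ B, 0 < ph (x₀ p) (vt p σ) * ph x (vt p' σ))
  order : ∀ σ ∈ SV Q m, ∀ τ ∈ SV Q m, (∀ p ∈ Q, ph (x₀ p) (vt p σ) = 0) →
    (∀ p ∈ Q, ph (x₀ p) (vt p τ) = 0) → ∀ p ∈ Q, ∀ p' ∈ Q,
      tt (x₀ p) (vt p σ) < tt (x₀ p) (vt p τ) → tt (x₀ p') (vt p' σ) < tt (x₀ p') (vt p' τ)

theorem ph_sg {p p' : Fin (n + 3) → ℂ} (hr : ∀ i z, rf p i (rf p i z) = z)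
    (hr' : ∀ i z, rf p' i (rf p' i z) = z) (u : List (Fin (n + 3))) (x x' : ℝ × ℝ)
    (y y' : ℂ) : ph (fw p u x) y * ph (fw p' u x') y' = ph x (uf p u y) * ph x' (uf p' u y') := by
  rw [ph_fw hr, ph_fw hr']
  have : ((-1 : ℝ) ^ u.length) * (-1) ^ u.length = 1 := by
    rw [← mul_pow]; norm_num
  calc _ = ((-1 : ℝ) ^ u.length * (-1) ^ u.length) * (ph x (uf p u y) * ph x' (uf p' u y')) := by
        ring
    _ = _ := by rw [this, one_mul]

/-- Where two words branch, an unfolded vertex separates the lines. -/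
theorem fbranch {p p' : Fin (n + 3) → ℂ} (hp : IsConvexPolygon p) (hp' : IsConvexPolygon p')
    {u v v' : List (Fin (n + 3))} {j j' : Fin (n + 3)} {x x' : ℝ × ℝ}
    (h1 : RW p (u ++ j :: v) x) (h2 : RW p' (u ++ j' :: v') x') (hne : j ≠ j')
    (hx : ∀ k, ph x (uf p u (p k)) ≠ 0) :
    ∃ k, ph x (uf p u (p k)) * ph x' (uf p' u (p' k)) < 0 := by
  obtain ⟨hr1, -⟩ := Pool.Agent.W347.BB.ref n p hp
  obtain ⟨hr1', -⟩ := Pool.Agent.W347.BB.ref n p' hp'
  rw [RW_append, RW] at h1 h2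
  obtain ⟨-, a1, a2, -⟩ := h1
  obtain ⟨-, b1, b2, -⟩ := h2
  have hnz : ∀ k, ph (fw p u x) (p k) ≠ 0 := by
    intro k
    rw [ph_fw hr1]
    exact mul_ne_zero (pow_ne_zero _ (by norm_num)) (hx k)
  by_cases c1 : ph (fw p u x) (p j') < 0
  · by_cases c2 : 0 < ph (fw p u x) (p (j' + 1))
    · exact absurd (uniq_side hp a1 a2 c1 c2) hne
    · refine ⟨j' + 1, ?_⟩
      rw [← ph_sg hr1 hr1']
      exact mul_neg_of_neg_of_pos (lt_of_le_of_ne (not_lt.1 c2) (hnz _)) b2
  · refine ⟨j', ?_⟩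
    rw [← ph_sg hr1 hr1']
    exact mul_neg_of_pos_of_neg (lt_of_le_of_ne (not_lt.1 c1) (Ne.symm (hnz _))) b1

theorem fweak {p : Fin (n + 3) → ℂ} (hr : ∀ i z, rf p i (rf p i z) = z) {m : ℕ} {x₀ x : ℝ × ℝ}
    (H : ∀ u : List (Fin (n + 3)), u.length ≤ m → RW p u x →
      ∀ k, 0 ≤ ph x₀ (uf p u (p k)) * ph x (uf p u (p k)))
    (v : List (Fin (n + 3))) : ∀ u : List (Fin (n + 3)), (u ++ v).length ≤ m + 1 →
      RW p (u ++ v) x → WW p v (fw p u x₀) := by
  induction v with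
  | nil => intro u _ _; trivial
  | cons i v ih =>
    intro u hu h
    have h' := h
    rw [RW_append] at h
    obtain ⟨h0, h1, h2, h3⟩ := h
    have hul : u.length ≤ m := by
      rw [List.length_append, List.length_cons] at hu
      omega
    have hprod : ∀ k, 0 ≤ ph (fw p u x₀) (p k) * ph (fw p u x) (p k) := by
      intro k
      rw [ph_mul hr]
      exact H u hul h0 k
    refine ⟨?_, ?_, ?_⟩
    · by_contra hcon
      push Not at hcon
      have := hprod i
      have := mul_neg_of_pos_of_neg hcon h1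
      linarith
    · by_contra hcon
      push Not at hcon
      have := hprod (i + 1)
      have := mul_neg_of_neg_of_pos hcon h2
      linarith
    · have e : fl p i (fw p u x₀) = fw p (u ++ [i]) x₀ := by
        rw [fw_append]
        rfl
      rw [e]
      refine ih (u ++ [i]) ?_ ?_
      · rw [List.append_assoc]
        exact hu
      · rw [List.append_assoc]
        exact h'

/-- The main step for the injectivity. -/
theorem finj_aux {Q : Set (Fin (n + 3) → ℂ)} (hQ : ∀ p ∈ Q, IsConvexPolygon p) {m : ℕ}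
    {B : Set (ℝ × ℝ)} {x₀ : (Fin (n + 3) → ℂ) → ℝ × ℝ} (hA : Adapted Q m B x₀)
    {p p' : Fin (n + 3) → ℂ} (hp : p ∈ Q) (hp' : p' ∈ Q) {x x' : ℝ × ℝ} {κ : ℝ}
    {u q r r' : List (Fin (n + 3))} {j b b' k k' : Fin (n + 3)}
    (hm : (u ++ j :: q).length ≤ m) (hx : x ∈ B) (hx' : x' ∈ B)
    (h1 : RW p ((u ++ j :: q) ++ b :: r) x) (h2 : RW p' ((u ++ j :: q) ++ b' :: r') x')
    (hsl : κ * be (x₀ p') x' ≤ 0)
    (hk : ph (x₀ p') (uf p' u (p' k)) = 0) (hkx : κ * ph x' (uf p' u (p' k)) < 0)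
    (hk' : ph x (uf p (u ++ j :: q) (p k')) * ph x' (uf p' (u ++ j :: q) (p' k')) < 0)
    (hkx' : 0 < κ * ph x' (uf p' (u ++ j :: q) (p' k'))) : False := by
  obtain ⟨hr1, -, -, hr4, -⟩ := Pool.Agent.W347.BB.ref n p (hQ p hp)
  obtain ⟨hr1', -, -, hr4', -⟩ := Pool.Agent.W347.BB.ref n p' (hQ p' hp')
  obtain ⟨v, i, hvi⟩ : ∃ v i, j :: q = v ++ [i] := by
    rcases List.eq_nil_or_concat (j :: q) with h | ⟨v, i, h⟩
    · simp at h
    · exact ⟨v, i, h.trans List.concat_eq_append⟩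
  rw [hvi] at hm h1 h2 hk' hkx'
  -- the prefixes
  have h2' := h2
  rw [RW_append] at h2'
  have hV : ((u ++ (v ++ [i]), k') : Sy n) ∈ SV Q m := ⟨hm, p', hp', x', h2'.1⟩
  have ha' : ph (x₀ p') (uf p' (u ++ (v ++ [i])) (p' k')) = 0 := by
    rcases hA.dich _ hV with h | h
    · exact h p' hp'
    · exfalso
      have c1 := h p' hp' p hp x hx
      have c2 := h p' hp' p' hp' x' hx'
      unfold vt at c1 c2
      simp only [] at c1 c2
      obtain ⟨A, hA'⟩ : ∃ A, A = ph (x₀ p') (uf p' (u ++ (v ++ [i])) (p' k')) := ⟨_, rfl⟩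
      rw [← hA'] at c1 c2
      have c3 : 0 < A ^ 2 *
          (ph x (uf p (u ++ (v ++ [i])) (p k')) * ph x' (uf p' (u ++ (v ++ [i])) (p' k'))) := by
        have := mul_pos c1 c2
        nlinarith
      have c4 : 0 ≤ A ^ 2 := sq_nonneg _
      nlinarith
  have s1 := ph_slope (x := x') ha' hk
  have s2 : tt (x₀ p') (uf p' (u ++ (v ++ [i])) (p' k')) < tt (x₀ p') (uf p' u (p' k)) := by
    by_contra hcon
    push Not at hcon
    have : κ * ((tt (x₀ p') (uf p' u (p' k)) - tt (x₀ p') (uf p' (u ++ (v ++ [i])) (p' k'))) *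
        be (x₀ p') x') =
        (tt (x₀ p') (uf p' u (p' k)) - tt (x₀ p') (uf p' (u ++ (v ++ [i])) (p' k'))) *
          (κ * be (x₀ p') x') := by
      ring
    have h5 : 0 ≤ (tt (x₀ p') (uf p' u (p' k)) - tt (x₀ p') (uf p' (u ++ (v ++ [i])) (p' k'))) *
        (κ * be (x₀ p') x') := mul_nonneg_of_nonpos_of_nonpos (by linarith) hsl
    rw [s1, mul_add, this] at hkx
    linarith
  -- the signs at the last crossing
  have g : ∀ (P : Fin (n + 3) → ℂ) (y : ℝ × ℝ) (c : Fin (n + 3)) (t : List (Fin (n + 3))),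
      RW P ((u ++ (v ++ [i])) ++ c :: t) y →
      ph (fw P (u ++ v) y) (P i) < 0 ∧ 0 < ph (fw P (u ++ v) y) (P (i + 1)) := by
    intro P y c t h
    rw [RW_append, RW_append u] at h
    obtain ⟨⟨-, h3⟩, -⟩ := h
    refine ⟨?_, ?_⟩
    · rw [RW_append] at h3
      rw [fw_append]
      exact h3.2.1
    · rw [RW_append] at h3
      rw [fw_append]
      exact h3.2.2.1
  obtain ⟨g1, g2⟩ := g p x b r h1
  obtain ⟨g1', g2'⟩ := g p' x' b' r' h2
  have hl : ∀ (P : Fin (n + 3) → ℂ) c, uf P (u ++ (v ++ [i])) c = uf P (u ++ v) (rf P i c) := by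
    intro P c
    rw [← List.append_assoc, uf_append]
    rfl
  have hk1 : k' ≠ i := by
    rintro rfl
    rw [hl, hl, hr4 _ _ (Pool.Agent.W174.PG.lft_left _ _),
      hr4' _ _ (Pool.Agent.W174.PG.lft_left _ _), ← ph_sg hr1 hr1'] at hk'
    have := mul_pos_of_neg_of_neg g1 g1'
    linarith
  have hk2 : k' ≠ i + 1 := by
    rintro rfl
    rw [hl, hl, hr4 _ _ (Pool.Agent.W174.PG.lft_right _ _),
      hr4' _ _ (Pool.Agent.W174.PG.lft_right _ _), ← ph_sg hr1 hr1'] at hk'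
    have := mul_pos g2 g2'
    linarith
  have hW := fweak (p := p') hr1' (m := m) (x₀ := x₀ p') (x := x') (fun w hw hRW k => by
    rcases hA.dich (w, k) ⟨hw, p', hp', x', hRW⟩ with h | h
    · have := h p' hp'
      unfold vt at this
      simp only [] at this
      rw [this, zero_mul]
    · exact (h p' hp' p' hp' x' hx').le) (v ++ [i]) u (by omega) h2'.1
  have o1 : ph (fw p' u (x₀ p')) (p' k) = 0 := by rw [ph_fw hr1', hk, mul_zero]
  have o2 : ph (fw p' u (x₀ p')) (uf p' (v ++ [i]) (p' k')) = 0 := by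
    rw [ph_fw hr1', ← uf_append, ha', mul_zero]
  have o3 := ord (hQ p' hp') i v (fw p' u (x₀ p')) (p' k) hW o1
    (fun j => Pool.Agent.W174.PG.l_nonneg (hQ p' hp') j k) k' hk1 hk2 o2
  have o4 := tt_fw hr1' u (x₀ p') (p' k) (uf p' (v ++ [i]) (p' k'))
  rw [← uf_append] at o4
  linarith

theorem SV_finite (Q : Set (Fin (n + 3) → ℂ)) (m : ℕ) : (SV Q m).Finite := by
  have h1 : (({l : List (Fin (n + 3)) | l.length ≤ m}) ×ˢ (univ : Set (Fin (n + 3)))).Finite :=
    (List.finite_length_le (Fin (n + 3)) m).prod finite_univ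
  exact h1.subset fun σ hσ => ⟨hσ.1, mem_univ _⟩

open Classical in
/-- The count for one sign of the slope. -/
theorem fcount_half {Q : Set (Fin (n + 3) → ℂ)} (hQ : ∀ p ∈ Q, IsConvexPolygon p) {m : ℕ}
    {B : Set (ℝ × ℝ)} {x₀ : (Fin (n + 3) → ℂ) → ℝ × ℝ} (hA : Adapted Q m B x₀) (κ : ℝ)
    (hκ : κ = 1 ∨ κ = -1) (F : Finset (List (Fin (n + 3))))
    (P : List (Fin (n + 3)) → (Fin (n + 3) → ℂ)) (X : List (Fin (n + 3)) → ℝ × ℝ)
    (h : ∀ w ∈ F, w.length = m ∧ P w ∈ Q ∧ X w ∈ B ∧ RW (P w) w (X w) ∧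
      (∀ σ ∈ SV Q m, ph (X w) (vt (P w) σ) ≠ 0) ∧ κ * be (x₀ (P w)) (X w) ≤ 0) :
    F.card ≤ m * (n + 3) + 1 := by
  rcases F.eq_empty_or_nonempty with rfl | hF
  · simp
  have hκ2 : κ * κ = 1 := by rcases hκ with rfl | rfl <;> norm_num
  set S : Finset (Sy n) := (SV_finite Q m).toFinset with hS
  have hSm : ∀ σ, σ ∈ S ↔ σ ∈ SV Q m := fun σ => by rw [hS, Set.Finite.mem_toFinset]
  set PP : List (Fin (n + 3)) → Finset (Sy n) := fun w =>
    S.filter fun σ => (∀ p ∈ Q, ph (x₀ p) (vt p σ) = 0) ∧ 0 < κ * ph (X w) (vt (P w) σ) with hPP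
  obtain ⟨W, hWF, hWmax⟩ := Finset.exists_max_image F (fun w => (PP w).card) hF
  have hspec : ∀ w ∈ F.erase W, ∃ dj : ℕ × Fin (n + 3), dj.1 < m ∧ ∃ u j' v v' k,
      w = u ++ dj.2 :: v ∧ W = u ++ j' :: v' ∧ dj.2 ≠ j' ∧ u.length = dj.1 ∧
      (∀ p ∈ Q, ph (x₀ p) (vt p (u, k)) = 0) ∧ κ * ph (X w) (vt (P w) (u, k)) < 0 := by
    intro w hw
    rw [Finset.mem_erase] at hw
    obtain ⟨hwW, hwF⟩ := hw
    obtain ⟨a1, a2, a3, a4, a5, a6⟩ := h w hwF
    obtain ⟨b1, b2, b3, b4, b5, b6⟩ := h W hWF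
    obtain ⟨u, j, j', v, v', hu1, hu2, hjj⟩ := list_branch w W (a1.trans b1.symm) hwW
    have hum : u.length < m := by
      rw [← a1, hu1]
      simp
    have a4' : RW (P w) (u ++ j :: v) (X w) := by rw [← hu1]; exact a4
    have b4' : RW (P W) (u ++ j' :: v') (X W) := by rw [← hu2]; exact b4
    have hur : RW (P w) u (X w) := by
      rw [RW_append] at a4'
      exact a4'.1
    have hSV : ∀ k, ((u, k) : Sy n) ∈ SV Q m := fun k => ⟨hum.le, P w, a2, X w, hur⟩
    obtain ⟨k, hk2⟩ := fbranch (hQ _ a2) (hQ _ b2) a4' b4' hjj (fun k => a5 _ (hSV k))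
    have hk0 : ∀ p ∈ Q, ph (x₀ p) (vt p (u, k)) = 0 := by
      rcases hA.dich (u, k) (hSV k) with hh | hh
      · exact hh
      · exfalso
        have c1 := hh (P w) a2 (P w) a2 (X w) a3
        have c2 := hh (P w) a2 (P W) b2 (X W) b3
        obtain ⟨A, hA'⟩ : ∃ A, A = ph (x₀ (P w)) (vt (P w) (u, k)) := ⟨_, rfl⟩
        rw [← hA'] at c1 c2
        have c3 := mul_pos c1 c2
        have c4 : 0 ≤ A ^ 2 := sq_nonneg _
        have hk3 : ph (X w) (vt (P w) (u, k)) * ph (X W) (vt (P W) (u, k)) < 0 := hk2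
        nlinarith
    refine ⟨(u.length, j), hum, u, j', v, v', k, hu1, hu2, hjj, rfl, hk0, ?_⟩
    by_contra hcon
    push Not at hcon
    -- then the positive set of `W` is smaller
    have d1 : 0 < κ * ph (X w) (vt (P w) (u, k)) := by
      refine lt_of_le_of_ne hcon (Ne.symm (mul_ne_zero ?_ (a5 _ (hSV k))))
      rintro rfl
      norm_num at hκ2
    have d2 : κ * ph (X W) (vt (P W) (u, k)) < 0 := by
      have : (κ * ph (X w) (vt (P w) (u, k))) * (κ * ph (X W) (vt (P W) (u, k))) < 0 := by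
        calc _ = (κ * κ) * (ph (X w) (vt (P w) (u, k)) * ph (X W) (vt (P W) (u, k))) := by ring
          _ < 0 := by rw [hκ2, one_mul]; exact hk2
      by_contra hc
      push Not at hc
      have := mul_nonneg d1.le hc
      linarith
    have hlt : (PP W).card < (PP w).card := by
      apply Finset.card_lt_card
      rw [Finset.ssubset_iff_of_subset]
      · refine ⟨(u, k), ?_, ?_⟩
        · rw [hPP, Finset.mem_filter]
          exact ⟨(hSm _).2 (hSV k), hk0, d1⟩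
        · rw [hPP, Finset.mem_filter]
          rintro ⟨-, -, h3⟩
          linarith
      · intro c hc
        rw [hPP, Finset.mem_filter] at hc ⊢
        obtain ⟨hc1, hc2, hc3⟩ := hc
        refine ⟨hc1, hc2, ?_⟩
        have hc1' := (hSm c).1 hc1
        have s1 := ph_slope (x := X W) (hc2 _ b2) (hk0 _ b2)
        have s2 := ph_slope (x := X w) (hk0 _ a2) (hc2 _ a2)
        have s3 : tt (x₀ (P W)) (vt (P W) c) < tt (x₀ (P W)) (vt (P W) (u, k)) := by
          by_contra hcon2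
          push Not at hcon2
          have : 0 ≤ (tt (x₀ (P W)) (vt (P W) (u, k)) - tt (x₀ (P W)) (vt (P W) c)) *
              (κ * be (x₀ (P W)) (X W)) :=
            mul_nonneg_of_nonpos_of_nonpos (by linarith) b6
          rw [s1] at d2
          nlinarith
        have s3' := hA.order c hc1' (u, k) (hSV k) hc2 hk0 (P W) b2 (P w) a2 s3
        have s4 : 0 ≤ (tt (x₀ (P w)) (vt (P w) c) - tt (x₀ (P w)) (vt (P w) (u, k))) *
            (κ * be (x₀ (P w)) (X w)) :=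
          mul_nonneg_of_nonpos_of_nonpos (by linarith) a6
        rw [s2]
        nlinarith
    exact absurd (hWmax w hwF) (not_le.2 hlt)
  choose! f hf1 hf2 using hspec
  have hcard : (F.erase W).card ≤ (Finset.range m ×ˢ (Finset.univ : Finset (Fin (n + 3)))).card := by
    apply Finset.card_le_card_of_injOn f
    · intro w hw
      simp only [Finset.coe_product, Finset.coe_range, Finset.coe_univ, Set.mem_prod, Set.mem_Iio,
        Set.mem_univ, and_true]
      exact hf1 w hw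
    · intro w1 hw1 w2 hw2 hf
      obtain ⟨u1, j1, v1, v1', k1, p1, p2, p3, p4, p5, p6⟩ := hf2 w1 hw1
      obtain ⟨u2, j2, v2, v2', k2, q1, q2, q3, q4, q5, q6⟩ := hf2 w2 hw2
      have hF1 := Finset.mem_of_mem_erase hw1
      have hF2 := Finset.mem_of_mem_erase hw2
      obtain ⟨a1, a2, a3, a4, a5, a6⟩ := h w1 hF1
      obtain ⟨b1, b2, b3, b4, b5, b6⟩ := h w2 hF2
      rw [← hf] at q1 q3 q4
      have hu : u2 = u1 := by
        have e1 : u1 = W.take (f w1).1 := by rw [p2, ← p4, List.take_left]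
        have e2 : u2 = W.take (f w1).1 := by rw [q2, ← q4, List.take_left]
        rw [e1, e2]
      subst hu
      by_contra hne
      have hv : v1 ≠ v2 := by
        rintro rfl
        exact hne (p1.trans q1.symm)
      have hlen : v1.length = v2.length := by
        have e1 : w1.length = w2.length := a1.trans b1.symm
        rw [p1, q1] at e1
        simpa using e1
      obtain ⟨q, c, c', r, r', hq1, hq2, hcc⟩ := list_branch v1 v2 hlen hv
      have e1 : w1 = (u2 ++ (f w1).2 :: q) ++ c :: r := by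
        rw [hq1] at p1
        rw [List.append_assoc, List.cons_append]
        exact p1
      have e2 : w2 = (u2 ++ (f w1).2 :: q) ++ c' :: r' := by
        rw [hq2] at q1
        rw [List.append_assoc, List.cons_append]
        exact q1
      have hlm : (u2 ++ (f w1).2 :: q).length ≤ m := by
        have : w1.length = m := a1
        rw [e1, List.length_append] at this
        omega
      have h1' : RW (P w1) ((u2 ++ (f w1).2 :: q) ++ c :: r) (X w1) := by rw [← e1]; exact a4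
      have h2' : RW (P w2) ((u2 ++ (f w1).2 :: q) ++ c' :: r') (X w2) := by rw [← e2]; exact b4
      have hur : RW (P w1) (u2 ++ (f w1).2 :: q) (X w1) := by
        rw [RW_append] at h1'
        exact h1'.1
      obtain ⟨k', hk2⟩ := fbranch (hQ _ a2) (hQ _ b2) h1' h2' hcc
        (fun k => a5 (_, k) ⟨hlm, P w1, a2, X w1, hur⟩)
      obtain ⟨A, hA1⟩ : ∃ A, A = ph (X w1) (uf (P w1) (u2 ++ (f w1).2 :: q) (P w1 k')) := ⟨_, rfl⟩
      obtain ⟨A', hA2⟩ : ∃ A, A = ph (X w2) (uf (P w2) (u2 ++ (f w1).2 :: q) (P w2 k')) := ⟨_, rfl⟩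
      have hk3 : A * A' < 0 := by rw [hA1, hA2]; exact hk2
      have hsgn : (κ * A) * (κ * A') < 0 := by
        calc _ = (κ * κ) * (A * A') := by ring
          _ < 0 := by rw [hκ2, one_mul]; exact hk3
      rcases mul_neg_iff.1 hsgn with ⟨s1, s2⟩ | ⟨s1, s2⟩
      · refine finj_aux hQ hA b2 a2 hlm b3 a3 h2' h1' a6 (p5 _ a2) p6 (k' := k') ?_ ?_
        · rw [mul_comm]
          exact hk2
        · rw [← hA1]
          exact s1
      · refine finj_aux hQ hA a2 b2 hlm a3 b3 h1' h2' b6 (q5 _ b2) q6 (k' := k') hk2 ?_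
        rw [← hA2]
        exact s2
  rw [Finset.card_product, Finset.card_range, Finset.card_univ, Fintype.card_fin] at hcard
  have := Finset.card_erase_add_one hWF
  omega

/-- The words of length `m` realised in the family by a line of the set `U`. -/
def wq (Q : Set (Fin (n + 3) → ℂ)) (m : ℕ) (U : Set (ℝ × ℝ)) : Set (List (Fin (n + 3))) :=
  {w | w.length = m ∧ ∃ p ∈ Q, ∃ x ∈ U, RW p w x}

theorem wq_finite (Q : Set (Fin (n + 3) → ℂ)) (m : ℕ) (U : Set (ℝ × ℝ)) : (wq Q m U).Finite :=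
  (List.finite_length_eq (Fin (n + 3)) m).subset fun _ h => h.1

theorem wq_mono {Q Q' : Set (Fin (n + 3) → ℂ)} {m : ℕ} {U V : Set (ℝ × ℝ)} (hQ : Q ⊆ Q')
    (h : U ⊆ V) : wq Q m U ⊆ wq Q' m V := by
  rintro w ⟨h1, p, hp, x, hx, h2⟩
  exact ⟨h1, p, hQ hp, x, h hx, h2⟩

open Classical in
theorem fcount {Q : Set (Fin (n + 3) → ℂ)} (hQ : ∀ p ∈ Q, IsConvexPolygon p) {m : ℕ}
    {B U : Set (ℝ × ℝ)} {x₀ : (Fin (n + 3) → ℂ) → ℝ × ℝ} (hA : Adapted Q m B x₀)
    (hU : IsOpen U) (hUB : U ⊆ B) : (wq Q m U).ncard ≤ mb n m := by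
  have hfin : (wq Q m U).Finite := wq_finite Q m U
  have hgen : ∀ w ∈ wq Q m U, ∃ px : (Fin (n + 3) → ℂ) × (ℝ × ℝ), px.1 ∈ Q ∧ px.2 ∈ U ∧
      RW px.1 w px.2 ∧ ∀ σ ∈ SV Q m, ph px.2 (vt px.1 σ) ≠ 0 := by
    rintro w ⟨-, p, hp, x, hx, hw⟩
    obtain ⟨x', h1, h2, h3⟩ := generic (m := m) hU hx hw
    exact ⟨(p, x'), hp, h1, h2, fun σ hσ => h3 _ (VF_uf p σ.2 σ.1 m hσ.1)⟩
  choose! PX h1 h2 h3 h4 using hgen
  set F := hfin.toFinset with hF
  have hmem : ∀ w, w ∈ F ↔ w ∈ wq Q m U := fun w => by rw [hF]; simp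
  set F1 := F.filter fun w => be (x₀ (PX w).1) (PX w).2 ≤ 0 with hF1
  set F2 := F.filter fun w => ¬ be (x₀ (PX w).1) (PX w).2 ≤ 0 with hF2
  have c1 : F1.card ≤ m * (n + 3) + 1 := by
    refine fcount_half hQ hA 1 (Or.inl rfl) F1 (fun w => (PX w).1) (fun w => (PX w).2) ?_
    intro w hw
    rw [hF1, Finset.mem_filter, hmem] at hw
    obtain ⟨g1, g2⟩ := hw
    exact ⟨g1.1, h1 w g1, hUB (h2 w g1), h3 w g1, h4 w g1, by rw [one_mul]; exact g2⟩
  have c2 : F2.card ≤ m * (n + 3) + 1 := by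
    refine fcount_half hQ hA (-1) (Or.inr rfl) F2 (fun w => (PX w).1) (fun w => (PX w).2) ?_
    intro w hw
    rw [hF2, Finset.mem_filter, hmem] at hw
    obtain ⟨g1, g2⟩ := hw
    push Not at g2
    exact ⟨g1.1, h1 w g1, hUB (h2 w g1), h3 w g1, h4 w g1, by linarith⟩
  have h5 : F1.card + F2.card = F.card := Finset.card_filter_add_card_filter_not _
  rw [Set.ncard_eq_toFinset_card _ hfin, ← hF, ← h5]
  unfold mb
  omega

end Pool.Agent.L5helper80.GR
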