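import Pool.Agent.L5helper80.GR.Boot

set_option autoImplicit false

/-!
The bootstrapping step: separation with the exponent `g` implies separation with every exponent
greater than `1 + g / (1 + g)`. The fixed point is the golden ratio.
-/

namespace Pool.Agent.L5helper80.GR

open Complex Set MeasureTheory Filter Topology Pool.Agent.W780.PG Pool.Agent.W780.BB
  Pool.Agent.TH225.BL Pool.Agent.K3h17.BK Pool.Agent.K3h17.BT

open scoped Real ComplexConjugate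

variable {n : ℕ}

/-- Almost every convex polygon has the separation property with the exponent `g`. -/
def Sg (n : ℕ) (g : ℝ) : Prop :=
  ∀ᵐ p : Fin (n + 3) → ℂ, IsConvexPolygon p →
    ∀ᶠ m : ℕ in atTop, Good p m (Real.exp (-(m : ℝ) ^ g))

theorem Good.mono {p : Fin (n + 3) → ℂ} {m : ℕ} {η η' : ℝ} (h : Good p m η) (hη : η' ≤ η) :
    Good p m η' := by
  intro u hu v hv w hw j k l
  have hsub := wl_mono (Bq_mono (p := p) hη) m
  obtain ⟨h1, h2⟩ := h u (hsub hu) v (hsub hv) w (hsub hw) j k l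
  exact ⟨h1.imp id (fun h => hη.trans h), h2.imp id (fun h => hη.trans h)⟩

theorem Sg.mono {g g' : ℝ} (h : Sg n g) (hg : g ≤ g') : Sg n g' := by
  filter_upwards [h] with p hp hconv
  filter_upwards [hp hconv, eventually_ge_atTop 1] with m hm hm1
  refine hm.mono (Real.exp_le_exp.2 ?_)
  have hmR : (1 : ℝ) ≤ m := by exact_mod_cast hm1
  have := Real.rpow_le_rpow_of_exponent_le hmR hg
  linarith

/-- From the polynomials to the unfolded vertices. -/
theorem good_of {p : Fin (n + 3) → ℂ} (hp : IsConvexPolygon p) {j : ℕ} {g' g'' : ℝ}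
    (hj : (j : ℝ) ^ g'' + 4 * j * Real.log (Bg p) ≤ (j : ℝ) ^ g') (T : Finset (Idx n))
    (hmem : ∀ u ∈ wl (Bq p (Real.exp (-(j : ℝ) ^ g'))) j,
      ∀ v ∈ wl (Bq p (Real.exp (-(j : ℝ) ^ g'))) j, ∀ w ∈ wl (Bq p (Real.exp (-(j : ℝ) ^ g'))) j,
      ∀ a b c e, (((u, v, w), (a, b, c), e) : Idx n) ∈ T)
    (hT : ∀ t ∈ T, (∀ z, ff t z = 0) ∨ Real.exp (-(j : ℝ) ^ g'') ≤ |ff t p|) :
    Good p j (Real.exp (-(j : ℝ) ^ g')) := by
  intro u hu v hv w hw a b c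
  have hB1 := Bg_one p
  have hB0 : 0 < Bg p := by linarith
  have hz : Real.exp (-(j : ℝ) ^ g') ≤ Real.exp (-(j : ℝ) ^ g'') / Bg p ^ (4 * j) := by
    have h2 : Bg p ^ (4 * j) = Real.exp (((4 * j : ℕ) : ℝ) * Real.log (Bg p)) := by
      rw [Real.exp_nat_mul, Real.exp_log hB0]
    rw [h2, ← Real.exp_sub]
    apply Real.exp_le_exp.2
    push_cast
    linarith
  obtain ⟨ζ, hζ⟩ : ∃ ζ, ζ = Real.exp (-(j : ℝ) ^ g') := ⟨_, rfl⟩
  obtain ⟨Θ, hΘ⟩ : ∃ Θ, Θ = Real.exp (-(j : ℝ) ^ g'') := ⟨_, rfl⟩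
  have hζ1 : ζ ≤ 1 := by
    rw [hζ]
    apply Real.exp_le_one_iff.2
    have : (0 : ℝ) ≤ (j : ℝ) ^ g' := by positivity
    linarith
  have hζ0 : 0 < ζ := by rw [hζ]; exact Real.exp_pos _
  rw [← hζ, ← hΘ] at hz
  rw [← hζ]
  have hGu := Gw_pos hp u
  have hGv := Gw_pos hp v
  have hGw := Gw_pos hp w
  have hGu' := Gw_le p u hu.1
  have hGv' := Gw_le p v hv.1
  have hGw' := Gw_le p w hw.1
  constructor
  · rcases hT _ (hmem u hu v hv w hw a b c false) with h | h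
    · left
      exact h
    · right
      have h2 : ff (((u, v, w), (a, b, c), false) : Idx n) p = Sp u v a b p := rfl
      rw [h2, Sp_eq, abs_of_nonneg (by positivity), ← hΘ] at h
      obtain ⟨D, hD⟩ : ∃ D, D = ‖uf p u (p a) - uf p v (p b)‖ := ⟨_, rfl⟩
      have hD0 : 0 ≤ D := by rw [hD]; exact norm_nonneg _
      rw [← hD] at h ⊢
      have h3 : (Gw p u * Gw p v) ^ 2 ≤ Bg p ^ (4 * j) := by
        calc (Gw p u * Gw p v) ^ 2 ≤ (Bg p ^ j * Bg p ^ j) ^ 2 := by gcongr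
          _ = Bg p ^ (4 * j) := by rw [← pow_add, ← pow_mul]; congr 1; ring
      have h4 : Θ ≤ Bg p ^ (4 * j) * D ^ 2 := h.trans (by gcongr)
      have h5 : Θ / Bg p ^ (4 * j) ≤ D ^ 2 := by
        rw [div_le_iff₀ (by positivity)]
        linarith
      have h6 : ζ ≤ D ^ 2 := hz.trans h5
      rcases le_total 1 D with h | h
      · exact hζ1.trans h
      · nlinarith
  · rcases hT _ (hmem u hu v hv w hw a b c true) with h | h
    · left
      exact h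
    · right
      have h2 : ff (((u, v, w), (a, b, c), true) : Idx n) p = St u v w a b c p := rfl
      rw [h2, St_eq, abs_mul, abs_of_pos (by positivity : 0 < Gw p u * Gw p v * (Gw p u * Gw p w)),
        ← hΘ] at h
      obtain ⟨D, hD⟩ : ∃ D, D = |lft (uf p u (p a)) (uf p v (p b)) (uf p w (p c))| := ⟨_, rfl⟩
      have hD0 : 0 ≤ D := by rw [hD]; exact abs_nonneg _
      rw [← hD] at h ⊢
      have h3 : Gw p u * Gw p v * (Gw p u * Gw p w) ≤ Bg p ^ (4 * j) := by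
        calc Gw p u * Gw p v * (Gw p u * Gw p w) ≤ Bg p ^ j * Bg p ^ j * (Bg p ^ j * Bg p ^ j) := by
              gcongr
          _ = Bg p ^ (4 * j) := by rw [← pow_add, ← pow_add]; congr 1; ring
      have h4 : Θ ≤ Bg p ^ (4 * j) * D := h.trans (by gcongr)
      have h5 : Θ / Bg p ^ (4 * j) ≤ D := by
        rw [div_le_iff₀ (by positivity)]
        linarith
      exact hz.trans h5

/-- The beginning. -/
theorem Sg_base (n : ℕ) : Sg n 3 := by
  have h1 : ∀ᶠ j : ℕ in atTop, ((Im n j).card : ℝ) ≤ Real.exp (5 * (j : ℝ) ^ (3 / 2 : ℝ)) := by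
    have hE := EE_pos n
    have hL : 0 ≤ Real.log (EE n) := Real.log_nonneg hE
    filter_upwards [const_dom (show (0 : ℝ) < 3 / 2 by norm_num) (Real.log 2 + Real.log (EE n)),
      pow_dom (show (1 : ℝ) < 3 / 2 by norm_num) (Real.log (EE n))] with j a1 a2
    rw [Real.rpow_one] at a2
    have h2 : ((Im n j).card : ℝ) ≤ 2 * (EE n : ℝ) ^ (j + 1) := by exact_mod_cast card_Im n j
    refine h2.trans ?_
    have h3 : 2 * (EE n : ℝ) ^ (j + 1) =
        Real.exp (Real.log 2 + ((j + 1 : ℕ) : ℝ) * Real.log (EE n)) := by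
      rw [Real.exp_add, Real.exp_nat_mul, Real.exp_log (by norm_num), Real.exp_log (by linarith)]
    rw [h3]
    apply Real.exp_le_exp.2
    push_cast
    have h4 : (0 : ℝ) ≤ (j : ℝ) ^ (3 / 2 : ℝ) := by positivity
    linarith
  have h2 := union_bound n (γ := 3 / 2) (g' := 11 / 4) (by norm_num) (by norm_num) (fun j => Im n j)
    (fun j => subset_refl _) h1
  filter_upwards [h2] with p hp hconv
  filter_upwards [hp, pow_dom (show (11 / 4 : ℝ) < 3 by norm_num) 2,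
    pow_dom (show (1 : ℝ) < 3 by norm_num) (8 * Real.log (Bg p))] with j a1 a2 a3
  rw [Real.rpow_one] at a3
  refine good_of hconv (g'' := 11 / 4) (by linarith) (Im n j) ?_ a1
  intro u hu v hv w hw a b c e
  unfold Im
  simp only [Finset.mem_product, mem_Wm, Finset.mem_univ, and_true]
  exact ⟨hu.1, hv.1, hw.1⟩

/-- The number of cells. -/
theorem cells_j (n : ℕ) {β g₂ γ : ℝ} (hβ : 0 < β) (hg₂ : 0 ≤ g₂) (hγ : 0 < γ) (h : β * g₂ < γ)
    {c : ℕ} (hc : 1 ≤ c) : ∀ᶠ j : ℕ in atTop,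
      ((cells n (⌈(c : ℝ) / (Real.exp (-(ij β j : ℝ) ^ g₂) / 4)⌉₊ + 1)).card : ℝ) ≤
        Real.exp ((j : ℝ) ^ γ) := by
  have hcR : (1 : ℝ) ≤ c := by exact_mod_cast hc
  have hn : (0 : ℝ) ≤ n := n.cast_nonneg
  filter_upwards [const_dom hγ (4 * ((n : ℝ) + 3) * Real.log (13 * c)),
    pow_dom h (4 * ((n : ℝ) + 3) * 2 ^ g₂), eventually_ge_atTop 1] with j a1 a2 a3
  obtain ⟨r, hr⟩ : ∃ r, r = Real.exp (-(ij β j : ℝ) ^ g₂) := ⟨_, rfl⟩
  rw [← hr]
  have hr0 : 0 < r := by rw [hr]; exact Real.exp_pos _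
  have hi0 : (0 : ℝ) ≤ (ij β j : ℝ) ^ g₂ := by positivity
  have hr1 : r ≤ 1 := by
    rw [hr]
    apply Real.exp_le_one_iff.2
    linarith
  obtain ⟨M, hM⟩ : ∃ M : ℕ, M = ⌈(c : ℝ) / (r / 4)⌉₊ + 1 := ⟨_, rfl⟩
  rw [← hM, card_cells]
  have hcr : 1 ≤ (c : ℝ) / r := by
    rw [le_div_iff₀ hr0]
    linarith
  have hM1 : (M : ℝ) ≤ 4 * (c / r) + 2 := by
    rw [hM]
    push_cast
    have h1 := Nat.ceil_lt_add_one (show 0 ≤ (c : ℝ) / (r / 4) by positivity)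
    have h2 : (c : ℝ) / (r / 4) = 4 * (c / r) := by field_simp
    linarith
  have hM2 : (2 * (M : ℝ) + 1) ≤ 13 * (c / r) := by linarith
  have e1 : 13 * ((c : ℝ) / r) = Real.exp (Real.log (13 * c) + (ij β j : ℝ) ^ g₂) := by
    rw [Real.exp_add, Real.exp_log (by linarith), hr, Real.exp_neg]
    field_simp
  have e2 : (ij β j : ℝ) ^ g₂ ≤ 2 ^ g₂ * (j : ℝ) ^ (β * g₂) := ij_pow hβ.le hg₂ a3
  push_cast
  calc ((2 * (M : ℝ) + 1) * (2 * (M : ℝ) + 1)) ^ (n + 3)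
      ≤ ((13 * (c / r)) * (13 * (c / r))) ^ (n + 3) := by gcongr
    _ = Real.exp (((n + 3 : ℕ) : ℝ) * (2 * (Real.log (13 * c) + (ij β j : ℝ) ^ g₂))) := by
        rw [e1, ← Real.exp_add, ← Real.exp_nat_mul]
        congr 1
        ring
    _ ≤ _ := by
        apply Real.exp_le_exp.2
        push_cast
        have e3 : 4 * ((n : ℝ) + 3) * (ij β j : ℝ) ^ g₂ ≤
            4 * ((n : ℝ) + 3) * (2 ^ g₂ * (j : ℝ) ^ (β * g₂)) := by gcongr
        linarith

/-- Membership in the class. -/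
theorem exists_cls {g : ℝ} {p : Fin (n + 3) → ℂ} (hp : IsConvexPolygon p)
    (hG : ∀ᶠ m : ℕ in atTop, Good p m (Real.exp (-(m : ℝ) ^ g))) :
    ∃ c : ℕ, 1 ≤ c ∧ p ∈ Cls n g c := by
  obtain ⟨m₀, hm₀⟩ := eventually_atTop.1 hG
  have hpos : ∀ i, 0 < ‖p (i + 1) - p i‖ := by
    intro i
    rw [norm_pos_iff, sub_ne_zero]
    intro h
    exact Pool.Agent.W174.PG.i1 i (Pool.Agent.W174.PG.inj hp h)
  obtain ⟨c, hc⟩ := exists_nat_ge (Rb p + 1 + m₀ + ∑ i, 2 / ‖p (i + 1) - p i‖)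
  have hR := Rb_nonneg (p := p)
  have hs : ∀ i, 2 / ‖p (i + 1) - p i‖ ≤ ∑ i, 2 / ‖p (i + 1) - p i‖ := fun i =>
    Finset.single_le_sum (f := fun i => 2 / ‖p (i + 1) - p i‖)
      (fun i _ => (div_pos two_pos (hpos i)).le) (Finset.mem_univ i)
  have hs0 : 0 ≤ ∑ i, 2 / ‖p (i + 1) - p i‖ := Finset.sum_nonneg fun i _ =>
    (div_pos two_pos (hpos i)).le
  have hm0 : (0 : ℝ) ≤ m₀ := m₀.cast_nonneg
  have hc1 : (1 : ℝ) ≤ c := by linarith
  refine ⟨c, by exact_mod_cast hc1, hp, by linarith, fun i => ?_, fun m hm => hm₀ m ?_⟩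
  · have h1 := hs i
    have h2 : 2 / ‖p (i + 1) - p i‖ ≤ c := by linarith
    rw [div_le_iff₀ (hpos i)] at h2
    rw [mul_one_div, div_le_iff₀ (by linarith)]
    linarith
  · have h1 : (m₀ : ℝ) ≤ c := by linarith
    have h2 : m₀ ≤ c := by exact_mod_cast h1
    exact h2.trans hm

/-- The bootstrapping step. -/
theorem Sg_step {g g' : ℝ} (hg : 1 ≤ g) (hg' : 1 + g / (1 + g) < g') (hS : Sg n g) :
    Sg n g' := by
  have hg0 : 0 < 1 + g := by linarith
  have hn : (0 : ℝ) ≤ n := n.cast_nonneg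
  obtain ⟨γ, hγ⟩ : ∃ γ, γ = (g / (1 + g) + (g' - 1)) / 2 := ⟨_, rfl⟩
  have hγ1 : g / (1 + g) < γ := by rw [hγ]; linarith
  have hγ2 : 1 + γ < g' := by rw [hγ]; linarith
  have hγ0 : 0 < γ := lt_of_le_of_lt (by positivity) hγ1
  obtain ⟨g'', hg''⟩ : ∃ g'', g'' = (1 + γ + g') / 2 := ⟨_, rfl⟩
  have hg1 : 1 + γ < g'' := by rw [hg'']; linarith
  have hg2 : g'' < g' := by rw [hg'']; linarith
  obtain ⟨D, hD⟩ : ∃ D, D = γ * (1 + g) := ⟨_, rfl⟩
  have hDg : g < D := by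
    rw [hD]
    rwa [div_lt_iff₀ hg0] at hγ1
  obtain ⟨g₁, hg₁⟩ : ∃ g₁, g₁ = (2 * g + D) / 3 := ⟨_, rfl⟩
  obtain ⟨g₂, hg₂⟩ : ∃ g₂, g₂ = (g + 2 * D) / 3 := ⟨_, rfl⟩
  have k1 : g < g₁ := by rw [hg₁]; linarith
  have k2 : g₁ < g₂ := by rw [hg₁, hg₂]; linarith
  have k3 : g₂ < D := by rw [hg₂]; linarith
  obtain ⟨β, hβ⟩ : ∃ β, β = 1 / (1 + g) := ⟨_, rfl⟩
  have hβ0 : 0 < β := by rw [hβ]; positivity
  have hβD : β * D = γ := by
    rw [hβ, hD]
    field_simp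
  have k4 : β * g₂ < γ := by
    rw [← hβD]
    gcongr
  have k5 : β * g₁ < γ := lt_trans (by gcongr) k4
  -- the exceptional set for each class
  have hall : ∀ᵐ p : Fin (n + 3) → ℂ, ∀ c : ℕ, 1 ≤ c → ∀ᶠ j : ℕ in atTop,
      ∀ t ∈ TT (Cls n g c) (Real.exp (-(ij β j : ℝ) ^ g₂))
        (⌈(c : ℝ) / (Real.exp (-(ij β j : ℝ) ^ g₂) / 4)⌉₊ + 1) j,
        (∀ z, ff t z = 0) ∨ Real.exp (-(j : ℝ) ^ g'') ≤ |ff t p| := by
    rw [ae_all_iff]
    intro c
    by_cases hc : 1 ≤ c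
    swap
    · exact Eventually.of_forall fun p h => absurd h hc
    have hcard : ∀ᶠ j : ℕ in atTop, ((TT (Cls n g c) (Real.exp (-(ij β j : ℝ) ^ g₂))
        (⌈(c : ℝ) / (Real.exp (-(ij β j : ℝ) ^ g₂) / 4)⌉₊ + 1) j).card : ℝ) ≤
          Real.exp (5 * (j : ℝ) ^ γ) := by
      have hcount := count_j (n := n) hg hγ1 k1 k2 (by rw [← hβ]; exact k5) hc
      rw [← hβ] at hcount
      filter_upwards [hcount, cells_j n hβ0 (by linarith : 0 ≤ g₂) hγ0 k4 hc,
        const_dom hγ0 (2 * ((n : ℝ) + 3) ^ 3)] with j a1 a2 a3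
      refine (TT_card (Real.exp_pos _).le a1).trans ?_
      have a4 : 2 * ((n : ℝ) + 3) ^ 3 ≤ Real.exp ((j : ℝ) ^ γ) := by
        have := Real.add_one_le_exp ((j : ℝ) ^ γ)
        linarith
      calc _ ≤ Real.exp ((j : ℝ) ^ γ) * (Real.exp ((j : ℝ) ^ γ) ^ 3 * Real.exp ((j : ℝ) ^ γ)) := by
            gcongr
        _ = Real.exp (5 * (j : ℝ) ^ γ) := by
            rw [← Real.exp_nat_mul, ← Real.exp_add, ← Real.exp_add]
            congr 1
            push_cast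
            ring
    have h1 := union_bound n hγ0 hg1 (fun j => TT (Cls n g c) (Real.exp (-(ij β j : ℝ) ^ g₂))
        (⌈(c : ℝ) / (Real.exp (-(ij β j : ℝ) ^ g₂) / 4)⌉₊ + 1) j) (fun j => TT_sub _ _ _ _) hcard
    filter_upwards [h1] with p hp _ using hp
  filter_upwards [hS, hall] with p h1 h2 hp
  obtain ⟨c, hc, hpc⟩ := exists_cls hp (h1 hp)
  have hrj : ∀ᶠ j : ℕ in atTop,
      Real.exp (-(j : ℝ) ^ g') ≤ Real.exp (-(ij β j : ℝ) ^ g₂) / 2 := by
    filter_upwards [pow_dom (show β * g₂ < g' by linarith) (2 * 2 ^ g₂),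
      const_dom (show 0 < g' by linarith) (2 * Real.log 2), eventually_ge_atTop 1] with j b1 b2 b3
    have b4 : (ij β j : ℝ) ^ g₂ ≤ 2 ^ g₂ * (j : ℝ) ^ (β * g₂) :=
      ij_pow hβ0.le (by linarith) b3
    have b5 : Real.exp (-(ij β j : ℝ) ^ g₂) / 2 =
        Real.exp (-(ij β j : ℝ) ^ g₂ - Real.log 2) := by
      rw [Real.exp_sub, Real.exp_log (by norm_num)]
    rw [b5]
    apply Real.exp_le_exp.2
    linarith
  filter_upwards [h2 c hc, hrj, pow_dom hg2 2,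
    pow_dom (show (1 : ℝ) < g' by linarith) (8 * Real.log (Bg p))] with j a1 a2 a3 a4
  rw [Real.rpow_one] at a4
  refine good_of hp (g'' := g'') (by linarith) _ ?_ a1
  intro u hu v hv w hw a b d e
  refine TT_mem (Real.exp_pos _) (R := c) ?_ hpc (fun k => ?_) a2 hu hv hw a b d e
  · push_cast
    have := Nat.le_ceil ((c : ℝ) / (Real.exp (-(ij β j : ℝ) ^ g₂) / 4))
    linarith
  · have := hpc.2.1
    exact (le_Rb k).trans (by linarith)

/-- All exponents greater than the golden ratio. -/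
theorem Sg_golden (n : ℕ) {g : ℝ} (hg : Real.goldenRatio < g) : Sg n g := by
  obtain ⟨φ, hφ⟩ : ∃ φ, φ = Real.goldenRatio := ⟨_, rfl⟩
  rw [← hφ] at hg
  have hφ1 : 1 < φ := by rw [hφ]; exact Real.one_lt_goldenRatio
  have hφ2 : φ < 2 := by rw [hφ]; exact Real.goldenRatio_lt_two
  have hφs : φ ^ 2 = φ + 1 := by rw [hφ]; exact Real.goldenRatio_sq
  have hall : ∀ k : ℕ, Sg n (φ + (3 - φ) / 2 ^ k) := by
    intro k
    induction k with
    | zero =>
      have e : φ + (3 - φ) / 2 ^ 0 = 3 := by simp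
      rw [e]
      exact Sg_base n
    | succ k ih =>
      obtain ⟨x, hx⟩ : ∃ x, x = (3 - φ) / 2 ^ k := ⟨_, rfl⟩
      have hx0 : 0 < x := by
        rw [hx]
        apply div_pos (by linarith) (by positivity)
      rw [← hx] at ih
      have e : φ + (3 - φ) / 2 ^ (k + 1) = φ + x / 2 := by
        rw [hx, pow_succ]
        ring
      rw [e]
      refine Sg_step (g := φ + x) (by linarith) ?_ ih
      have h1 : (0 : ℝ) < 1 + (φ + x) := by linarith
      have h2 : (φ + x) / (1 + (φ + x)) < φ + x / 2 - 1 := by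
        rw [div_lt_iff₀ h1]
        nlinarith
      linarith
  obtain ⟨k, hk⟩ : ∃ k : ℕ, (3 - φ) / 2 ^ k ≤ g - φ := by
    have h1 : Tendsto (fun k : ℕ => (3 - φ) * (1 / 2 : ℝ) ^ k) atTop (𝓝 ((3 - φ) * 0)) :=
      (tendsto_pow_atTop_nhds_zero_of_lt_one (by norm_num) (by norm_num)).const_mul _
    rw [mul_zero] at h1
    have h2 : 0 < g - φ := by linarith
    obtain ⟨k, hk⟩ := (h1.eventually (gt_mem_nhds h2)).exists
    refine ⟨k, ?_⟩
    rw [div_eq_mul_one_div, ← one_div_pow]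
    exact hk.le
  exact (hall k).mono (by linarith)

end Pool.Agent.L5helper80.GR
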