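import Pool.Agent.L5helper80.GR.Cov

set_option autoImplicit false

/-!
The union bound.
-/

namespace Pool.Agent.L5helper80.GR

open Complex Set MeasureTheory Filter Topology Pool.Agent.W780.PG Pool.Agent.W780.BB
  Pool.Agent.TH225.BL Pool.Agent.K3h17.BK Pool.Agent.K3h17.BT

open scoped Real ComplexConjugate

variable {n : ℕ}

theorem pow_dom {a b : ℝ} (h : a < b) (C : ℝ) :
    ∀ᶠ j : ℕ in atTop, C * (j : ℝ) ^ a ≤ (j : ℝ) ^ b := by
  have h1 : Tendsto (fun j : ℕ => (j : ℝ) ^ (b - a)) atTop atTop :=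
    (tendsto_rpow_atTop (by linarith : 0 < b - a)).comp tendsto_natCast_atTop_atTop
  filter_upwards [h1.eventually (eventually_ge_atTop C), eventually_ge_atTop 1] with j h2 h3
  have hj : (0 : ℝ) < j := by exact_mod_cast h3
  have e : (j : ℝ) ^ b = (j : ℝ) ^ (b - a) * (j : ℝ) ^ a := by
    rw [← Real.rpow_add hj]
    congr 1
    ring
  rw [e]
  gcongr

theorem summable_exp {γ : ℝ} (hγ : 0 < γ) (C : ℝ) :
    Summable fun j : ℕ => C * ((8 * (j : ℝ) + 2) * Real.exp (-(j : ℝ) ^ γ)) := by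
  apply Summable.mul_left
  have h1 := isLittleO_exp_neg_mul_rpow_atTop (show (0 : ℝ) < 1 by norm_num) (-3 / γ)
  have h2 : Tendsto (fun j : ℕ => (j : ℝ) ^ γ) atTop atTop :=
    (tendsto_rpow_atTop hγ).comp tendsto_natCast_atTop_atTop
  have h3 := (h1.comp_tendsto h2).bound (show (0 : ℝ) < 1 by norm_num)
  have h4 : Summable fun j : ℕ => 10 * (1 / (j : ℝ) ^ 2) :=
    (Real.summable_one_div_nat_pow.2 (by norm_num)).mul_left 10
  refine h4.of_norm_bounded_eventually_nat ?_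
  filter_upwards [h3, eventually_ge_atTop 1] with j hj hj1
  have hjR : (1 : ℝ) ≤ j := by exact_mod_cast hj1
  have hj0 : (0 : ℝ) < j := by linarith
  simp only [Function.comp] at hj
  rw [Real.norm_eq_abs, Real.norm_eq_abs, one_mul, abs_of_pos (Real.exp_pos _),
    abs_of_nonneg (by positivity), ← Real.rpow_mul hj0.le] at hj
  have e1 : γ * (-3 / γ) = ((-3 : ℤ) : ℝ) := by
    push_cast
    field_simp
  rw [e1, Real.rpow_intCast] at hj
  have e2 : (j : ℝ) ^ (-3 : ℤ) = 1 / (j : ℝ) ^ 3 := by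
    rw [zpow_neg, one_div]
    norm_cast
  rw [e2] at hj
  have e3 : (-1 : ℝ) * (j : ℝ) ^ γ = -(j : ℝ) ^ γ := by ring
  rw [e3] at hj
  rw [Real.norm_eq_abs, abs_of_nonneg (by positivity)]
  calc (8 * (j : ℝ) + 2) * Real.exp (-(j : ℝ) ^ γ) ≤ (10 * (j : ℝ)) * (1 / (j : ℝ) ^ 3) := by
        gcongr
        linarith
    _ = 10 * (1 / (j : ℝ) ^ 2) := by
        field_simp

/-- The union bound for a box. -/
theorem union_box (n : ℕ) {γ : ℝ} (hγ : 0 < γ) (T : ℕ → Finset (Idx n))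
    (hT : ∀ j, T j ⊆ Im n j)
    (hcard : ∀ᶠ j : ℕ in atTop, ((T j).card : ℝ) ≤ Real.exp (5 * (j : ℝ) ^ γ)) (R : ℝ)
    (hR : 0 < R) :
    ∀ᵐ p : Fin (n + 3) → ℂ, ∀ᶠ j : ℕ in atTop, p ∈ cbox (n + 3) R → ∀ t ∈ T j,
      (∀ z, ff t z = 0) ∨
        Real.exp (-(6 * (j : ℝ) ^ γ)) ^ ((8 * j + 2) * ((n + 3) + (n + 3))) ≤ |ff t p| := by
  classical
  obtain ⟨bad, hbad⟩ : ∃ bad : ℕ → Set (Fin (n + 3) → ℂ), bad = fun j =>
    if ((T j).card : ℝ) ≤ Real.exp (5 * (j : ℝ) ^ γ) then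
      ⋃ t ∈ (T j).filter (fun t => ∃ z, ff t z ≠ 0), (cbox (n + 3) R ∩ {z | |ff t z| <
        Real.exp (-(6 * (j : ℝ) ^ γ)) ^ ((8 * j + 2) * ((n + 3) + (n + 3)))})
    else ∅ := ⟨_, rfl⟩
  have hmeas : ∀ j, volume (bad j) ≤ ENNReal.ofReal
      ((2 * ((n + 3) + (n + 3) : ℕ) * (2 * R + 1) ^ ((n + 3) + (n + 3))) *
        ((8 * (j : ℝ) + 2) * Real.exp (-(j : ℝ) ^ γ))) := by
    intro j
    by_cases hc : ((T j).card : ℝ) ≤ Real.exp (5 * (j : ℝ) ^ γ)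
    swap
    · rw [hbad]
      simp only []
      rw [if_neg hc, measure_empty]
      exact zero_le
    obtain ⟨θ, hθ⟩ : ∃ θ, θ = Real.exp (-(6 * (j : ℝ) ^ γ)) := ⟨_, rfl⟩
    have hθ0 : 0 < θ := by rw [hθ]; exact Real.exp_pos _
    have hj0 : (0 : ℝ) ≤ (j : ℝ) ^ γ := by positivity
    have hθ1 : θ ≤ 1 := by
      rw [hθ]
      apply Real.exp_le_one_iff.2
      linarith
    set b := ENNReal.ofReal ((((n + 3) + (n + 3) : ℕ) : ℝ) * (2 * ((8 * j + 2 : ℕ) : ℝ) * θ) *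
      (2 * R + 1) ^ ((n + 3) + (n + 3))) with hb
    rw [hbad]
    simp only []
    rw [if_pos hc, ← hθ]
    calc volume (⋃ t ∈ (T j).filter (fun t => ∃ z, ff t z ≠ 0), (cbox (n + 3) R ∩
          {z | |ff t z| < θ ^ ((8 * j + 2) * ((n + 3) + (n + 3)))}))
        ≤ ∑ t ∈ (T j).filter (fun t => ∃ z, ff t z ≠ 0), volume
          (cbox (n + 3) R ∩ {z | |ff t z| < θ ^ ((8 * j + 2) * ((n + 3) + (n + 3)))}) :=
          measure_biUnion_finset_le _ _
      _ ≤ ∑ t ∈ (T j).filter (fun t => ∃ z, ff t z ≠ 0), b := by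
          refine Finset.sum_le_sum fun t ht => ?_
          rw [Finset.mem_filter] at ht
          exact (RP_ff (hT j ht.1)).sublevel ht.2 R θ hR hθ0 hθ1
      _ = ((T j).filter (fun t => ∃ z, ff t z ≠ 0)).card • b := by rw [Finset.sum_const]
      _ ≤ (T j).card • b := by
          apply nsmul_le_nsmul_left zero_le
          exact Finset.card_filter_le _ _
      _ ≤ ENNReal.ofReal ((2 * ((n + 3) + (n + 3) : ℕ) * (2 * R + 1) ^ ((n + 3) + (n + 3))) *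
        ((8 * (j : ℝ) + 2) * Real.exp (-(j : ℝ) ^ γ))) := by
          rw [nsmul_eq_mul, hb, ← ENNReal.ofReal_natCast,
            ← ENNReal.ofReal_mul (Nat.cast_nonneg _)]
          apply ENNReal.ofReal_le_ofReal
          have e1 : Real.exp (5 * (j : ℝ) ^ γ) * θ = Real.exp (-(j : ℝ) ^ γ) := by
            rw [hθ, ← Real.exp_add]
            congr 1
            ring
          rw [← e1]
          push_cast
          have e2 : ((T j).card : ℝ) * (((n : ℝ) + 3 + (n + 3)) * (2 * (8 * (j : ℝ) + 2) * θ) *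
              (2 * R + 1) ^ (n + 3 + (n + 3))) ≤ Real.exp (5 * (j : ℝ) ^ γ) *
              (((n : ℝ) + 3 + (n + 3)) * (2 * (8 * (j : ℝ) + 2) * θ) *
              (2 * R + 1) ^ (n + 3 + (n + 3))) := by gcongr
          refine e2.trans (le_of_eq ?_)
          ring
  have hae : ∀ᵐ p : Fin (n + 3) → ℂ, ∀ᶠ j : ℕ in atTop, p ∉ bad j := by
    apply ae_eventually_notMem
    have h1 := summable_exp hγ (2 * ((n + 3) + (n + 3) : ℕ) * (2 * R + 1) ^ ((n + 3) + (n + 3)))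
    exact ne_top_of_le_ne_top h1.tsum_ofReal_ne_top (ENNReal.tsum_le_tsum hmeas)
  filter_upwards [hae] with p hp
  filter_upwards [hp, hcard] with j h1 h2 hbox t ht
  by_contra hcon
  push Not at hcon
  obtain ⟨h3, h4⟩ := hcon
  apply h1
  rw [hbad]
  simp only []
  rw [if_pos h2]
  simp only [mem_iUnion]
  exact ⟨t, Finset.mem_filter.2 ⟨ht, h3⟩, hbox, h4⟩

/-- The union bound. -/
theorem union_bound (n : ℕ) {γ g' : ℝ} (hγ : 0 < γ) (hg' : 1 + γ < g') (T : ℕ → Finset (Idx n))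
    (hT : ∀ j, T j ⊆ Im n j)
    (hcard : ∀ᶠ j : ℕ in atTop, ((T j).card : ℝ) ≤ Real.exp (5 * (j : ℝ) ^ γ)) :
    ∀ᵐ p : Fin (n + 3) → ℂ, ∀ᶠ j : ℕ in atTop, ∀ t ∈ T j, (∀ z, ff t z = 0) ∨
      Real.exp (-(j : ℝ) ^ g') ≤ |ff t p| := by
  have hall : ∀ᵐ p : Fin (n + 3) → ℂ, ∀ R : ℕ, ∀ᶠ j : ℕ in atTop,
      p ∈ cbox (n + 3) ((R : ℝ) + 1) → ∀ t ∈ T j, (∀ z, ff t z = 0) ∨
        Real.exp (-(6 * (j : ℝ) ^ γ)) ^ ((8 * j + 2) * ((n + 3) + (n + 3))) ≤ |ff t p| := by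
    rw [ae_all_iff]
    intro R
    exact union_box n hγ T hT hcard _ (by positivity)
  filter_upwards [hall] with p hp
  obtain ⟨R, hR⟩ := exists_nat_ge (Rb p)
  have hbox : p ∈ cbox (n + 3) ((R : ℝ) + 1) := mem_cbox fun i => (le_Rb i).trans (by linarith)
  filter_upwards [hp R, pow_dom hg' (120 * ((n : ℝ) + 3)), eventually_ge_atTop 1] with j h1 h2 h3 t ht
  rcases h1 hbox t ht with h | h
  · exact Or.inl h
  · right
    refine le_trans ?_ h
    rw [← Real.exp_nat_mul]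
    apply Real.exp_le_exp.2
    have hj1 : (1 : ℝ) ≤ j := by exact_mod_cast h3
    have hj0 : (0 : ℝ) < j := by linarith
    have e1 : (j : ℝ) ^ (1 + γ) = j * (j : ℝ) ^ γ := by
      rw [Real.rpow_add hj0, Real.rpow_one]
    rw [e1] at h2
    push_cast
    have e2 : (8 * (j : ℝ) + 2) ≤ 10 * j := by linarith
    have e3 : (0 : ℝ) ≤ (j : ℝ) ^ γ := by positivity
    have e4 : (8 * (j : ℝ) + 2) * ((n : ℝ) + 3 + (n + 3)) * (6 * (j : ℝ) ^ γ) ≤
        (10 * (j : ℝ)) * ((n : ℝ) + 3 + (n + 3)) * (6 * (j : ℝ) ^ γ) := by gcongr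
    have e5 : (10 * (j : ℝ)) * ((n : ℝ) + 3 + (n + 3)) * (6 * (j : ℝ) ^ γ) =
        120 * ((n : ℝ) + 3) * (j * (j : ℝ) ^ γ) := by ring
    linarith

end Pool.Agent.L5helper80.GR
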